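import Pool.Agent.RA6.Defs99

/-!
The label-blob world for MP_cf0286_al: vertices carry a label and a class. Two vertices see each
other by a matrix of labels whose index depends on the two classes, except for at most two
exceptional edges of the newer vertex. Static finite conditions give a representation.
-/

namespace Pool.Agent.CRQ.Blob

open Pool.Agent.RA6

/-- An allowed triangle. -/
def ok (a b c : ZMod 6) : Prop := ¬ Forbidden a b c

theorem ok12 {a b c : ZMod 6} (h : ok a b c) : ok b a c := fun h' => h (forb_swap12 _ _ _ h')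
theorem ok23 {a b c : ZMod 6} (h : ok a b c) : ok a c b := fun h' => h (forb_swap23 _ _ _ h')
theorem ok13 {a b c : ZMod 6} (h : ok a b c) : ok c b a := ok12 (ok23 (ok12 h))
theorem okrot {a b c : ZMod 6} (h : ok a b c) : ok b c a := ok23 (ok12 h)
theorem okrot' {a b c : ZMod 6} (h : ok a b c) : ok c a b := ok12 (ok23 h)

/-- The mode of a newborn vertex: in the class of `P`, in a new class, in the class of the mixed
children of `P`. -/
inductive Mode
  | tw
  | own
  | mix

/-- The flag of an exceptional edge: plain, or the first or second edge of a mixed child. -/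
inductive Fl
  | pl
  | mE
  | mO

/-- The flags of the two edges of a newborn. -/
def flP : Mode → Fl
  | Mode.mix => Fl.mE
  | _ => Fl.pl

def flQ : Mode → Fl
  | Mode.mix => Fl.mO
  | _ => Fl.pl

/-- Possible indices `κ` of `1, 2`, `κ'` of `2, 3`, `κ''` of `1, 3` of three classes; `none` is the
index of two vertices of one class. -/
def Comp {I : Type} (κ κ' κ'' : Option I) : Prop :=
  (κ = none → κ'' = κ') ∧ (κ' = none → κ'' = κ) ∧ (κ'' = none → κ = κ')

/-- The static data. -/
structure Data (L I : Type) where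
  C : Option I → L → L → ZMod 6
  i1 : I
  iK : I
  X : Fl → Option I → L → L → ZMod 6 → Prop
  C_symm : ∀ κ p q, C κ p q = C κ q p
  F3 : ∀ κ κ' κ'', Comp κ κ' κ'' → ∀ p q r, ok (C κ p q) (C κ' q r) (C κ'' p r)
  XA : ∀ fl κ z x s, X fl κ z x s → ∀ κ' κ'', Comp κ κ' κ'' → ∀ r,
    ok s (C κ'' z r) (C κ' x r)
  XB : ∀ fl fl' κ κ' z z' x s s', X fl κ z x s → X fl' κ' z' x s' → ∀ κ'', Comp κ κ' κ'' →
    (fl = Fl.mE → fl' = Fl.mE → κ'' = none) → (fl = Fl.mO → fl' = Fl.mO → κ'' ≠ none) →
    ok s s' (C κ'' z z')
  XC : ∀ fl fl' κ κ' z x u s s', X fl κ z x s → X fl' κ' x u s' → ∀ κ'', Comp κ κ' κ'' →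
    ok s s' (C κ'' z u)

/-- Vertices. -/
inductive V (L I : Type) : Type
  | base (l : L) : V L I
  | nd (md : Mode) (P Q : V L I) (i j : I) (l : L) (s t : Option (ZMod 6)) : V L I

/-- Names of classes. -/
inductive Cl (L I : Type) : Type
  | b : Cl L I
  | own (v : V L I) : Cl L I
  | mx (v : V L I) : Cl L I

namespace V

variable {L I : Type}

def size : V L I → ℕ
  | base _ => 0
  | nd _ P Q _ _ _ _ _ => size P + size Q + 1

def lab : V L I → L
  | base l => l
  | nd _ _ _ _ _ l _ _ => l

/-- The class. -/
def cls : V L I → Cl L I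
  | base _ => Cl.b
  | nd Mode.tw P _ _ _ _ _ _ => cls P
  | nd Mode.own P Q i j l s t => Cl.own (nd Mode.own P Q i j l s t)
  | nd Mode.mix P _ _ _ _ _ _ => Cl.mx P

def csize : Cl L I → ℕ
  | Cl.b => 0
  | Cl.own v => size v
  | Cl.mx v => size v + 1

theorem csize_cls : ∀ N : V L I, csize (cls N) ≤ size N
  | base _ => le_refl _
  | nd Mode.tw P Q i j l s t => by
    have := csize_cls P
    show csize (cls P) ≤ size P + size Q + 1
    omega
  | nd Mode.own P Q i j l s t => le_refl _
  | nd Mode.mix P Q i j l s t => by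
    show size P + 1 ≤ size P + size Q + 1
    omega

end V

open V

variable {L I : Type} (D : Data L I)

open Classical in
/-- The index by which the class `A` refers to the older class `M`. -/
noncomputable def ref : Cl L I → Cl L I → Option I
  | Cl.own (nd _ P Q i j _ _ _), M =>
      if cls P = M then some i else if cls Q = M then some j else none
  | Cl.own (base _), _ => none
  | Cl.mx P, M => if cls P = M then some D.iK else none
  | Cl.b, _ => none

open Classical in
theorem ref_own (md : Mode) (P Q : V L I) (i j : I) (l : L) (s t : Option (ZMod 6))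
    (M : Cl L I) : ref D (Cl.own (nd md P Q i j l s t)) M =
      if cls P = M then some i else if cls Q = M then some j else none := rfl

open Classical in
theorem ref_mx (P : V L I) (M : Cl L I) : ref D (Cl.mx P) M =
    if cls P = M then some D.iK else none := rfl

theorem ref_size {A M : Cl L I} {k : I} (h : ref D A M = some k) : csize M < csize A := by
  cases A with
  | b => exact absurd h (by simp [ref])
  | own v =>
    cases v with
    | base l => exact absurd h (by simp [ref])
    | nd md P Q i j l s t =>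
      rw [ref_own] at h
      have h1 := csize_cls P
      have h2 := csize_cls Q
      by_cases e1 : cls P = M
      · rw [← e1]
        show _ < size P + size Q + 1
        omega
      · rw [if_neg e1] at h
        by_cases e2 : cls Q = M
        · rw [← e2]
          show _ < size P + size Q + 1
          omega
        · rw [if_neg e2] at h
          exact absurd h (by simp)
  | mx P =>
    rw [ref_mx] at h
    have h1 := csize_cls P
    by_cases e1 : cls P = M
    · rw [← e1]
      show _ < size P + 1
      omega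
    · rw [if_neg e1] at h
      exact absurd h (by simp)

open Classical in
/-- The index of two classes. -/
noncomputable def mu0 (A M : Cl L I) : Option I :=
  if A = M then none else some ((ref D A M).getD ((ref D M A).getD D.i1))

/-- The index of two vertices. -/
noncomputable def mu (N M : V L I) : Option I := mu0 D (cls N) (cls M)

theorem mu0_symm (A M : Cl L I) : mu0 D A M = mu0 D M A := by
  unfold mu0
  by_cases h : A = M
  · rw [if_pos h, if_pos h.symm]
  · rw [if_neg h, if_neg (Ne.symm h)]
    cases h1 : ref D A M with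
    | none =>
      cases h2 : ref D M A with
      | none => rfl
      | some k => rfl
    | some k =>
      cases h2 : ref D M A with
      | none => rfl
      | some k' =>
        have := ref_size D h1
        have := ref_size D h2
        omega

theorem mu_symm (N M : V L I) : mu D N M = mu D M N := mu0_symm D _ _

theorem mu_same {N M : V L I} (h : cls N = cls M) : mu D N M = none := by
  unfold mu mu0
  rw [if_pos h]

theorem mu_eq_none {N M : V L I} (h : mu D N M = none) : cls N = cls M := by
  unfold mu mu0 at h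
  by_contra hne
  rw [if_neg hne] at h
  exact absurd h (by simp)

theorem mu_congr {N M K : V L I} (h : cls N = cls M) : mu D N K = mu D M K := by
  unfold mu
  rw [h]

theorem comp (N M K : V L I) : Comp (mu D N M) (mu D M K) (mu D N K) := by
  refine ⟨?_, ?_, ?_⟩
  · intro h
    exact mu_congr D (mu_eq_none D h)
  · intro h
    rw [mu_symm D N K, mu_symm D N M]
    exact (mu_congr D (mu_eq_none D h)).symm
  · intro h
    rw [mu_congr D (mu_eq_none D h), mu_symm]

open Classical in
/-- The exceptional edges of a newborn. -/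
noncomputable def edge : V L I → V L I → Option (ZMod 6)
  | nd _ P Q _ _ _ s t, M =>
      (if M = P then s else none).orElse fun _ => if M = Q then t else none
  | base _, _ => none

open Classical in
theorem edge_nd (md : Mode) (P Q : V L I) (i j : I) (l : L) (s t : Option (ZMod 6))
    (M : V L I) : edge (nd md P Q i j l s t) M =
    ((if M = P then s else none).orElse fun _ => if M = Q then t else none) := rfl

theorem edge_cases {md : Mode} {P Q : V L I} {i j : I} {l : L} {s t : Option (ZMod 6)}
    {M : V L I} {c : ZMod 6} (hc : edge (nd md P Q i j l s t) M = some c) :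
    (M = P ∧ s = some c) ∨ (M = Q ∧ t = some c) := by
  rw [edge_nd] at hc
  by_cases e1 : M = P
  · rw [if_pos e1] at hc
    cases hs : s with
    | some s₁ =>
      rw [hs] at hc
      left
      exact ⟨e1, by simpa using hc⟩
    | none =>
      rw [hs] at hc
      by_cases e2 : M = Q
      · rw [if_pos e2] at hc
        right
        exact ⟨e2, by simpa using hc⟩
      · rw [if_neg e2] at hc
        exact absurd hc (by simp)
  · rw [if_neg e1] at hc
    by_cases e2 : M = Q
    · rw [if_pos e2] at hc
      right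
      exact ⟨e2, by simpa using hc⟩
    · rw [if_neg e2] at hc
      exact absurd hc (by simp)

theorem edge_size {N M : V L I} {s : ZMod 6} (h : edge N M = some s) : size M < size N := by
  cases N with
  | base l => exact absurd h (by simp [edge])
  | nd md P Q i j l s' t =>
    rcases edge_cases h with ⟨h1, _⟩ | ⟨h1, _⟩
    · rw [h1]
      show _ < size P + size Q + 1
      omega
    · rw [h1]
      show _ < size P + size Q + 1
      omega

/-- The colour of two vertices. -/
noncomputable def col (N M : V L I) : ZMod 6 :=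
  (edge N M).getD ((edge M N).getD (D.C (mu D N M) (lab N) (lab M)))

theorem col_symm (N M : V L I) : col D N M = col D M N := by
  unfold col
  cases h1 : edge N M with
  | none =>
    cases h2 : edge M N with
    | none => rw [Option.getD_none, Option.getD_none, mu_symm, D.C_symm]; rfl
    | some k => rfl
  | some k =>
    cases h2 : edge M N with
    | none => rfl
    | some k' =>
      have := edge_size h1
      have := edge_size h2
      omega

theorem col_edge {N M : V L I} {s : ZMod 6} (h : edge N M = some s) : col D N M = s := by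
  unfold col
  rw [h]
  rfl

theorem col_edge' {N M : V L I} {s : ZMod 6} (h : edge M N = some s) : col D N M = s := by
  rw [col_symm]
  exact col_edge D h

theorem col_plain {N M : V L I} (h : edge N M = none) (h' : edge M N = none) :
    col D N M = D.C (mu D N M) (lab N) (lab M) := by
  unfold col
  rw [h, h']
  rfl

/-- The conditions of a mixed child. -/
def MC (P Q : V L I) (d : I × I × L × Option (ZMod 6) × Option (ZMod 6)) : Prop :=
  d.2.2.2.1 = some 4 ∧ d.2.2.2.2 = some 5 ∧
  D.X Fl.mE (mu D (nd Mode.mix P Q d.1 d.2.1 d.2.2.1 d.2.2.2.1 d.2.2.2.2) P) d.2.2.1 (lab P) 4 ∧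
  D.X Fl.mO (mu D (nd Mode.mix P Q d.1 d.2.1 d.2.2.1 d.2.2.2.1 d.2.2.2.2) Q) d.2.2.1 (lab Q) 5

open Classical in
/-- The chosen mixed child. -/
noncomputable def mch (P Q : V L I) : Option (I × I × L × Option (ZMod 6) × Option (ZMod 6)) :=
  if h : ∃ d, MC D P Q d then some h.choose else none

/-- The vertices used. -/
def Good : V L I → Prop
  | base _ => True
  | nd md P Q i j l s t => Good P ∧ Good Q ∧ P ≠ Q ∧
    (∀ c, s = some c → D.X (flP md) (mu D (nd md P Q i j l s t) P) l (lab P) c) ∧
    (∀ c, t = some c → D.X (flQ md) (mu D (nd md P Q i j l s t) Q) l (lab Q) c) ∧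
    (∀ c d, s = some c → t = some d → ok c d (col D P Q)) ∧
    (md = Mode.mix → mch D P Q = some (i, j, l, s, t))

/-- The kind of an exceptional edge. -/
theorem edge_kind {N M : V L I} {s : ZMod 6} (hN : Good D N) (h : edge N M = some s) :
    ∃ fl, D.X fl (mu D N M) (lab N) (lab M) s ∧
      (fl = Fl.mE → cls N = Cl.mx M) ∧
      (fl = Fl.mO → ∃ P d, N = nd Mode.mix P M d.1 d.2.1 d.2.2.1 d.2.2.2.1 d.2.2.2.2 ∧
        mch D P M = some d) := by
  cases N with
  | base l => exact absurd h (by simp [edge])
  | nd md P Q i j l s' t =>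
    obtain ⟨_, _, _, h1, h2, _, h4⟩ := hN
    rcases edge_cases h with ⟨rfl, h3⟩ | ⟨rfl, h3⟩
    · refine ⟨flP md, h1 _ h3, ?_, ?_⟩
      · intro e
        cases md with
        | tw => exact nomatch (show Fl.pl = Fl.mE from e)
        | own => exact nomatch (show Fl.pl = Fl.mE from e)
        | mix => rfl
      · intro e
        cases md with
        | tw => exact nomatch (show Fl.pl = Fl.mO from e)
        | own => exact nomatch (show Fl.pl = Fl.mO from e)
        | mix => exact nomatch (show Fl.mE = Fl.mO from e)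
    · refine ⟨flQ md, h2 _ h3, ?_, ?_⟩
      · intro e
        cases md with
        | tw => exact nomatch (show Fl.pl = Fl.mE from e)
        | own => exact nomatch (show Fl.pl = Fl.mE from e)
        | mix => exact nomatch (show Fl.mO = Fl.mE from e)
      · intro e
        cases md with
        | tw => exact nomatch (show Fl.pl = Fl.mO from e)
        | own => exact nomatch (show Fl.pl = Fl.mO from e)
        | mix => exact ⟨P, (i, j, l, s', t), rfl, h4 rfl⟩

/-- Two exceptional edges of one vertex. -/
theorem edge_two {N M K : V L I} {s t : ZMod 6} (hN : Good D N)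
    (h : edge N M = some s) (h' : edge N K = some t) (hne : M ≠ K) :
    ok s t (col D M K) := by
  cases N with
  | base l => exact absurd h (by simp [edge])
  | nd md P Q i j l s' t' =>
    obtain ⟨_, _, _, _, _, h3, _⟩ := hN
    rcases edge_cases h with ⟨a1, a2⟩ | ⟨a1, a2⟩
    · rcases edge_cases h' with ⟨b1, b2⟩ | ⟨b1, b2⟩
      · exact absurd (a1.trans b1.symm) hne
      · have := h3 _ _ a2 b2
        rw [a1, b1]
        exact this
    · rcases edge_cases h' with ⟨b1, b2⟩ | ⟨b1, b2⟩
      · have := h3 _ _ b2 a2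
        rw [a1, b1, col_symm]
        exact ok12 this
      · exact absurd (a1.trans b1.symm) hne

/-- One exceptional edge. -/
theorem tri_one {N M : V L I} {s : ZMod 6} (hN : Good D N) (hNM : edge N M = some s)
    (K : V L I) : ok s (D.C (mu D N K) (lab N) (lab K)) (D.C (mu D M K) (lab M) (lab K)) := by
  obtain ⟨fl, hX, _⟩ := edge_kind D hN hNM
  exact D.XA _ _ _ _ _ hX _ _ (comp D N M K) _

/-- Two newborns with exceptional edges to one vertex. -/
theorem tri_heads {N M K : V L I} {s t : ZMod 6} (hN : Good D N) (hK : Good D K) (hNK : N ≠ K)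
    (hNM : edge N M = some s) (hKM : edge K M = some t) :
    ok s t (D.C (mu D N K) (lab N) (lab K)) := by
  obtain ⟨fl, hX, he, ho⟩ := edge_kind D hN hNM
  obtain ⟨fl', hX', he', ho'⟩ := edge_kind D hK hKM
  refine D.XB _ _ _ _ _ _ _ _ _ hX hX' _ ?_ ?_ ?_
  · have := comp D N M K
    rw [mu_symm D M K] at this
    exact this
  · intro e e'
    exact mu_same D ((he e).trans (he' e').symm)
  · intro e e' hmu
    apply hNK
    obtain ⟨P, d, h1, h2⟩ := ho e
    obtain ⟨P', d', h1', h2'⟩ := ho' e'
    have hc := mu_eq_none D hmu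
    rw [h1, h1'] at hc
    have hP : P = P' := by
      have hc' : (Cl.mx P : Cl L I) = Cl.mx P' := hc
      exact Cl.mx.inj hc'
    subst hP
    rw [h2] at h2'
    have hd : d = d' := Option.some.inj h2'
    rw [h1, h1', hd]

/-- The status of a pair. -/
theorem status (N M : V L I) :
    (edge N M = none ∧ edge M N = none) ∨ (∃ s, edge N M = some s) ∨
      (∃ s, edge M N = some s) := by
  cases h1 : edge N M with
  | some s => exact Or.inr (Or.inl ⟨s, rfl⟩)
  | none =>
    cases h2 : edge M N with
    | some s => exact Or.inr (Or.inr ⟨s, rfl⟩)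
    | none => exact Or.inl ⟨rfl, rfl⟩

theorem src {N M K : V L I} {s t : ZMod 6} (hN : Good D N)
    (h : edge N M = some s) (h' : edge N K = some t) (hne : M ≠ K) :
    ok (col D N M) (col D M K) (col D N K) := by
  rw [col_edge D h, col_edge D h']
  exact ok23 (edge_two D hN h h' hne)

theorem heads {N M K : V L I} {s t : ZMod 6} (hN : Good D N) (hK : Good D K)
    (hNK : N ≠ K) (hMK : M ≠ K) (hMN : N ≠ M)
    (h : edge N M = some s) (h' : edge K M = some t) :
    ok (col D N M) (col D M K) (col D N K) := by
  rcases status N K with ⟨a1, a2⟩ | ⟨c, a1⟩ | ⟨c, a1⟩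
  · rw [col_edge D h, col_symm D M, col_edge D h', col_plain D a1 a2]
    exact tri_heads D hN hK hNK h h'
  · exact src D hN h a1 hMK
  · have := src D hK h' a1 hMN.symm
    rw [col_symm D K M, col_symm D M N, col_symm D K N] at this
    exact ok12 this

theorem chain {N M K : V L I} {s t : ZMod 6} (hN : Good D N) (hM : Good D M) (hMK : M ≠ K)
    (h : edge N M = some s) (h' : edge M K = some t) :
    ok (col D N M) (col D M K) (col D N K) := by
  rcases status N K with ⟨a1, a2⟩ | ⟨c, a1⟩ | ⟨c, a1⟩
  · rw [col_edge D h, col_edge D h', col_plain D a1 a2]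
    obtain ⟨fl, hX, _⟩ := edge_kind D hN h
    obtain ⟨fl', hX', _⟩ := edge_kind D hM h'
    exact D.XC _ _ _ _ _ _ _ _ _ hX hX' _ (comp D N M K)
  · exact src D hN h a1 hMK
  · have e1 := edge_size h
    have e2 := edge_size h'
    have e3 := edge_size a1
    omega

theorem tri3 {N M K : V L I} (hN : Good D N) (hM : Good D M) (hK : Good D K)
    (hNM : N ≠ M) (hMK : M ≠ K) (hNK : N ≠ K) :
    ok (col D N M) (col D M K) (col D N K) := by
  have P1 : ok (col D M N) (col D N K) (col D M K) →
      ok (col D N M) (col D M K) (col D N K) := by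
    intro h
    rw [col_symm D M N] at h
    exact ok23 h
  have P2 : ok (col D K M) (col D M N) (col D K N) →
      ok (col D N M) (col D M K) (col D N K) := by
    intro h
    rw [col_symm D K M, col_symm D M N, col_symm D K N] at h
    exact ok12 h
  have P3 : ok (col D N K) (col D K M) (col D N M) →
      ok (col D N M) (col D M K) (col D N K) := by
    intro h
    rw [col_symm D K M] at h
    exact ok13 h
  have P4 : ok (col D M K) (col D K N) (col D M N) →
      ok (col D N M) (col D M K) (col D N K) := by
    intro h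
    rw [col_symm D K N, col_symm D M N] at h
    exact okrot' h
  have P5 : ok (col D K N) (col D N M) (col D K M) →
      ok (col D N M) (col D M K) (col D N K) := by
    intro h
    rw [col_symm D K N, col_symm D K M] at h
    exact okrot h
  rcases status N M with ⟨a1, a2⟩ | ⟨s, a⟩ | ⟨s, a⟩
  · rcases status M K with ⟨b1, b2⟩ | ⟨t, b⟩ | ⟨t, b⟩
    · rcases status N K with ⟨c1, c2⟩ | ⟨u, c⟩ | ⟨u, c⟩
      · rw [col_plain D a1 a2, col_plain D b1 b2, col_plain D c1 c2]
        exact D.F3 _ _ _ (comp D N M K) _ _ _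
      · rw [col_plain D a1 a2, col_plain D b1 b2, col_edge D c, mu_symm D M K,
          D.C_symm _ (lab M) (lab K)]
        have := tri_one D hN c M
        first | exact okrot this | exact okrot' this | exact ok13 this
      · rw [col_plain D a1 a2, col_plain D b1 b2, col_edge' D c, mu_symm D M K,
          D.C_symm _ (lab M) (lab K)]
        have := tri_one D hK c M
        first | exact okrot this | exact okrot' this | exact ok13 this
    · rcases status N K with ⟨c1, c2⟩ | ⟨u, c⟩ | ⟨u, c⟩
      · rw [col_plain D a1 a2, col_edge D b, col_plain D c1 c2, mu_symm D N M,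
          D.C_symm _ (lab N) (lab M), mu_symm D N K, D.C_symm _ (lab N) (lab K)]
        exact ok12 (tri_one D hM b N)
      · exact P3 (heads D hN hM hNM hMK.symm hNK c b)
      · exact P4 (chain D hM hK hNK.symm b c)
    · rcases status N K with ⟨c1, c2⟩ | ⟨u, c⟩ | ⟨u, c⟩
      · rw [col_plain D a1 a2, col_edge' D b, col_plain D c1 c2, mu_symm D N M,
          D.C_symm _ (lab N) (lab M), mu_symm D N K, D.C_symm _ (lab N) (lab K)]
        have := tri_one D hK b N
        first | exact okrot this | exact okrot' this | exact ok13 this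
      · exact P3 (chain D hN hK hMK.symm c b)
      · exact P2 (src D hK b c hNM.symm)
  · rcases status M K with ⟨b1, b2⟩ | ⟨t, b⟩ | ⟨t, b⟩
    · rcases status N K with ⟨c1, c2⟩ | ⟨u, c⟩ | ⟨u, c⟩
      · rw [col_edge D a, col_plain D b1 b2, col_plain D c1 c2]
        exact ok23 (tri_one D hN a K)
      · exact src D hN a c hMK
      · exact P5 (chain D hK hN hNM c a)
    · exact chain D hN hM hMK a b
    · exact heads D hN hK hNK hMK hNM a b
  · rcases status M K with ⟨b1, b2⟩ | ⟨t, b⟩ | ⟨t, b⟩
    · rcases status N K with ⟨c1, c2⟩ | ⟨u, c⟩ | ⟨u, c⟩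
      · rw [col_edge' D a, col_plain D b1 b2, col_plain D c1 c2]
        exact tri_one D hM a K
      · exact P1 (chain D hM hN hNK a c)
      · exact P1 (heads D hM hK hMK hNK hNM.symm a c)
    · exact P1 (src D hM a b hNK)
    · exact P2 (chain D hK hM hNM.symm b a)

/-! ### Requests -/

/-- A colour that occurs between labels `p, q` joined by the index `κ`. -/
def Poss (κ : Option I) (p q : L) (c : ZMod 6) : Prop :=
  c = D.C κ p q ∨ (∃ fl, D.X fl κ p q c) ∨ ∃ fl, D.X fl κ q p c

/-- A newborn with label `l` can see `p` by `a`. -/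
def End (κ : Option I) (l p : L) (a : ZMod 6) : Prop :=
  D.C κ l p = a ∨ D.X Fl.pl κ l p a

/-- The request `(a, b)` at the labels `p, q` joined by `κ` has a server. -/
def Served (κ : Option I) (p q : L) (a b : ZMod 6) : Prop :=
  (∃ l, End D none l p a ∧ End D κ l q b) ∨
  (∃ l, End D none l q b ∧ End D κ l p a) ∨
  (∃ l i j, (κ = none → i = j) ∧ End D (some i) l p a ∧ End D (some j) l q b) ∨
  (a = 4 ∧ b = 5 ∧ ∀ κ', ∃ l, D.X Fl.mE (some D.iK) l p 4 ∧ D.X Fl.mO κ' l q 5) ∨
  (a = 5 ∧ b = 4 ∧ ∀ κ', ∃ l, D.X Fl.mE (some D.iK) l q 4 ∧ D.X Fl.mO κ' l p 5)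

/-- All requests have servers. -/
def ReqOK : Prop := ∀ κ p q c, Poss D κ p q c → ∀ a b, ok c a b → Served D κ p q a b

theorem poss_col {N M : V L I} (hN : Good D N) (hM : Good D M) :
    Poss D (mu D N M) (lab N) (lab M) (col D N M) := by
  rcases status N M with ⟨a1, a2⟩ | ⟨s, a⟩ | ⟨s, a⟩
  · left
    exact col_plain D a1 a2
  · right; left
    obtain ⟨fl, hX, _⟩ := edge_kind D hN a
    rw [col_edge D a]
    exact ⟨fl, hX⟩
  · right; right
    obtain ⟨fl, hX, _⟩ := edge_kind D hM a
    rw [col_edge' D a, mu_symm]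
    exact ⟨fl, hX⟩

/-- The optional exceptional colour of an end. -/
theorem end_opt {κ : Option I} {l p : L} {a : ZMod 6} (h : End D κ l p a) :
    ∃ s : Option (ZMod 6), s.getD (D.C κ l p) = a ∧ ∀ c, s = some c → D.X Fl.pl κ l p c ∧ c = a := by
  rcases h with h | h
  · exact ⟨none, h, fun c hc => absurd hc (by simp)⟩
  · refine ⟨some a, rfl, fun c hc => ?_⟩
    have : a = c := by simpa using hc
    subst this
    exact ⟨h, rfl⟩

/-- The colours of a newborn. -/
theorem col_P {md : Mode} {P Q : V L I} {i j : I} {l : L} {s t : Option (ZMod 6)}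
    (hPQ : P ≠ Q) : col D (nd md P Q i j l s t) P =
      s.getD (D.C (mu D (nd md P Q i j l s t) P) l (lab P)) := by
  have h0 : edge P (nd md P Q i j l s t) = none := by
    cases h : edge P (nd md P Q i j l s t) with
    | none => rfl
    | some c =>
      have h1 := edge_size h
      have h2 : size (nd md P Q i j l s t) = size P + size Q + 1 := rfl
      omega
  have h1 : edge (nd md P Q i j l s t) P = s := by
    rw [edge_nd, if_pos rfl, if_neg hPQ]
    cases s <;> rfl
  unfold col
  rw [h0, h1]
  rfl

theorem col_Q {md : Mode} {P Q : V L I} {i j : I} {l : L} {s t : Option (ZMod 6)}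
    (hPQ : P ≠ Q) : col D (nd md P Q i j l s t) Q =
      t.getD (D.C (mu D (nd md P Q i j l s t) Q) l (lab Q)) := by
  have h0 : edge Q (nd md P Q i j l s t) = none := by
    cases h : edge Q (nd md P Q i j l s t) with
    | none => rfl
    | some c =>
      have h1 := edge_size h
      have h2 : size (nd md P Q i j l s t) = size P + size Q + 1 := rfl
      omega
  have h1 : edge (nd md P Q i j l s t) Q = t := by
    rw [edge_nd, if_neg (Ne.symm hPQ), if_pos rfl]
    rfl
  unfold col
  rw [h0, h1]
  rfl

theorem mu_tw_P {P Q : V L I} {i j : I} {l : L} {s t : Option (ZMod 6)} :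
    mu D (nd Mode.tw P Q i j l s t) P = none := mu_same D rfl

theorem mu_tw_Q {P Q : V L I} {i j : I} {l : L} {s t : Option (ZMod 6)} :
    mu D (nd Mode.tw P Q i j l s t) Q = mu D P Q := rfl

theorem mu_own_P {P Q : V L I} {i j : I} {l : L} {s t : Option (ZMod 6)} :
    mu D (nd Mode.own P Q i j l s t) P = some i := by
  show mu0 D (Cl.own (nd Mode.own P Q i j l s t)) (cls P) = some i
  have hne : (Cl.own (nd Mode.own P Q i j l s t) : Cl L I) ≠ cls P := by
    intro e
    have h1 := csize_cls P
    rw [← e] at h1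
    have h2 : size P + size Q + 1 ≤ size P := h1
    omega
  unfold mu0
  rw [if_neg hne, ref_own, if_pos rfl]
  rfl

theorem mu_own_Q {P Q : V L I} {i j : I} {l : L} {s t : Option (ZMod 6)}
    (hij : mu D P Q = none → i = j) :
    mu D (nd Mode.own P Q i j l s t) Q = some j := by
  show mu0 D (Cl.own (nd Mode.own P Q i j l s t)) (cls Q) = some j
  have hne : (Cl.own (nd Mode.own P Q i j l s t) : Cl L I) ≠ cls Q := by
    intro e
    have h1 := csize_cls Q
    rw [← e] at h1
    have h2 : size P + size Q + 1 ≤ size Q := h1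
    omega
  unfold mu0
  rw [if_neg hne, ref_own]
  by_cases h : cls P = cls Q
  · rw [if_pos h, hij (mu_same D h)]
    rfl
  · rw [if_neg h, if_pos rfl]
    rfl

theorem mu_mix_P {P Q : V L I} {i j : I} {l : L} {s t : Option (ZMod 6)} :
    mu D (nd Mode.mix P Q i j l s t) P = some D.iK := by
  show mu0 D (Cl.mx P) (cls P) = some D.iK
  have hne : (Cl.mx P : Cl L I) ≠ cls P := by
    intro e
    have h1 := csize_cls P
    rw [← e] at h1
    have h2 : size P + 1 ≤ size P := h1
    omega
  unfold mu0
  rw [if_neg hne, ref_mx, if_pos rfl]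
  rfl

theorem size_ne {md : Mode} {P Q : V L I} {i j : I} {l : L} {s t : Option (ZMod 6)} :
    nd md P Q i j l s t ≠ P ∧ nd md P Q i j l s t ≠ Q := by
  constructor
  · intro e
    have := congrArg size e
    have h2 : size (nd md P Q i j l s t) = size P + size Q + 1 := rfl
    omega
  · intro e
    have := congrArg size e
    have h2 : size (nd md P Q i j l s t) = size P + size Q + 1 := rfl
    omega

/-- A server gives a newborn vertex. -/
theorem serve_plain {P Q : V L I} (hP : Good D P) (hQ : Good D Q) (hPQ : P ≠ Q)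
    {md : Mode} (hmd : md ≠ Mode.mix) {i j : I} {l : L} {s t : Option (ZMod 6)} {a b : ZMod 6}
    (hab : ok (col D P Q) a b)
    (h1 : s.getD (D.C (mu D (nd md P Q i j l s t) P) l (lab P)) = a)
    (h2 : t.getD (D.C (mu D (nd md P Q i j l s t) Q) l (lab Q)) = b)
    (h3 : ∀ c, s = some c → D.X Fl.pl (mu D (nd md P Q i j l s t) P) l (lab P) c ∧ c = a)
    (h4 : ∀ c, t = some c → D.X Fl.pl (mu D (nd md P Q i j l s t) Q) l (lab Q) c ∧ c = b) :
    ∃ N, Good D N ∧ N ≠ P ∧ N ≠ Q ∧ col D P N = a ∧ col D N Q = b := by
  have e1 : flP md = Fl.pl := by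
    cases md with
    | tw => rfl
    | own => rfl
    | mix => exact absurd rfl hmd
  have e2 : flQ md = Fl.pl := by
    cases md with
    | tw => rfl
    | own => rfl
    | mix => exact absurd rfl hmd
  refine ⟨nd md P Q i j l s t, ⟨hP, hQ, hPQ, ?_, ?_, ?_, fun h => absurd h hmd⟩, size_ne.1,
    size_ne.2, ?_, ?_⟩
  · intro c hc
    rw [e1]
    exact (h3 c hc).1
  · intro c hc
    rw [e2]
    exact (h4 c hc).1
  · intro c d hc hd
    rw [(h3 c hc).2, (h4 d hd).2]
    exact okrot hab
  · rw [col_symm, col_P D hPQ]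
    exact h1
  · rw [col_Q D hPQ]
    exact h2

/-- A mixed newborn. -/
theorem serve_mix {P Q : V L I} (hP : Good D P) (hQ : Good D Q) (hPQ : P ≠ Q)
    (h : ∀ κ', ∃ l, D.X Fl.mE (some D.iK) l (lab P) 4 ∧ D.X Fl.mO κ' l (lab Q) 5) :
    ∃ N, Good D N ∧ N ≠ P ∧ N ≠ Q ∧ col D P N = 4 ∧ col D N Q = 5 := by
  have hex : ∃ d, MC D P Q d := by
    obtain ⟨l, h1, h2⟩ := h (mu0 D (Cl.mx P) (cls Q))
    refine ⟨(D.i1, D.i1, l, some 4, some 5), rfl, rfl, ?_, h2⟩
    rw [mu_mix_P]
    exact h1
  obtain ⟨⟨i, j, l, s, t⟩, hd, hM⟩ : ∃ d, mch D P Q = some d ∧ MC D P Q d := by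
    refine ⟨hex.choose, ?_, hex.choose_spec⟩
    unfold mch
    rw [dif_pos hex]
  obtain ⟨h1, h2, h3, h4⟩ := hM
  have h1' : s = some 4 := h1
  have h2' : t = some 5 := h2
  subst h1'
  subst h2'
  have h3' : D.X Fl.mE (mu D (nd Mode.mix P Q i j l (some 4) (some 5)) P) l (lab P) 4 := h3
  have h4' : D.X Fl.mO (mu D (nd Mode.mix P Q i j l (some 4) (some 5)) Q) l (lab Q) 5 := h4
  refine ⟨nd Mode.mix P Q i j l (some 4) (some 5), ⟨hP, hQ, hPQ, ?_, ?_, ?_, fun _ => hd⟩,
    size_ne.1, size_ne.2, ?_, ?_⟩
  · intro c hc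
    have : (4 : ZMod 6) = c := Option.some.inj hc
    subst this
    exact h3'
  · intro c hc
    have : (5 : ZMod 6) = c := Option.some.inj hc
    subst this
    exact h4'
  · intro c d hc hd'
    have e1 : (4 : ZMod 6) = c := Option.some.inj hc
    have e2 : (5 : ZMod 6) = d := Option.some.inj hd'
    subst e1
    subst e2
    have key : ∀ e : ZMod 6, ¬ Forbidden 4 5 e := by decide
    exact key _
  · rw [col_symm, col_P D hPQ]
    rfl
  · rw [col_Q D hPQ]
    rfl

/-- **Main theorem.** Static finite conditions give a representation. -/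
theorem rep (hR : ReqOK D) (l₀ l₁ : L) (hl : l₀ ≠ l₁) :
    ∃ (U : Type) (r : Set Atom → Set (U × U)), Nonempty U ∧ IsRepresentation U r := by
  have hw : ∀ P Q : V L I, Good D P → Good D Q → P ≠ Q → ∀ a b, ok (col D P Q) a b →
      ∃ N, Good D N ∧ N ≠ P ∧ N ≠ Q ∧ col D P N = a ∧ col D N Q = b := by
    intro P Q hP hQ hPQ a b hab
    have hQP : ok (col D Q P) b a := by
      rw [col_symm]
      exact ok23 hab
    rcases hR _ _ _ _ (poss_col D hP hQ) a b hab with
      ⟨l, h1, h2⟩ | ⟨l, h1, h2⟩ | ⟨l, i, j, hij, h1, h2⟩ | ⟨ha, hb, h⟩ | ⟨ha, hb, h⟩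
    · obtain ⟨s, s1, s2⟩ := end_opt D h1
      obtain ⟨t, t1, t2⟩ := end_opt D h2
      exact serve_plain D hP hQ hPQ (md := Mode.tw) (i := D.i1) (j := D.i1) (l := l) (s := s)
        (t := t) (by intro h; cases h) hab (by rw [mu_tw_P]; exact s1)
        (by rw [mu_tw_Q]; exact t1) (by rw [mu_tw_P]; exact s2) (by rw [mu_tw_Q]; exact t2)
    · obtain ⟨s, s1, s2⟩ := end_opt D h1
      obtain ⟨t, t1, t2⟩ := end_opt D h2
      rw [mu_symm D P Q] at t1 t2
      obtain ⟨N, g1, g2, g3, g4, g5⟩ := serve_plain D hQ hP (Ne.symm hPQ) (md := Mode.tw)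
        (i := D.i1) (j := D.i1) (l := l) (s := s) (t := t) (by intro h; cases h) hQP
        (by rw [mu_tw_P]; exact s1) (by rw [mu_tw_Q]; exact t1) (by rw [mu_tw_P]; exact s2)
        (by rw [mu_tw_Q]; exact t2)
      exact ⟨N, g1, g3, g2, by rw [col_symm]; exact g5, by rw [col_symm]; exact g4⟩
    · obtain ⟨s, s1, s2⟩ := end_opt D h1
      obtain ⟨t, t1, t2⟩ := end_opt D h2
      exact serve_plain D hP hQ hPQ (md := Mode.own) (i := i) (j := j) (l := l) (s := s)
        (t := t) (by intro h; cases h) hab (by rw [mu_own_P]; exact s1)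
        (by rw [mu_own_Q D hij]; exact t1) (by rw [mu_own_P]; exact s2)
        (by rw [mu_own_Q D hij]; exact t2)
    · subst ha
      subst hb
      exact serve_mix D hP hQ hPQ h
    · subst ha
      subst hb
      obtain ⟨N, g1, g2, g3, g4, g5⟩ := serve_mix D hQ hP (Ne.symm hPQ) h
      exact ⟨N, g1, g3, g2, by rw [col_symm]; exact g5, by rw [col_symm]; exact g4⟩
  refine ⟨{N : V L I // Good D N}, ?_⟩
  have h : IsColouring (fun u v : {N : V L I // Good D N} => col D u.1 v.1) :=
    { nontriv := ⟨⟨base l₀, trivial⟩, ⟨base l₁, trivial⟩, fun e => hl (by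
        have := congrArg (fun v => lab v.1) e
        exact this)⟩
      symm := fun u v _ => col_symm D _ _
      no_forb := fun u v w h1 h2 h3 => tri3 D u.2 v.2 w.2 (fun e => h1 (Subtype.ext e))
        (fun e => h2 (Subtype.ext e)) (fun e => h3 (Subtype.ext e))
      witness := by
        intro u v huv s t hf
        obtain ⟨N, g1, g2, g3, g4, g5⟩ := hw u.1 v.1 u.2 v.2 (fun e => huv (Subtype.ext e)) s t hf
        exact ⟨⟨N, g1⟩, fun e => g2 (congrArg Subtype.val e), fun e => g3 (congrArg Subtype.val e),
          g4, g5⟩ }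
  obtain ⟨r, hr⟩ := rep_of_colouring h
  exact ⟨r, ⟨⟨base l₀, trivial⟩⟩, hr⟩

end Pool.Agent.CRQ.Blob
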