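import Pool.Agent.RA6.Defs99

/-!
The label-blob world for MP_cf0286_al, general form: vertices carry a label and a class. Two
vertices see each other by a matrix of labels whose index depends on the two classes, except for
exceptional edges from a newer vertex to the two vertices it was made for and to their partners.
-/

namespace Pool.Agent.CRQ.Blob8

open Pool.Agent.RA6

/-- An allowed triangle. -/
def ok (a b c : ZMod 6) : Prop := ¬ Forbidden a b c

theorem ok12 {a b c : ZMod 6} (h : ok a b c) : ok b a c := fun h' => h (forb_swap12 _ _ _ h')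
theorem ok23 {a b c : ZMod 6} (h : ok a b c) : ok a c b := fun h' => h (forb_swap23 _ _ _ h')
theorem ok13 {a b c : ZMod 6} (h : ok a b c) : ok c b a := ok12 (ok23 (ok12 h))
theorem okrot {a b c : ZMod 6} (h : ok a b c) : ok b c a := ok23 (ok12 h)
theorem okrot' {a b c : ZMod 6} (h : ok a b c) : ok c a b := ok12 (ok23 h)

/-- The mode of a newborn vertex: in the class of `P`, in a new class, in the class of the mixed
children of `P`. -/
inductive Mode
  | tw
  | own
  | mix

/-- Possible indices `κ` of `1, 2`, `κ'` of `2, 3`, `κ''` of `1, 3` of three classes; `none` is the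
index of two vertices of one class. -/
def Comp {I : Type} (κ κ' κ'' : Option I) : Prop :=
  (κ = none → κ'' = κ') ∧ (κ' = none → κ'' = κ) ∧ (κ'' = none → κ = κ')

/-- The static data. The exceptional types `X md a κ z x s`: a newborn of mode `md` and label `z` may
see its target number `a` (`0, 1` the vertices `P, Q` it is made for, `2, 3` the partners of `P`,
`4, 5` the partners of `Q`) of label `x`, joined by the index `κ`, by the colour `s`. -/
structure Data (L I : Type) where
  C : Option I → L → L → ZMod 6
  i1 : I
  iK : I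
  X : Mode → Fin 6 → Option I → L → L → ZMod 6 → Prop
  C_symm : ∀ κ p q, C κ p q = C κ q p
  F3 : ∀ κ κ' κ'', Comp κ κ' κ'' → ∀ p q r, ok (C κ p q) (C κ' q r) (C κ'' p r)
  XA : ∀ md a κ z x s, X md a κ z x s → ∀ κ' κ'', Comp κ κ' κ'' → ∀ r,
    ok s (C κ'' z r) (C κ' x r)
  XB : ∀ md a md' a' κ κ' z z' x s s', X md a κ z x s → X md' a' κ' z' x s' → ∀ κ'',
    Comp κ κ' κ'' →
    (md = Mode.mix → a = 0 → md' = Mode.mix → a' = 0 → κ'' = none) →
    (md = Mode.mix → a = 1 → md' = Mode.mix → a' = 1 → κ'' ≠ none) →
    ok s s' (C κ'' z z')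

/-- Vertices. -/
inductive V (L I : Type) : Type
  | base (l : L) : V L I
  | nd (md : Mode) (P Q : V L I) (i j : I) (l : L) (ex : Fin 6 → Option (ZMod 6)) : V L I

/-- Names of classes. -/
inductive Cl (L I : Type) : Type
  | b : Cl L I
  | own (v : V L I) : Cl L I
  | mx (v : V L I) : Cl L I

namespace V

variable {L I : Type}

def size : V L I → ℕ
  | base _ => 0
  | nd _ P Q _ _ _ _ => size P + size Q + 1

def lab : V L I → L
  | base l => l
  | nd _ _ _ _ _ l _ => l

/-- The partners. -/
def fst : V L I → V L I
  | base l => base l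
  | nd _ P _ _ _ _ _ => P

def snd : V L I → V L I
  | base l => base l
  | nd _ _ Q _ _ _ _ => Q

theorem size_fst : ∀ N : V L I, size (fst N) ≤ size N
  | base _ => le_refl _
  | nd md P Q i j l ex => by
    show size P ≤ size P + size Q + 1
    omega

theorem size_snd : ∀ N : V L I, size (snd N) ≤ size N
  | base _ => le_refl _
  | nd md P Q i j l ex => by
    show size Q ≤ size P + size Q + 1
    omega

/-- The targets of the exceptional edges of a vertex made for `P, Q`. -/
def tgt (P Q : V L I) (a : Fin 6) : V L I :=
  if a = 0 then P else if a = 1 then Q else if a = 2 then fst P else if a = 3 then snd P else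
    if a = 4 then fst Q else snd Q

theorem size_tgt (P Q : V L I) (a : Fin 6) : size (tgt P Q a) ≤ size P + size Q := by
  have h1 := size_fst P
  have h2 := size_snd P
  have h3 := size_fst Q
  have h4 := size_snd Q
  unfold tgt
  split_ifs <;> omega

/-- The class. -/
def cls : V L I → Cl L I
  | base _ => Cl.b
  | nd Mode.tw P _ _ _ _ _ => cls P
  | nd Mode.own P Q i j l ex => Cl.own (nd Mode.own P Q i j l ex)
  | nd Mode.mix P _ _ _ _ _ => Cl.mx P

def csize : Cl L I → ℕ
  | Cl.b => 0
  | Cl.own v => size v
  | Cl.mx v => size v + 1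

theorem csize_cls : ∀ N : V L I, csize (cls N) ≤ size N
  | base _ => le_refl _
  | nd Mode.tw P Q i j l ex => by
    have := csize_cls P
    show csize (cls P) ≤ size P + size Q + 1
    omega
  | nd Mode.own P Q i j l ex => le_refl _
  | nd Mode.mix P Q i j l ex => by
    show size P + 1 ≤ size P + size Q + 1
    omega

end V

open V

variable {L I : Type} (D : Data L I)

open Classical in
/-- The index by which the class `A` refers to the older class `M`. -/
noncomputable def ref : Cl L I → Cl L I → Option I
  | Cl.own (nd _ P Q i j _ _), M =>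
      if cls P = M then some i else if cls Q = M then some j else none
  | Cl.own (base _), _ => none
  | Cl.mx P, M => if cls P = M then some D.iK else none
  | Cl.b, _ => none

open Classical in
theorem ref_own (md : Mode) (P Q : V L I) (i j : I) (l : L) (ex : Fin 6 → Option (ZMod 6))
    (M : Cl L I) : ref D (Cl.own (nd md P Q i j l ex)) M =
      if cls P = M then some i else if cls Q = M then some j else none := rfl

open Classical in
theorem ref_mx (P : V L I) (M : Cl L I) : ref D (Cl.mx P) M =
    if cls P = M then some D.iK else none := rfl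

theorem ref_size {A M : Cl L I} {k : I} (h : ref D A M = some k) : csize M < csize A := by
  cases A with
  | b => exact absurd h (by simp [ref])
  | own v =>
    cases v with
    | base l => exact absurd h (by simp [ref])
    | nd md P Q i j l ex =>
      rw [ref_own] at h
      have h1 := csize_cls P
      have h2 := csize_cls Q
      by_cases e1 : cls P = M
      · rw [← e1]
        show _ < size P + size Q + 1
        omega
      · rw [if_neg e1] at h
        by_cases e2 : cls Q = M
        · rw [← e2]
          show _ < size P + size Q + 1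
          omega
        · rw [if_neg e2] at h
          exact absurd h (by simp)
  | mx P =>
    rw [ref_mx] at h
    have h1 := csize_cls P
    by_cases e1 : cls P = M
    · rw [← e1]
      show _ < size P + 1
      omega
    · rw [if_neg e1] at h
      exact absurd h (by simp)

open Classical in
/-- The index of two classes. -/
noncomputable def mu0 (A M : Cl L I) : Option I :=
  if A = M then none else some ((ref D A M).getD ((ref D M A).getD D.i1))

/-- The index of two vertices. -/
noncomputable def mu (N M : V L I) : Option I := mu0 D (cls N) (cls M)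

theorem mu0_symm (A M : Cl L I) : mu0 D A M = mu0 D M A := by
  unfold mu0
  by_cases h : A = M
  · rw [if_pos h, if_pos h.symm]
  · rw [if_neg h, if_neg (Ne.symm h)]
    cases h1 : ref D A M with
    | none =>
      cases h2 : ref D M A with
      | none => rfl
      | some k => rfl
    | some k =>
      cases h2 : ref D M A with
      | none => rfl
      | some k' =>
        have := ref_size D h1
        have := ref_size D h2
        omega

theorem mu_symm (N M : V L I) : mu D N M = mu D M N := mu0_symm D _ _

theorem mu_same {N M : V L I} (h : cls N = cls M) : mu D N M = none := by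
  unfold mu mu0
  rw [if_pos h]

theorem mu_eq_none {N M : V L I} (h : mu D N M = none) : cls N = cls M := by
  unfold mu mu0 at h
  by_contra hne
  rw [if_neg hne] at h
  exact absurd h (by simp)

theorem mu_congr {N M K : V L I} (h : cls N = cls M) : mu D N K = mu D M K := by
  unfold mu
  rw [h]

theorem comp (N M K : V L I) : Comp (mu D N M) (mu D M K) (mu D N K) := by
  refine ⟨?_, ?_, ?_⟩
  · intro h
    exact mu_congr D (mu_eq_none D h)
  · intro h
    rw [mu_symm D N K, mu_symm D N M]
    exact (mu_congr D (mu_eq_none D h)).symm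
  · intro h
    rw [mu_congr D (mu_eq_none D h), mu_symm]

open Classical in
/-- The exceptional edges of a newborn. -/
noncomputable def edge : V L I → V L I → Option (ZMod 6)
  | nd _ P Q _ _ _ ex, M =>
      if h : ∃ a, tgt P Q a = M ∧ (ex a).isSome = true then ex h.choose else none
  | base _, _ => none

open Classical in
theorem edge_nd (md : Mode) (P Q : V L I) (i j : I) (l : L) (ex : Fin 6 → Option (ZMod 6))
    (M : V L I) : edge (nd md P Q i j l ex) M =
    (if h : ∃ a, tgt P Q a = M ∧ (ex a).isSome = true then ex h.choose else none) := rfl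

theorem edge_cases {md : Mode} {P Q : V L I} {i j : I} {l : L} {ex : Fin 6 → Option (ZMod 6)}
    {M : V L I} {c : ZMod 6} (hc : edge (nd md P Q i j l ex) M = some c) :
    ∃ a, tgt P Q a = M ∧ ex a = some c := by
  rw [edge_nd] at hc
  by_cases h : ∃ a, tgt P Q a = M ∧ (ex a).isSome = true
  · rw [dif_pos h] at hc
    exact ⟨h.choose, h.choose_spec.1, hc⟩
  · rw [dif_neg h] at hc
    exact absurd hc (by simp)

/-- If all exceptional colours at a target agree, the edge has this colour. -/
theorem edge_eq {md : Mode} {P Q : V L I} {i j : I} {l : L} {ex : Fin 6 → Option (ZMod 6)}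
    {M : V L I} {c : ZMod 6} {a : Fin 6} (ha : tgt P Q a = M) (hc : ex a = some c)
    (hu : ∀ a' c', tgt P Q a' = M → ex a' = some c' → c' = c) :
    edge (nd md P Q i j l ex) M = some c := by
  have h : ∃ a, tgt P Q a = M ∧ (ex a).isSome = true := ⟨a, ha, by rw [hc]; rfl⟩
  rw [edge_nd, dif_pos h]
  obtain ⟨c', hc'⟩ := Option.isSome_iff_exists.mp h.choose_spec.2
  rw [hc', hu _ _ h.choose_spec.1 hc']

theorem edge_none {md : Mode} {P Q : V L I} {i j : I} {l : L} {ex : Fin 6 → Option (ZMod 6)}
    {M : V L I} (hu : ∀ a, tgt P Q a = M → ex a = none) :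
    edge (nd md P Q i j l ex) M = none := by
  rw [edge_nd, dif_neg]
  rintro ⟨a, h1, h2⟩
  rw [hu a h1] at h2
  exact absurd h2 (by decide)

theorem edge_size {N M : V L I} {s : ZMod 6} (h : edge N M = some s) : size M < size N := by
  cases N with
  | base l => exact absurd h (by simp [edge])
  | nd md P Q i j l ex =>
    obtain ⟨a, h1, _⟩ := edge_cases h
    have := size_tgt P Q a
    rw [h1] at this
    show _ < size P + size Q + 1
    omega

/-- The colour of two vertices. -/
noncomputable def col (N M : V L I) : ZMod 6 :=
  (edge N M).getD ((edge M N).getD (D.C (mu D N M) (lab N) (lab M)))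

theorem col_symm (N M : V L I) : col D N M = col D M N := by
  unfold col
  cases h1 : edge N M with
  | none =>
    cases h2 : edge M N with
    | none => rw [Option.getD_none, Option.getD_none, mu_symm, D.C_symm]; rfl
    | some k => rfl
  | some k =>
    cases h2 : edge M N with
    | none => rfl
    | some k' =>
      have := edge_size h1
      have := edge_size h2
      omega

theorem col_edge {N M : V L I} {s : ZMod 6} (h : edge N M = some s) : col D N M = s := by
  unfold col
  rw [h]
  rfl

theorem col_edge' {N M : V L I} {s : ZMod 6} (h : edge M N = some s) : col D N M = s := by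
  rw [col_symm]
  exact col_edge D h

theorem col_plain {N M : V L I} (h : edge N M = none) (h' : edge M N = none) :
    col D N M = D.C (mu D N M) (lab N) (lab M) := by
  unfold col
  rw [h, h']
  rfl

/-- The local conditions of a newborn. -/
def Loc (N : V L I) : V L I → V L I → Mode → (Fin 6 → Option (ZMod 6)) → Prop :=
  fun P Q md ex =>
  (∀ a c, ex a = some c → D.X md a (mu D N (tgt P Q a)) (lab N) (lab (tgt P Q a)) c) ∧
  (∀ M c K d, edge N M = some c → edge M K = some d → edge N K = none →
    ok c d (D.C (mu D N K) (lab N) (lab K))) ∧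
  (∀ M c K d, edge N M = some c → edge N K = some d → M ≠ K → ok c d (col D M K))

/-- The conditions of a mixed child. -/
def MC (P Q : V L I) (d : I × I × L × (Fin 6 → Option (ZMod 6))) : Prop :=
  d.2.2.2 0 = some 4 ∧ d.2.2.2 1 = some 5 ∧
  edge (nd Mode.mix P Q d.1 d.2.1 d.2.2.1 d.2.2.2) P = some 4 ∧
  edge (nd Mode.mix P Q d.1 d.2.1 d.2.2.1 d.2.2.2) Q = some 5 ∧
  Loc D (nd Mode.mix P Q d.1 d.2.1 d.2.2.1 d.2.2.2) P Q Mode.mix d.2.2.2

open Classical in
/-- The chosen mixed child. -/
noncomputable def mch (P Q : V L I) : Option (I × I × L × (Fin 6 → Option (ZMod 6))) :=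
  if h : ∃ d, MC D P Q d then some h.choose else none

/-- The vertices used. -/
def Good : V L I → Prop
  | base _ => True
  | nd md P Q i j l ex => Good P ∧ Good Q ∧ P ≠ Q ∧ Loc D (nd md P Q i j l ex) P Q md ex ∧
    (md = Mode.mix → mch D P Q = some (i, j, l, ex))

theorem good_fst {N : V L I} (h : Good D N) : Good D (fst N) := by
  cases N with
  | base l => exact h
  | nd md P Q i j l ex => exact h.1

theorem good_snd {N : V L I} (h : Good D N) : Good D (snd N) := by
  cases N with
  | base l => exact h
  | nd md P Q i j l ex => exact h.2.1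

theorem good_tgt {P Q : V L I} (hP : Good D P) (hQ : Good D Q) (a : Fin 6) :
    Good D (tgt P Q a) := by
  have h1 := good_fst D hP
  have h2 := good_snd D hP
  have h3 := good_fst D hQ
  have h4 := good_snd D hQ
  unfold tgt
  split_ifs <;> assumption

/-- The kind of an exceptional edge. -/
theorem edge_kind {N M : V L I} {s : ZMod 6} (hN : Good D N) (h : edge N M = some s) :
    ∃ md a, D.X md a (mu D N M) (lab N) (lab M) s ∧
      (md = Mode.mix → a = 0 → cls N = Cl.mx M) ∧
      (md = Mode.mix → a = 1 → ∃ P d, N = nd Mode.mix P M d.1 d.2.1 d.2.2.1 d.2.2.2 ∧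
        mch D P M = some d) := by
  cases N with
  | base l => exact absurd h (by simp [edge])
  | nd md P Q i j l ex =>
    obtain ⟨_, _, _, ⟨h1, _, _⟩, h4⟩ := hN
    obtain ⟨a, h2, h3⟩ := edge_cases h
    refine ⟨md, a, ?_, ?_, ?_⟩
    · have := h1 a s h3
      rwa [h2] at this
    · intro e1 e2
      subst e1
      subst e2
      have h2' : P = M := h2
      rw [← h2']
      rfl
    · intro e1 e2
      subst e1
      subst e2
      have h2' : Q = M := h2
      rw [← h2']
      exact ⟨P, (i, j, l, ex), rfl, h4 rfl⟩

/-- Two exceptional edges of one vertex. -/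
theorem edge_two {N M K : V L I} {s t : ZMod 6} (hN : Good D N)
    (h : edge N M = some s) (h' : edge N K = some t) (hne : M ≠ K) :
    ok s t (col D M K) := by
  cases N with
  | base l => exact absurd h (by simp [edge])
  | nd md P Q i j l ex =>
    obtain ⟨_, _, _, ⟨_, _, h3⟩, _⟩ := hN
    exact h3 _ _ _ _ h h' hne

/-- A chain of exceptional edges. -/
theorem edge_chain {N M K : V L I} {s t : ZMod 6} (hN : Good D N)
    (h : edge N M = some s) (h' : edge M K = some t) (hK : edge N K = none) :
    ok s t (D.C (mu D N K) (lab N) (lab K)) := by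
  cases N with
  | base l => exact absurd h (by simp [edge])
  | nd md P Q i j l ex =>
    obtain ⟨_, _, _, ⟨_, h3, _⟩, _⟩ := hN
    exact h3 _ _ _ _ h h' hK

/-- One exceptional edge. -/
theorem tri_one {N M : V L I} {s : ZMod 6} (hN : Good D N) (hNM : edge N M = some s)
    (K : V L I) : ok s (D.C (mu D N K) (lab N) (lab K)) (D.C (mu D M K) (lab M) (lab K)) := by
  obtain ⟨md, a, hX, _⟩ := edge_kind D hN hNM
  exact D.XA _ _ _ _ _ _ hX _ _ (comp D N M K) _

/-- Two newborns with exceptional edges to one vertex. -/
theorem tri_heads {N M K : V L I} {s t : ZMod 6} (hN : Good D N) (hK : Good D K) (hNK : N ≠ K)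
    (hNM : edge N M = some s) (hKM : edge K M = some t) :
    ok s t (D.C (mu D N K) (lab N) (lab K)) := by
  obtain ⟨md, a, hX, he, ho⟩ := edge_kind D hN hNM
  obtain ⟨md', a', hX', he', ho'⟩ := edge_kind D hK hKM
  refine D.XB _ _ _ _ _ _ _ _ _ _ _ hX hX' _ ?_ ?_ ?_
  · have := comp D N M K
    rw [mu_symm D M K] at this
    exact this
  · intro e1 e2 e3 e4
    exact mu_same D ((he e1 e2).trans (he' e3 e4).symm)
  · intro e1 e2 e3 e4 hmu
    apply hNK
    obtain ⟨P, d, h1, h2⟩ := ho e1 e2
    obtain ⟨P', d', h1', h2'⟩ := ho' e3 e4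
    have hc := mu_eq_none D hmu
    rw [h1, h1'] at hc
    have hP : P = P' := by
      have hc' : (Cl.mx P : Cl L I) = Cl.mx P' := hc
      exact Cl.mx.inj hc'
    subst hP
    rw [h2] at h2'
    have hd : d = d' := Option.some.inj h2'
    rw [h1, h1', hd]

/-- The status of a pair. -/
theorem status (N M : V L I) :
    (edge N M = none ∧ edge M N = none) ∨ (∃ s, edge N M = some s) ∨
      (∃ s, edge M N = some s) := by
  cases h1 : edge N M with
  | some s => exact Or.inr (Or.inl ⟨s, rfl⟩)
  | none =>
    cases h2 : edge M N with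
    | some s => exact Or.inr (Or.inr ⟨s, rfl⟩)
    | none => exact Or.inl ⟨rfl, rfl⟩

theorem src {N M K : V L I} {s t : ZMod 6} (hN : Good D N)
    (h : edge N M = some s) (h' : edge N K = some t) (hne : M ≠ K) :
    ok (col D N M) (col D M K) (col D N K) := by
  rw [col_edge D h, col_edge D h']
  exact ok23 (edge_two D hN h h' hne)

theorem heads {N M K : V L I} {s t : ZMod 6} (hN : Good D N) (hK : Good D K)
    (hNK : N ≠ K) (hMK : M ≠ K) (hMN : N ≠ M)
    (h : edge N M = some s) (h' : edge K M = some t) :
    ok (col D N M) (col D M K) (col D N K) := by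
  rcases status N K with ⟨a1, a2⟩ | ⟨c, a1⟩ | ⟨c, a1⟩
  · rw [col_edge D h, col_symm D M, col_edge D h', col_plain D a1 a2]
    exact tri_heads D hN hK hNK h h'
  · exact src D hN h a1 hMK
  · have := src D hK h' a1 hMN.symm
    rw [col_symm D K M, col_symm D M N, col_symm D K N] at this
    exact ok12 this

theorem chain {N M K : V L I} {s t : ZMod 6} (hN : Good D N) (hMK : M ≠ K)
    (h : edge N M = some s) (h' : edge M K = some t) :
    ok (col D N M) (col D M K) (col D N K) := by
  rcases status N K with ⟨a1, a2⟩ | ⟨c, a1⟩ | ⟨c, a1⟩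
  · rw [col_edge D h, col_edge D h', col_plain D a1 a2]
    exact edge_chain D hN h h' a1
  · exact src D hN h a1 hMK
  · have e1 := edge_size h
    have e2 := edge_size h'
    have e3 := edge_size a1
    omega

theorem tri3 {N M K : V L I} (hN : Good D N) (hM : Good D M) (hK : Good D K)
    (hNM : N ≠ M) (hMK : M ≠ K) (hNK : N ≠ K) :
    ok (col D N M) (col D M K) (col D N K) := by
  have P1 : ok (col D M N) (col D N K) (col D M K) →
      ok (col D N M) (col D M K) (col D N K) := by
    intro h
    rw [col_symm D M N] at h
    exact ok23 h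
  have P2 : ok (col D K M) (col D M N) (col D K N) →
      ok (col D N M) (col D M K) (col D N K) := by
    intro h
    rw [col_symm D K M, col_symm D M N, col_symm D K N] at h
    exact ok12 h
  have P3 : ok (col D N K) (col D K M) (col D N M) →
      ok (col D N M) (col D M K) (col D N K) := by
    intro h
    rw [col_symm D K M] at h
    exact ok13 h
  have P4 : ok (col D M K) (col D K N) (col D M N) →
      ok (col D N M) (col D M K) (col D N K) := by
    intro h
    rw [col_symm D K N, col_symm D M N] at h
    exact okrot' h
  have P5 : ok (col D K N) (col D N M) (col D K M) →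
      ok (col D N M) (col D M K) (col D N K) := by
    intro h
    rw [col_symm D K N, col_symm D K M] at h
    exact okrot h
  rcases status N M with ⟨a1, a2⟩ | ⟨s, a⟩ | ⟨s, a⟩
  · rcases status M K with ⟨b1, b2⟩ | ⟨t, b⟩ | ⟨t, b⟩
    · rcases status N K with ⟨c1, c2⟩ | ⟨u, c⟩ | ⟨u, c⟩
      · rw [col_plain D a1 a2, col_plain D b1 b2, col_plain D c1 c2]
        exact D.F3 _ _ _ (comp D N M K) _ _ _
      · rw [col_plain D a1 a2, col_plain D b1 b2, col_edge D c, mu_symm D M K,
          D.C_symm _ (lab M) (lab K)]
        have := tri_one D hN c M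
        first | exact okrot this | exact okrot' this | exact ok13 this
      · rw [col_plain D a1 a2, col_plain D b1 b2, col_edge' D c, mu_symm D M K,
          D.C_symm _ (lab M) (lab K)]
        have := tri_one D hK c M
        first | exact okrot this | exact okrot' this | exact ok13 this
    · rcases status N K with ⟨c1, c2⟩ | ⟨u, c⟩ | ⟨u, c⟩
      · rw [col_plain D a1 a2, col_edge D b, col_plain D c1 c2, mu_symm D N M,
          D.C_symm _ (lab N) (lab M), mu_symm D N K, D.C_symm _ (lab N) (lab K)]
        exact ok12 (tri_one D hM b N)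
      · exact P3 (heads D hN hM hNM hMK.symm hNK c b)
      · exact P4 (chain D hM hNK.symm b c)
    · rcases status N K with ⟨c1, c2⟩ | ⟨u, c⟩ | ⟨u, c⟩
      · rw [col_plain D a1 a2, col_edge' D b, col_plain D c1 c2, mu_symm D N M,
          D.C_symm _ (lab N) (lab M), mu_symm D N K, D.C_symm _ (lab N) (lab K)]
        have := tri_one D hK b N
        first | exact okrot this | exact okrot' this | exact ok13 this
      · exact P3 (chain D hN hMK.symm c b)
      · exact P2 (src D hK b c hNM.symm)
  · rcases status M K with ⟨b1, b2⟩ | ⟨t, b⟩ | ⟨t, b⟩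
    · rcases status N K with ⟨c1, c2⟩ | ⟨u, c⟩ | ⟨u, c⟩
      · rw [col_edge D a, col_plain D b1 b2, col_plain D c1 c2]
        exact ok23 (tri_one D hN a K)
      · exact src D hN a c hMK
      · exact P5 (chain D hK hNM c a)
    · exact chain D hN hMK a b
    · exact heads D hN hK hNK hMK hNM a b
  · rcases status M K with ⟨b1, b2⟩ | ⟨t, b⟩ | ⟨t, b⟩
    · rcases status N K with ⟨c1, c2⟩ | ⟨u, c⟩ | ⟨u, c⟩
      · rw [col_edge' D a, col_plain D b1 b2, col_plain D c1 c2]
        exact tri_one D hM a K
      · exact P1 (chain D hM hNK a c)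
      · exact P1 (heads D hM hK hMK hNK hNM.symm a c)
    · exact P1 (src D hM a b hNK)
    · exact P2 (chain D hK hNM.symm b a)

/-! ### Indices of a newborn -/

theorem mu_tw_P {P Q : V L I} {i j : I} {l : L} {ex : Fin 6 → Option (ZMod 6)} (M : V L I) :
    mu D (nd Mode.tw P Q i j l ex) M = mu D P M := rfl

theorem mu_own {P Q : V L I} {i j : I} {l : L} {ex : Fin 6 → Option (ZMod 6)} {M : V L I}
    (hM : size M ≤ size P + size Q) :
    mu D (nd Mode.own P Q i j l ex) M = some (if mu D P M = none then i else
      if mu D Q M = none then j else (ref D (cls M) (Cl.own (nd Mode.own P Q i j l ex))).getD D.i1)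
    := by
  show mu0 D (Cl.own (nd Mode.own P Q i j l ex)) (cls M) = _
  have hne : (Cl.own (nd Mode.own P Q i j l ex) : Cl L I) ≠ cls M := by
    intro e
    have h1 := csize_cls M
    rw [← e] at h1
    have h2 : size P + size Q + 1 ≤ size M := h1
    omega
  unfold mu0
  rw [if_neg hne, ref_own]
  by_cases h : cls P = cls M
  · rw [if_pos h, if_pos (mu_same D h)]
    rfl
  · rw [if_neg h, if_neg (fun e => h (mu_eq_none D e))]
    by_cases h' : cls Q = cls M
    · rw [if_pos h', if_pos (mu_same D h')]
      rfl
    · rw [if_neg h', if_neg (fun e => h' (mu_eq_none D e))]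
      rfl

/-- The class of a newborn is not referred to by older vertices. -/
theorem mu_own' {P Q : V L I} {i j : I} {l : L} {ex : Fin 6 → Option (ZMod 6)} {M : V L I}
    (hM : size M ≤ size P + size Q) :
    mu D (nd Mode.own P Q i j l ex) M = some (if mu D P M = none then i else
      if mu D Q M = none then j else D.i1) := by
  rw [mu_own D hM]
  congr 1
  by_cases h : mu D P M = none
  · rw [if_pos h, if_pos h]
  · rw [if_neg h, if_neg h]
    by_cases h' : mu D Q M = none
    · rw [if_pos h', if_pos h']
    · rw [if_neg h', if_neg h']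
      cases hr : ref D (cls M) (Cl.own (nd Mode.own P Q i j l ex)) with
      | none => rfl
      | some k =>
        have h1 := ref_size D hr
        have h2 := csize_cls M
        have h3 : size P + size Q + 1 < csize (cls M) := h1
        omega

theorem size_ne {md : Mode} {P Q : V L I} {i j : I} {l : L} {ex : Fin 6 → Option (ZMod 6)} :
    nd md P Q i j l ex ≠ P ∧ nd md P Q i j l ex ≠ Q := by
  constructor
  · intro e
    have := congrArg size e
    have h2 : size (nd md P Q i j l ex) = size P + size Q + 1 := rfl
    omega
  · intro e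
    have := congrArg size e
    have h2 : size (nd md P Q i j l ex) = size P + size Q + 1 := rfl
    omega

/-- **The representation**, if all requests are served. -/
theorem rep_of_served (hs : ∀ P Q : V L I, Good D P → Good D Q → P ≠ Q → ∀ a b,
      ok (col D P Q) a b → ∃ N, Good D N ∧ N ≠ P ∧ N ≠ Q ∧ col D P N = a ∧ col D N Q = b)
    (l₀ l₁ : L) (hl : l₀ ≠ l₁) :
    ∃ (U : Type) (r : Set Atom → Set (U × U)), Nonempty U ∧ IsRepresentation U r := by
  refine ⟨{N : V L I // Good D N}, ?_⟩
  have h : IsColouring (fun u v : {N : V L I // Good D N} => col D u.1 v.1) :=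
    { nontriv := ⟨⟨base l₀, trivial⟩, ⟨base l₁, trivial⟩, fun e => hl (by
        have := congrArg (fun v => lab v.1) e
        exact this)⟩
      symm := fun u v _ => col_symm D _ _
      no_forb := fun u v w h1 h2 h3 => tri3 D u.2 v.2 w.2 (fun e => h1 (Subtype.ext e))
        (fun e => h2 (Subtype.ext e)) (fun e => h3 (Subtype.ext e))
      witness := by
        intro u v huv s t hf
        obtain ⟨N, g1, g2, g3, g4, g5⟩ := hs u.1 v.1 u.2 v.2 (fun e => huv (Subtype.ext e)) s t hf
        exact ⟨⟨N, g1⟩, fun e => g2 (congrArg Subtype.val e), fun e => g3 (congrArg Subtype.val e),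
          g4, g5⟩ }
  obtain ⟨r, hr⟩ := rep_of_colouring h
  exact ⟨r, ⟨⟨base l₀, trivial⟩⟩, hr⟩

end Pool.Agent.CRQ.Blob8
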