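import Pool.Agent.RA6.GenCert99

/-!
Certificates for MP_cf0286_al, generation schedule, with at most two parents per vertex. The types
of ordered pairs carry one flag `dn` (the first vertex is a parent of the second). The row of a
newborn is not a function of types: the rule only gives sets `D` of possible types; for pairs of
vertices which are not parent and child all choices must fit; every choice at the parents of a
vertex must have a partner at the vertex. The row is then chosen in birth order.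
-/

namespace Pool.Agent.CRQ

open Pool.Agent.RA6

/-- A certificate with at most two parents per vertex for the generation schedule, see
`Pool.Agent.RA6.GenCert` and `FGen`. -/
structure DGen (T : Type) where
  flip : T → T
  col : T → ZMod 6
  old : T → Bool
  la : T → ℕ
  pr : T → T
  dn : T → Bool
  Tri : T → T → T → Prop
  gx : T → ZMod 6 → ZMod 6 → T
  gy : T → ZMod 6 → ZMod 6 → T
  D : T → ZMod 6 → ZMod 6 → T → T → T → Prop
  R : T → ZMod 6 → ZMod 6 → T → T → Option (Bool × ZMod 6)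
  rk : T → ZMod 6 → ZMod 6 → ℕ
  flip_flip : ∀ t, flip (flip t) = t
  col_flip : ∀ t, col (flip t) = col t
  old_flip : ∀ t, old (flip t) = !old t
  pr_flip : ∀ t, pr (flip t) = flip (pr t)
  pr_col : ∀ t, col (pr t) = col t
  pr_old : ∀ t, old (pr t) = old t
  pr_la : ∀ t, la t ≤ 2 → la (pr t) = plev (la t)
  pr_dn : ∀ t, dn (pr t) = dn t
  pr_tri : ∀ p q r, Tri p q r → Tri (pr p) (pr q) (pr r)
  tri_swap12 : ∀ p q r, Tri p q r → Tri (flip p) r q
  tri_swap23 : ∀ p q r, Tri p q r → Tri q p (flip r)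
  tri_ok : ∀ p q r, Tri p q r → ¬ Forbidden (col p) (col r) (col q)
  dn_old : ∀ t, dn t = true → old t = true
  gx_ok : ∀ t a b, la t ≤ 1 → la (flip t) ≤ 1 → 1 ≤ la t + la (flip t) →
    ¬ Forbidden (col t) a b →
    col (gx t a b) = a ∧ old (gx t a b) = true ∧ la (gx t a b) = la t ∧ la (flip (gx t a b)) = 2
  gy_ok : ∀ t a b, la t ≤ 1 → la (flip t) ≤ 1 → 1 ≤ la t + la (flip t) →
    ¬ Forbidden (col t) a b →
    col (gy t a b) = b ∧ old (gy t a b) = true ∧ la (gy t a b) = la (flip t) ∧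
      la (flip (gy t a b)) = 2
  D_ne : ∀ t a b, la t ≤ 1 → la (flip t) ≤ 1 → 1 ≤ la t + la (flip t) →
    ¬ Forbidden (col t) a b → ∀ p q, Tri t p q →
    ¬ (col p = a ∧ col q = b) → R t a b p q = none → ∃ g, D t a b p q g
  D_ok : ∀ t a b, la t ≤ 1 → la (flip t) ≤ 1 → 1 ≤ la t + la (flip t) →
    ¬ Forbidden (col t) a b → ∀ p q, Tri t p q →
    ¬ (col p = a ∧ col q = b) → R t a b p q = none → ∀ g, D t a b p q g →
    old g = true ∧ la g = la (flip p) ∧ la (flip g) = 2 ∧
    Tri p (gx t a b) g ∧ Tri q (gy t a b) g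
  tri_new : ∀ t a b, la t ≤ 1 → la (flip t) ≤ 1 → 1 ≤ la t + la (flip t) →
    ¬ Forbidden (col t) a b → Tri t (gx t a b) (gy t a b)
  box : ∀ t a b, la t ≤ 1 → la (flip t) ≤ 1 → 1 ≤ la t + la (flip t) →
    ¬ Forbidden (col t) a b → ∀ p q p' q' u, Tri t p q →
    Tri t p' q' → Tri p p' u → Tri q q' u → ¬ (col p = a ∧ col q = b) →
    ¬ (col p' = a ∧ col q' = b) → R t a b p q = none → R t a b p' q' = none →
    dn u = false → dn (flip u) = false →
    ∀ g g', D t a b p q g → D t a b p' q' g' → Tri u g g'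
  arc : ∀ t a b, la t ≤ 1 → la (flip t) ≤ 1 → 1 ≤ la t + la (flip t) →
    ¬ Forbidden (col t) a b → ∀ p q p' q' u, Tri t p q →
    Tri t p' q' → Tri p p' u → Tri q q' u → ¬ (col p = a ∧ col q = b) →
    ¬ (col p' = a ∧ col q' = b) → R t a b p q = none → R t a b p' q' = none →
    dn u = true → ∀ g, D t a b p q g → ∃ g', D t a b p' q' g' ∧ Tri u g g'
  arc2 : ∀ t a b, la t ≤ 1 → la (flip t) ≤ 1 → 1 ≤ la t + la (flip t) →
    ¬ Forbidden (col t) a b → ∀ p q p' q' p'' q'' u u' v, Tri t p q →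
    Tri t p' q' → Tri t p'' q'' → Tri p p' v → Tri q q' v → Tri p p'' u → Tri q q'' u →
    Tri p' p'' u' → Tri q' q'' u' → Tri v u u' →
    ¬ (col p = a ∧ col q = b) → ¬ (col p' = a ∧ col q' = b) →
    ¬ (col p'' = a ∧ col q'' = b) →
    R t a b p q = none → R t a b p' q' = none → R t a b p'' q'' = none →
    dn u = true → dn u' = true → ∀ g g', D t a b p q g → D t a b p' q' g' → Tri v g g' →
    ∃ g'', D t a b p'' q'' g'' ∧ Tri u g g'' ∧ Tri u' g' g''
  par_one : ∀ t a b, la t ≤ 1 → la (flip t) ≤ 1 → 1 ≤ la t + la (flip t) →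
    ¬ Forbidden (col t) a b → ∀ p q p' q' u, Tri t p q →
    Tri t p' q' → Tri p p' u → Tri q q' u → ¬ (col p = a ∧ col q = b) →
    ¬ (col p' = a ∧ col q' = b) → R t a b p q = none → R t a b p' q' = none →
    ∀ g g', D t a b p q g → D t a b p' q' g' → dn g = true → dn g' = true → False
  par_two : ∀ t a b, la t ≤ 1 → la (flip t) ≤ 1 → 1 ≤ la t + la (flip t) →
    ¬ Forbidden (col t) a b → dn (gx t a b) = true → dn (gy t a b) = true → ∀ p q, Tri t p q →
    ¬ (col p = a ∧ col q = b) → R t a b p q = none → ∀ g, D t a b p q g → dn g = false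
  red_x : ∀ t a b, la t ≤ 1 → la (flip t) ≤ 1 → 1 ≤ la t + la (flip t) →
    ¬ Forbidden (col t) a b → ∀ p q c, Tri t p q → R t a b p q = some (false, c) →
    ¬ Forbidden (col p) a c ∧ ¬ (col t = a ∧ col q = c) ∧ la (flip p) ≤ 1 ∧
    (la p + la (flip p) = 0 ∨ rk p a c < rk t a b ∨ (rk p a c = rk t a b ∧ old q = false)) ∧
    ∀ p' q' v, Tri t p' q' → Tri p p' v → Tri q q' v → col p' = a → col v = c → col q' = b
  red_y : ∀ t a b, la t ≤ 1 → la (flip t) ≤ 1 → 1 ≤ la t + la (flip t) →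
    ¬ Forbidden (col t) a b → ∀ p q c, Tri t p q → R t a b p q = some (true, c) →
    ¬ Forbidden (col q) c b ∧ ¬ (col p = c ∧ col t = b) ∧ la (flip q) ≤ 1 ∧
    (la q + la (flip q) = 0 ∨ rk (flip q) c b < rk t a b ∨
      (rk (flip q) c b = rk t a b ∧ old p = false)) ∧
    ∀ p' q' v, Tri t p' q' → Tri p p' v → Tri q q' v → col q' = b → col v = c → col p' = a

section

variable {T : Type} (C : DGen T)

/-- The states: typed complete graphs with levels, all of whose triangles are allowed. -/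
def DState (n : ℕ) : Type :=
  {s : (ℕ → ℕ → T) × (ℕ → ℕ) // (∀ i j, i < n → j < n → i ≠ j → s.1 j i = C.flip (s.1 i j)) ∧
    (∀ i j, i < n → j < n → i ≠ j → (C.old (s.1 i j) = true ↔ i < j)) ∧
    (∀ i j, i < n → j < n → i ≠ j → C.la (s.1 i j) = s.2 i) ∧
    (∀ i, i < n → s.2 i ≤ 2) ∧
    (∀ i j k, i < n → j < n → k < n → i ≠ j → j ≠ k → i ≠ k →
      C.Tri (s.1 i j) (s.1 i k) (s.1 j k)) ∧
    ∀ w u v z, w < n → u < n → v < n → z < n → w ≠ u → w ≠ v → w ≠ z → u ≠ v → v ≠ z → u ≠ z →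
      C.dn (s.1 u w) = true → C.dn (s.1 v w) = true → C.dn (s.1 z w) = true → False}

/-- The extended typed graph; `g` is the row of the newborn. -/
def dextT (t : ℕ → ℕ → T) (n : ℕ) (g : ℕ → T) (i j : ℕ) : T :=
  if j = n then g i else if i = n then C.flip (g j) else t i j

/-- The extended level function. -/
def dextL (l : ℕ → ℕ) (n : ℕ) (i : ℕ) : ℕ := if i = n then 2 else l i

theorem dextT_old (t : ℕ → ℕ → T) (n : ℕ) (g : ℕ → T)
    (i j : ℕ) (hi : i < n) (hj : j < n) : dextT C t n g i j = t i j := by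
  unfold dextT
  rw [if_neg (by omega), if_neg (by omega)]

theorem dextT_new (t : ℕ → ℕ → T) (n : ℕ) (g : ℕ → T)
    (i : ℕ) : dextT C t n g i n = g i := by
  unfold dextT
  rw [if_pos rfl]

theorem dextT_new' (t : ℕ → ℕ → T) (n : ℕ) (g : ℕ → T)
    (i : ℕ) (hi : i < n) : dextT C t n g n i = C.flip (g i) := by
  unfold dextT
  rw [if_neg (by omega), if_pos rfl]

/-- The hypotheses under which the request is served directly. -/
structure DDirect (n : ℕ) (s : DState C n) (x y : ℕ) (a b : ZMod 6) : Prop where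
  hx : x < n
  hy : y < n
  hxy : x ≠ y
  hlx : C.la (s.1.1 x y) ≤ 1
  hly : C.la (C.flip (s.1.1 x y)) ≤ 1
  hl : 1 ≤ C.la (s.1.1 x y) + C.la (C.flip (s.1.1 x y))
  hf : ¬ Forbidden (C.col (s.1.1 x y)) a b
  hw : ∀ w, w < n → w ≠ x → w ≠ y → ¬ (C.col (s.1.1 x w) = a ∧ C.col (s.1.1 y w) = b)
  hR : ∀ w, w < n → w ≠ x → w ≠ y → C.R (s.1.1 x y) a b (s.1.1 x w) (s.1.1 y w) = none

/-- A good row for a newborn. -/
structure DRow (n : ℕ) (s : DState C n) (g : ℕ → T) : Prop where
  tri : ∀ i j, i < n → j < n → i ≠ j → C.Tri (s.1.1 i j) (g i) (g j)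
  old : ∀ w, w < n → C.old (g w) = true
  la : ∀ w, w < n → C.la (g w) = s.1.2 w
  la' : ∀ w, w < n → C.la (C.flip (g w)) = 2
  par : ∀ u v z, u < n → v < n → z < n → u ≠ v → v ≠ z → u ≠ z →
    C.dn (g u) = true → C.dn (g v) = true → C.dn (g z) = true → False

variable {C}

theorem dlt_of_old_true {n : ℕ} (s : DState C n) (i j : ℕ) (hi : i < n) (hj : j < n)
    (hij : i ≠ j) (h : C.old (s.1.1 i j) = true) : i < j :=
  (s.2.2.1 i j hi hj hij).mp h

theorem dlt_of_old_false {n : ℕ} (s : DState C n) (i j : ℕ) (hi : i < n) (hj : j < n)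
    (hij : i ≠ j) (h : C.old (s.1.1 i j) = false) : j < i := by
  have h1 := s.2.2.1 i j hi hj hij
  by_contra hc
  have h2 : i < j := by omega
  rw [h1.mpr h2] at h
  exact absurd h (by decide)

theorem dla_flip {n : ℕ} (s : DState C n) (i j : ℕ) (hi : i < n) (hj : j < n) (hij : i ≠ j) :
    C.la (C.flip (s.1.1 i j)) = s.1.2 j := by
  rw [← s.2.1 i j hi hj hij]
  exact s.2.2.2.1 j i hj hi (Ne.symm hij)

/-- The types of the newborn to the vertices different from `x` and `y`, chosen from the roots of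
the forest downwards. -/
theorem exists_partial_rowD {n : ℕ} {s : DState C n} {x y : ℕ} {a b : ZMod 6}
    (h : DDirect C n s x y a b) : ∀ m, m ≤ n → ∃ g : ℕ → T,
      (∀ w, w < m → w ≠ x → w ≠ y → C.D (s.1.1 x y) a b (s.1.1 x w) (s.1.1 y w) (g w)) ∧
      ∀ v w, v < m → w < m → v ≠ x → v ≠ y → w ≠ x → w ≠ y → v ≠ w →
        C.dn (s.1.1 v w) = true → C.Tri (s.1.1 v w) (g v) (g w) := by
  classical
  have htri := s.2.2.2.2.2.1
  intro m
  induction m with
  | zero => intro _; exact ⟨fun _ => s.1.1 0 0, fun w hw => absurd hw (by omega),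
      fun v w hv => absurd hv (by omega)⟩
  | succ m ih =>
    intro hm
    obtain ⟨g, hg1, hg2⟩ := ih (by omega)
    have hmn : m < n := by omega
    by_cases hmx : m = x
    · refine ⟨g, ?_, ?_⟩
      · intro w hw h1 h2
        exact hg1 w (by omega) h1 h2
      · intro v w hv hw h1 h2 h3 h4
        exact hg2 v w (by omega) (by omega) h1 h2 h3 h4
    by_cases hmy : m = y
    · refine ⟨g, ?_, ?_⟩
      · intro w hw h1 h2
        exact hg1 w (by omega) h1 h2
      · intro v w hv hw h1 h2 h3 h4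
        exact hg2 v w (by omega) (by omega) h1 h2 h3 h4
    have hTm : C.Tri (s.1.1 x y) (s.1.1 x m) (s.1.1 y m) :=
      htri x y m h.hx h.hy hmn h.hxy (Ne.symm hmy) (Ne.symm hmx)
    -- the value at m
    have hT0 : ∀ v, v < n → v ≠ x → v ≠ y → C.Tri (s.1.1 x y) (s.1.1 x v) (s.1.1 y v) :=
      fun v h1 h2 h3 => htri x y v h.hx h.hy h1 h.hxy (Ne.symm h3) (Ne.symm h2)
    have hTx : ∀ v w, v < n → w < n → v ≠ x → w ≠ x → v ≠ w →
        C.Tri (s.1.1 x v) (s.1.1 x w) (s.1.1 v w) :=
      fun v w h1 h2 h3 h4 h5 => htri x v w h.hx h1 h2 (Ne.symm h3) h5 (Ne.symm h4)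
    have hTy : ∀ v w, v < n → w < n → v ≠ y → w ≠ y → v ≠ w →
        C.Tri (s.1.1 y v) (s.1.1 y w) (s.1.1 v w) :=
      fun v w h1 h2 h3 h4 h5 => htri y v w h.hy h1 h2 (Ne.symm h3) h5 (Ne.symm h4)
    have hval : ∃ g', C.D (s.1.1 x y) a b (s.1.1 x m) (s.1.1 y m) g' ∧
        ∀ v, v < m → v ≠ x → v ≠ y → C.dn (s.1.1 v m) = true →
          C.Tri (s.1.1 v m) (g v) g' := by
      by_cases hp : ∃ v, v < m ∧ v ≠ x ∧ v ≠ y ∧ C.dn (s.1.1 v m) = true
      · obtain ⟨v, hv, hvx, hvy, hd⟩ := hp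
        have hvn : v < n := by omega
        by_cases hp2 : ∃ v', v' < m ∧ v' ≠ x ∧ v' ≠ y ∧ v' ≠ v ∧ C.dn (s.1.1 v' m) = true
        · obtain ⟨v', hv', hvx', hvy', hvv, hd'⟩ := hp2
          have hvn' : v' < n := by omega
          have hTri : C.Tri (s.1.1 v v') (g v) (g v') := by
            by_cases e1 : C.dn (s.1.1 v v') = true
            · exact hg2 v v' hv hv' hvx hvy hvx' hvy' (Ne.symm hvv) e1
            · by_cases e2 : C.dn (s.1.1 v' v) = true
              · have e3 := hg2 v' v hv' hv hvx' hvy' hvx hvy hvv e2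
                have e4 := C.tri_swap12 _ _ _ e3
                rw [← s.2.1 v' v hvn' hvn hvv] at e4
                exact e4
              · refine C.box _ _ _ h.hlx h.hly h.hl h.hf _ _ _ _ (s.1.1 v v')
                  (hT0 v hvn hvx hvy) (hT0 v' hvn' hvx' hvy')
                  (hTx v v' hvn hvn' hvx hvx' (Ne.symm hvv))
                  (hTy v v' hvn hvn' hvy hvy' (Ne.symm hvv))
                  (h.hw v hvn hvx hvy) (h.hw v' hvn' hvx' hvy') (h.hR v hvn hvx hvy)
                  (h.hR v' hvn' hvx' hvy') (by simpa using e1) ?_ _ _ (hg1 v hv hvx hvy)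
                  (hg1 v' hv' hvx' hvy')
                rw [← s.2.1 v v' hvn hvn' (Ne.symm hvv)]
                simpa using e2
          obtain ⟨g', h1, h2, h3⟩ := C.arc2 _ _ _ h.hlx h.hly h.hl h.hf _ _ _ _ _ _
            (s.1.1 v m) (s.1.1 v' m) (s.1.1 v v')
            (hT0 v hvn hvx hvy) (hT0 v' hvn' hvx' hvy') hTm
            (hTx v v' hvn hvn' hvx hvx' (Ne.symm hvv))
            (hTy v v' hvn hvn' hvy hvy' (Ne.symm hvv))
            (hTx v m hvn hmn hvx hmx (by omega)) (hTy v m hvn hmn hvy hmy (by omega))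
            (hTx v' m hvn' hmn hvx' hmx (by omega)) (hTy v' m hvn' hmn hvy' hmy (by omega))
            (htri v v' m hvn hvn' hmn (Ne.symm hvv) (by omega) (by omega))
            (h.hw v hvn hvx hvy) (h.hw v' hvn' hvx' hvy') (h.hw m hmn hmx hmy)
            (h.hR v hvn hvx hvy) (h.hR v' hvn' hvx' hvy') (h.hR m hmn hmx hmy)
            hd hd' (g v) (g v') (hg1 v hv hvx hvy) (hg1 v' hv' hvx' hvy') hTri
          refine ⟨g', h1, ?_⟩
          intro v'' hv'' _ _ hd''
          by_cases e1 : v'' = v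
          · rw [e1]; exact h2
          by_cases e2 : v'' = v'
          · rw [e2]; exact h3
          exact (s.2.2.2.2.2.2 m v v' v'' hmn hvn hvn' (by omega) (by omega) (by omega)
            (by omega) (Ne.symm hvv) (Ne.symm e2) (Ne.symm e1) hd hd' hd'').elim
        · obtain ⟨g', h1, h2⟩ := C.arc _ _ _ h.hlx h.hly h.hl h.hf _ _ _ _ (s.1.1 v m)
            (hT0 v hvn hvx hvy) hTm
            (hTx v m hvn hmn hvx hmx (by omega)) (hTy v m hvn hmn hvy hmy (by omega))
            (h.hw v hvn hvx hvy) (h.hw m hmn hmx hmy) (h.hR v hvn hvx hvy) (h.hR m hmn hmx hmy)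
            hd (g v) (hg1 v hv hvx hvy)
          refine ⟨g', h1, ?_⟩
          intro v' hv' e1 e2 hd'
          by_cases he : v' = v
          · rw [he]; exact h2
          · exact absurd ⟨v', hv', e1, e2, he, hd'⟩ hp2
      · obtain ⟨g', hg'⟩ := C.D_ne _ _ _ h.hlx h.hly h.hl h.hf _ _ hTm (h.hw m hmn hmx hmy)
          (h.hR m hmn hmx hmy)
        refine ⟨g', hg', ?_⟩
        intro v hv h1 h2 hd
        exact absurd ⟨v, hv, h1, h2, hd⟩ hp
    obtain ⟨g', hD, hpar⟩ := hval
    refine ⟨fun w => if w = m then g' else g w, ?_, ?_⟩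
    · intro w hw h1 h2
      show C.D _ _ _ _ _ (if w = m then g' else g w)
      by_cases hwm : w = m
      · rw [if_pos hwm, hwm]
        exact hD
      · rw [if_neg hwm]
        exact hg1 w (by omega) h1 h2
    · intro v w hv hw h1 h2 h3 h4 hvw hd
      show C.Tri _ (if v = m then g' else g v) (if w = m then g' else g w)
      have hlt : v < w := dlt_of_old_true s v w (by omega) (by omega) hvw (C.dn_old _ hd)
      rw [if_neg (by omega : ¬ v = m)]
      by_cases hwm : w = m
      · rw [if_pos hwm, hwm]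
        rw [hwm] at hd
        exact hpar v (by omega) h1 h2 hd
      · rw [if_neg hwm]
        exact hg2 v w (by omega) (by omega) h1 h2 h3 h4 hvw hd

/-- The newborn has a good row. -/
theorem exists_rowD {n : ℕ} {s : DState C n} {x y : ℕ} {a b : ZMod 6}
    (h : DDirect C n s x y a b) : ∃ g : ℕ → T, DRow C n s g ∧
      g x = C.gx (s.1.1 x y) a b ∧ g y = C.gy (s.1.1 x y) a b := by
  classical
  obtain ⟨g0, hg1, hg2⟩ := exists_partial_rowD h n (le_refl n)
  obtain ⟨⟨t, l⟩, hflip, hold, hla, hl2, htri, hpar⟩ := s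
  obtain ⟨hx, hy, hxy, hlx, hly, hl, hf, hw, hR⟩ := h
  simp only at hf hw hR hlx hly hl hg1 hg2 hflip hold hla hl2 htri hpar ⊢
  have hlf : ∀ i j, i < n → j < n → i ≠ j → C.la (C.flip (t i j)) = l j := by
    intro i j hi hj hij
    rw [← hflip i j hi hj hij]
    exact hla j i hj hi (Ne.symm hij)
  let g : ℕ → T := fun w => if w = x then C.gx (t x y) a b else
    if w = y then C.gy (t x y) a b else g0 w
  have ex : g x = C.gx (t x y) a b := by simp only [g, if_true]
  have ey : g y = C.gy (t x y) a b := by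
    show (if y = x then C.gx (t x y) a b else if y = y then C.gy (t x y) a b else g0 y) = _
    rw [if_neg (Ne.symm hxy), if_pos rfl]
  have ew : ∀ w, w ≠ x → w ≠ y → g w = g0 w := by
    intro w h1 h2
    simp only [g]; rw [if_neg h1, if_neg h2]
  have hT : ∀ w, w < n → w ≠ x → w ≠ y → C.Tri (t x y) (t x w) (t y w) := fun w h1 h2 h3 =>
    htri x y w hx hy h1 hxy (Ne.symm h3) (Ne.symm h2)
  have hok : ∀ w, w < n → w ≠ x → w ≠ y →
      C.old (g0 w) = true ∧ C.la (g0 w) = C.la (C.flip (t x w)) ∧ C.la (C.flip (g0 w)) = 2 ∧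
      C.Tri (t x w) (C.gx (t x y) a b) (g0 w) ∧ C.Tri (t y w) (C.gy (t x y) a b) (g0 w) :=
    fun w h1 h2 h3 => C.D_ok _ _ _ hlx hly hl hf _ _ (hT w h1 h2 h3) (hw w h1 h2 h3)
      (hR w h1 h2 h3) _ (hg1 w h1 h2 h3)
  have swap : ∀ i j, i < n → j < n → i ≠ j →
      C.Tri (t i j) (g i) (g j) → C.Tri (t j i) (g j) (g i) := by
    intro i j h1 h2 h3 h4
    have h5 : t j i = C.flip (t i j) := hflip i j h1 h2 h3
    rw [h5]
    exact C.tri_swap12 _ _ _ h4
  have hxy' : C.Tri (t x y) (g x) (g y) := by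
    rw [ex, ey]
    exact C.tri_new _ _ _ hlx hly hl hf
  have hxw : ∀ w, w < n → w ≠ x → w ≠ y → C.Tri (t x w) (g x) (g w) := by
    intro w h1 h2 h3
    rw [ex, ew w h2 h3]
    exact (hok w h1 h2 h3).2.2.2.1
  have hyw : ∀ w, w < n → w ≠ x → w ≠ y → C.Tri (t y w) (g y) (g w) := by
    intro w h1 h2 h3
    rw [ey, ew w h2 h3]
    exact (hok w h1 h2 h3).2.2.2.2
  have hww : ∀ i j, i < n → j < n → i ≠ j → i ≠ x → i ≠ y → j ≠ x → j ≠ y →
      C.Tri (t i j) (g i) (g j) := by
    intro i j hi hj hij hix hiy hjx hjy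
    by_cases hd : C.dn (t i j) = true
    · rw [ew i hix hiy, ew j hjx hjy]
      exact hg2 i j hi hj hix hiy hjx hjy hij hd
    · by_cases hd' : C.dn (t j i) = true
      · refine swap j i hj hi (Ne.symm hij) ?_
        rw [ew i hix hiy, ew j hjx hjy]
        exact hg2 j i hj hi hjx hjy hix hiy (Ne.symm hij) hd'
      · rw [ew i hix hiy, ew j hjx hjy]
        refine C.box _ _ _ hlx hly hl hf _ _ _ _ _ (hT i hi hix hiy) (hT j hj hjx hjy)
          (htri x i j hx hi hj (Ne.symm hix) hij (Ne.symm hjx))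
          (htri y i j hy hi hj (Ne.symm hiy) hij (Ne.symm hjy))
          (hw i hi hix hiy) (hw j hj hjx hjy) (hR i hi hix hiy) (hR j hj hjx hjy)
          (by simpa using hd) ?_ _ _ (hg1 i hi hix hiy) (hg1 j hj hjx hjy)
        rw [← hflip i j hi hj hij]
        simpa using hd'
  refine ⟨g, ⟨?_, ?_, ?_, ?_, ?_⟩, ex, ey⟩
  · intro i j hi hj hij
    show C.Tri (t i j) (g i) (g j)
    by_cases hix : i = x
    · rw [hix] at hij ⊢
      by_cases hjy : j = y
      · rw [hjy]; exact hxy'
      · exact hxw j hj (Ne.symm hij) hjy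
    · by_cases hiy : i = y
      · rw [hiy] at hij ⊢
        by_cases hjx : j = x
        · rw [hjx] at hij ⊢
          exact swap _ _ hx hy (Ne.symm hij) hxy'
        · exact hyw j hj hjx (Ne.symm hij)
      · by_cases hjx : j = x
        · rw [hjx] at hij ⊢
          exact swap _ _ hx hi (Ne.symm hij) (hxw i hi hix hiy)
        · by_cases hjy : j = y
          · rw [hjy] at hij ⊢
            exact swap _ _ hy hi (Ne.symm hij) (hyw i hi hix hiy)
          · exact hww i j hi hj hij hix hiy hjx hjy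
  · intro w h1
    by_cases h2 : w = x
    · rw [h2, ex]; exact (C.gx_ok _ _ _ hlx hly hl hf).2.1
    · by_cases h3 : w = y
      · rw [h3, ey]; exact (C.gy_ok _ _ _ hlx hly hl hf).2.1
      · rw [ew w h2 h3]; exact (hok w h1 h2 h3).1
  · intro w h1
    show C.la (g w) = l w
    by_cases h2 : w = x
    · rw [h2, ex, (C.gx_ok _ _ _ hlx hly hl hf).2.2.1]
      exact hla _ _ hx hy hxy
    · by_cases h3 : w = y
      · rw [h3, ey, (C.gy_ok _ _ _ hlx hly hl hf).2.2.1]
        exact hlf _ _ hx hy hxy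
      · rw [ew w h2 h3, (hok w h1 h2 h3).2.1]
        exact hlf _ _ hx h1 (Ne.symm h2)
  · intro w h1
    by_cases h2 : w = x
    · rw [h2, ex]; exact (C.gx_ok _ _ _ hlx hly hl hf).2.2.2
    · by_cases h3 : w = y
      · rw [h3, ey]; exact (C.gy_ok _ _ _ hlx hly hl hf).2.2.2
      · rw [ew w h2 h3]; exact (hok w h1 h2 h3).2.2.1
  · -- at most two parents
    have two : ∀ i j, i < n → j < n → i ≠ j → i ≠ x → i ≠ y → j ≠ x → j ≠ y →
        C.dn (g i) = true → C.dn (g j) = true → False := by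
      intro i j hi hj hij hix hiy hjx hjy hdi hdj
      rw [ew i hix hiy] at hdi
      rw [ew j hjx hjy] at hdj
      exact C.par_one _ _ _ hlx hly hl hf _ _ _ _ _ (hT i hi hix hiy) (hT j hj hjx hjy)
        (htri x i j hx hi hj (Ne.symm hix) hij (Ne.symm hjx))
        (htri y i j hy hi hj (Ne.symm hiy) hij (Ne.symm hjy))
        (hw i hi hix hiy) (hw j hj hjx hjy) (hR i hi hix hiy) (hR j hj hjx hjy)
        _ _ (hg1 i hi hix hiy) (hg1 j hj hjx hjy) hdi hdj
    have xy : ∀ i, i < n → i ≠ x → i ≠ y → C.dn (g x) = true → C.dn (g y) = true →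
        C.dn (g i) = true → False := by
      intro i hi hix hiy h1 h2 h3
      rw [ex] at h1
      rw [ey] at h2
      rw [ew i hix hiy] at h3
      have h4 := C.par_two _ _ _ hlx hly hl hf h1 h2 _ _ (hT i hi hix hiy) (hw i hi hix hiy)
        (hR i hi hix hiy) _ (hg1 i hi hix hiy)
      rw [h3] at h4
      exact absurd h4 (by decide)
    intro u v z hu hv hz huv hvz huz du dv dz
    by_cases ux : u = x
    · by_cases vy : v = y
      · exact xy z hz (by omega) (by omega) (ux ▸ du) (vy ▸ dv) dz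
      · by_cases zy : z = y
        · exact xy v hv (by omega) (by omega) (ux ▸ du) (zy ▸ dz) dv
        · exact two v z hv hz hvz (by omega) vy (by omega) zy dv dz
    by_cases uy : u = y
    · by_cases vx : v = x
      · exact xy z hz (by omega) (by omega) (vx ▸ dv) (uy ▸ du) dz
      · by_cases zx : z = x
        · exact xy v hv (by omega) (by omega) (zx ▸ dz) (uy ▸ du) dv
        · exact two v z hv hz hvz vx (by omega) zx (by omega) dv dz
    by_cases vx : v = x
    · by_cases zy : z = y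
      · exact xy u hu ux uy (vx ▸ dv) (zy ▸ dz) du
      · exact two u z hu hz huz ux uy (by omega) zy du dz
    by_cases vy : v = y
    · by_cases zx : z = x
      · exact xy u hu ux uy (zx ▸ dz) (vy ▸ dv) du
      · exact two u z hu hz huz ux uy zx (by omega) du dz
    exact two u v hu hv huv ux uy vx vy du dv

/-- The extended state. -/
def dextS {n : ℕ} {s : DState C n} {g : ℕ → T} (h : DRow C n s g) : DState C (n + 1) := by
  refine ⟨⟨dextT C s.1.1 n g, dextL s.1.2 n⟩, ?_, ?_, ?_, ?_, ?_, ?_⟩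
  · intro i j hi hj hij
    show dextT C s.1.1 n g j i = C.flip (dextT C s.1.1 n g i j)
    by_cases h1 : i = n
    · subst h1
      have hj' : j < i := by omega
      rw [dextT_new, dextT_new' _ _ _ _ _ hj', C.flip_flip]
    · by_cases h2 : j = n
      · subst h2
        have hi' : i < j := by omega
        rw [dextT_new, dextT_new' _ _ _ _ _ hi']
      · rw [dextT_old _ _ _ _ _ _ (by omega) (by omega),
          dextT_old _ _ _ _ _ _ (by omega) (by omega)]
        exact s.2.1 i j (by omega) (by omega) hij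
  · intro i j hi hj hij
    show C.old (dextT C s.1.1 n g i j) = true ↔ i < j
    by_cases h1 : i = n
    · subst h1
      have hj' : j < i := by omega
      rw [dextT_new' _ _ _ _ _ hj', C.old_flip, h.old j hj']
      constructor
      · intro hc; exact absurd hc (by decide)
      · intro hc; omega
    · by_cases h2 : j = n
      · subst h2
        have hi' : i < j := by omega
        rw [dextT_new, h.old i hi']
        exact ⟨fun _ => hi', fun _ => rfl⟩
      · rw [dextT_old _ _ _ _ _ _ (by omega) (by omega)]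
        exact s.2.2.1 i j (by omega) (by omega) hij
  · intro i j hi hj hij
    show C.la (dextT C s.1.1 n g i j) = dextL s.1.2 n i
    by_cases h1 : i = n
    · subst h1
      have hj' : j < i := by omega
      rw [dextT_new' _ _ _ _ _ hj', h.la' j hj']
      unfold dextL
      rw [if_pos rfl]
    · have e : dextL s.1.2 n i = s.1.2 i := by unfold dextL; rw [if_neg h1]
      rw [e]
      by_cases h2 : j = n
      · subst h2
        have hi' : i < j := by omega
        rw [dextT_new]
        exact h.la i hi'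
      · rw [dextT_old _ _ _ _ _ _ (by omega) (by omega)]
        exact s.2.2.2.1 i j (by omega) (by omega) hij
  · intro i hi
    show dextL s.1.2 n i ≤ 2
    unfold dextL
    split_ifs with h1
    · exact le_refl 2
    · exact s.2.2.2.2.1 i (by omega)
  · intro i j k hi hj hk hij hjk hik
    show C.Tri (dextT C s.1.1 n g i j) (dextT C s.1.1 n g i k)
      (dextT C s.1.1 n g j k)
    by_cases h1 : k = n
    · subst h1
      have hi' : i < k := by omega
      have hj' : j < k := by omega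
      rw [dextT_new, dextT_new, dextT_old _ _ _ _ _ _ hi' hj']
      exact h.tri i j hi' hj' hij
    · have hk' : k < n := by omega
      by_cases h2 : j = n
      · subst h2
        have hi' : i < j := by omega
        rw [dextT_new, dextT_new' _ _ _ _ _ hk', dextT_old _ _ _ _ _ _ hi' hk']
        exact C.tri_swap23 _ _ _ (h.tri i k hi' hk' hik)
      · have hj' : j < n := by omega
        by_cases h3 : i = n
        · subst h3
          rw [dextT_new' _ _ _ _ _ hj', dextT_new' _ _ _ _ _ hk',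
            dextT_old _ _ _ _ _ _ hj' hk']
          have h4 := C.tri_swap23 _ _ _ (h.tri j k hj' hk' hjk)
          exact C.tri_swap12 _ _ _ h4 |> C.tri_swap23 _ _ _ |> fun h => by
            simpa [C.flip_flip] using C.tri_swap23 _ _ _ h
        · have hi' : i < n := by omega
          rw [dextT_old _ _ _ _ _ _ hi' hj', dextT_old _ _ _ _ _ _ hi' hk',
            dextT_old _ _ _ _ _ _ hj' hk']
          exact s.2.2.2.2.2.1 i j k hi' hj' hk' hij hjk hik
  · have nopar : ∀ w, w < n → C.dn (C.flip (g w)) = true → False := by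
      intro w hw hd
      have h1 := C.dn_old _ hd
      rw [C.old_flip, h.old w hw] at h1
      exact absurd h1 (by decide)
    intro w u v z hw hu hv hz hwu hwv hwz huv hvz huz du dv dz
    have du' : C.dn (dextT C s.1.1 n g u w) = true := du
    have dv' : C.dn (dextT C s.1.1 n g v w) = true := dv
    have dz' : C.dn (dextT C s.1.1 n g z w) = true := dz
    by_cases h1 : w = n
    · rw [h1] at du' dv' dz' hwu hwv hwz
      rw [dextT_new] at du' dv' dz'
      exact h.par u v z (by omega) (by omega) (by omega) huv hvz huz du' dv' dz'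
    · have hw' : w < n := by omega
      have hlt : ∀ i, i < n + 1 → C.dn (dextT C s.1.1 n g i w) = true → i < n := by
        intro i hi hd
        by_contra hc
        have hin : i = n := by omega
        rw [hin, dextT_new' _ _ _ _ _ hw'] at hd
        exact nopar w hw' hd
      have u1 := hlt u hu du'
      have v1 := hlt v hv dv'
      have z1 := hlt z hz dz'
      rw [dextT_old _ _ _ _ _ _ u1 hw'] at du'
      rw [dextT_old _ _ _ _ _ _ v1 hw'] at dv'
      rw [dextT_old _ _ _ _ _ _ z1 hw'] at dz'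
      exact s.2.2.2.2.2.2 w u v z hw' u1 v1 z1 hwu hwv hwz huv hvz huz du' dv' dz'

/-- `s'` extends `s` by vertices of level 2. -/
def DExt {n m : ℕ} (s : DState C n) (s' : DState C m) : Prop :=
  n ≤ m ∧ (∀ i j, i < n → j < n → i ≠ j → s'.1.1 i j = s.1.1 i j) ∧
    (∀ i, i < n → s'.1.2 i = s.1.2 i) ∧ ∀ i, n ≤ i → i < m → s'.1.2 i = 2

theorem DExt.refl {n : ℕ} (s : DState C n) : DExt s s :=
  ⟨le_refl n, fun _ _ _ _ _ => rfl, fun _ _ => rfl, fun i h1 h2 => by omega⟩

theorem DExt.trans {n m k : ℕ} {s : DState C n} {s' : DState C m} {s'' : DState C k}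
    (h : DExt s s') (h' : DExt s' s'') : DExt s s'' := by
  refine ⟨h.1.trans h'.1, ?_, ?_, ?_⟩
  · intro i j hi hj hij
    rw [h'.2.1 i j (lt_of_lt_of_le hi h.1) (lt_of_lt_of_le hj h.1) hij, h.2.1 i j hi hj hij]
  · intro i hi
    rw [h'.2.2.1 i (lt_of_lt_of_le hi h.1), h.2.2.1 i hi]
  · intro i h1 h2
    by_cases h3 : i < m
    · rw [h'.2.2.1 i h3]
      exact h.2.2.2 i h1 h3
    · exact h'.2.2.2 i (by omega) h2

/-- The request is served in the state. -/
def DServed {n : ℕ} (s : DState C n) (x y : ℕ) (a b : ZMod 6) : Prop :=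
  ∃ w, w < n ∧ w ≠ x ∧ w ≠ y ∧ C.col (s.1.1 x w) = a ∧ C.col (s.1.1 y w) = b

theorem DServed.ext {n m : ℕ} {s : DState C n} {s' : DState C m} (h : DExt s s') {x y : ℕ}
    {a b : ZMod 6} (hx : x < n) (hy : y < n) (hs : DServed s x y a b) : DServed s' x y a b := by
  obtain ⟨w, hw, hwx, hwy, h1, h2⟩ := hs
  refine ⟨w, lt_of_lt_of_le hw h.1, hwx, hwy, ?_, ?_⟩
  · rw [h.2.1 x w hx hw (Ne.symm hwx)]; exact h1
  · rw [h.2.1 y w hy hw (Ne.symm hwy)]; exact h2

/-- All requests at pairs of level 0 are served. -/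
def DZero {n : ℕ} (s : DState C n) : Prop :=
  ∀ x y a b, x < n → y < n → x ≠ y → s.1.2 x = 0 → s.1.2 y = 0 →
    ¬ Forbidden (C.col (s.1.1 x y)) a b → DServed s x y a b

theorem DZero.ext {n m : ℕ} {s : DState C n} {s' : DState C m} (h : DExt s s') (hz : DZero s) :
    DZero s' := by
  intro x y a b hx hy hxy h1 h2 hf
  have hx' : x < n := by
    by_contra hc
    rw [h.2.2.2 x (by omega) hx] at h1
    exact absurd h1 (by decide)
  have hy' : y < n := by
    by_contra hc
    rw [h.2.2.2 y (by omega) hy] at h2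
    exact absurd h2 (by decide)
  rw [h.2.2.1 x hx'] at h1
  rw [h.2.2.1 y hy'] at h2
  rw [h.2.1 x y hx' hy' hxy] at hf
  exact (hz x y a b hx' hy' hxy h1 h2 hf).ext h hx' hy'

/-- Every request at a pair of level at most 1 is served in an extension. -/
theorem dserve (k : ℕ) : ∀ (l : ℕ) (n : ℕ) (s : DState C n) (x y : ℕ) (a b : ZMod 6),
    DZero s → x < n → y < n → x ≠ y → s.1.2 x ≤ 1 → s.1.2 y ≤ 1 →
    ¬ Forbidden (C.col (s.1.1 x y)) a b →
    C.rk (s.1.1 x y) a b = k → x + y = l →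
    ∃ m, ∃ s' : DState C m, DExt s s' ∧ DServed s' x y a b := by
  induction k using Nat.strong_induction_on with
  | _ k ihk =>
  intro l
  induction l using Nat.strong_induction_on with
  | _ l ihl =>
  intro n s x y a b hz hx hy hxy hlx hly hf hrk hl
  by_cases hs : DServed s x y a b
  · exact ⟨n, s, DExt.refl s, hs⟩
  have hlev : 1 ≤ s.1.2 x + s.1.2 y := by
    by_contra hc
    exact hs (hz x y a b hx hy hxy (by omega) (by omega) hf)
  have a1 : C.la (s.1.1 x y) ≤ 1 := by rw [s.2.2.2.1 x y hx hy hxy]; exact hlx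
  have a2 : C.la (C.flip (s.1.1 x y)) ≤ 1 := by rw [dla_flip s x y hx hy hxy]; exact hly
  have a3 : 1 ≤ C.la (s.1.1 x y) + C.la (C.flip (s.1.1 x y)) := by
    rw [s.2.2.2.1 x y hx hy hxy, dla_flip s x y hx hy hxy]; exact hlev
  by_cases hR : ∃ w, w < n ∧ w ≠ x ∧ w ≠ y ∧
      C.R (s.1.1 x y) a b (s.1.1 x w) (s.1.1 y w) ≠ none
  · obtain ⟨w, hw, hwx, hwy, hR⟩ := hR
    have htri := s.2.2.2.2.2.1 x y w hx hy hw hxy (Ne.symm hwy) (Ne.symm hwx)
    have hcases : ∃ side c, C.R (s.1.1 x y) a b (s.1.1 x w) (s.1.1 y w) = some (side, c) := by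
      cases hr : C.R (s.1.1 x y) a b (s.1.1 x w) (s.1.1 y w) with
      | none => exact absurd hr hR
      | some v => exact ⟨v.1, v.2, rfl⟩
    obtain ⟨side, c, hr⟩ := hcases
    cases side with
    | false =>
      obtain ⟨h1, h2, h5, h3, h4⟩ := C.red_x _ _ _ a1 a2 a3 hf _ _ _ htri hr
      have hlw : s.1.2 w ≤ 1 := by
        rw [← dla_flip s x w hx hw (Ne.symm hwx)]; exact h5
      have ih : ∃ m, ∃ s' : DState C m, DExt s s' ∧ DServed s' x w a c := by
        rcases h3 with h3 | h3 | ⟨h3, h3'⟩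
        · refine ⟨n, s, DExt.refl s, hz x w a c hx hw (Ne.symm hwx) ?_ ?_ h1⟩
          · rw [← s.2.2.2.1 x w hx hw (Ne.symm hwx)]; omega
          · rw [← dla_flip s x w hx hw (Ne.symm hwx)]; omega
        · exact ihk _ (by omega) _ n s x w a c hz hx hw (Ne.symm hwx) hlx hlw h1 rfl rfl
        · have hlt := dlt_of_old_false s y w hy hw (Ne.symm hwy) h3'
          exact ihl (x + w) (by omega) n s x w a c hz hx hw (Ne.symm hwx) hlx hlw h1
            (by omega) rfl
      obtain ⟨m, s', hext, u, hu, hux, huw, hc1, hc2⟩ := ih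
      have huy : u ≠ y := by
        rintro rfl
        apply h2
        rw [hext.2.1 x u hx hy hxy] at hc1
        rw [hext.2.1 w u hw hy hwy] at hc2
        refine ⟨hc1, ?_⟩
        rw [s.2.1 w u hw hy hwy, C.col_flip]
        exact hc2
      refine ⟨m, s', hext, u, hu, hux, huy, hc1, ?_⟩
      have hx' : x < m := lt_of_lt_of_le hx hext.1
      have hy' : y < m := lt_of_lt_of_le hy hext.1
      have hw' : w < m := lt_of_lt_of_le hw hext.1
      refine h4 (s'.1.1 x u) (s'.1.1 y u) (s'.1.1 w u) ?_ ?_ ?_ hc1 hc2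
      · rw [← hext.2.1 x y hx hy hxy]
        exact s'.2.2.2.2.2.1 x y u hx' hy' hu hxy (Ne.symm huy) (Ne.symm hux)
      · rw [← hext.2.1 x w hx hw (Ne.symm hwx)]
        exact s'.2.2.2.2.2.1 x w u hx' hw' hu (Ne.symm hwx) (Ne.symm huw) (Ne.symm hux)
      · rw [← hext.2.1 y w hy hw (Ne.symm hwy)]
        exact s'.2.2.2.2.2.1 y w u hy' hw' hu (Ne.symm hwy) (Ne.symm huw) (Ne.symm huy)
    | true =>
      obtain ⟨h1, h2, h5, h3, h4⟩ := C.red_y _ _ _ a1 a2 a3 hf _ _ _ htri hr
      have hlw : s.1.2 w ≤ 1 := by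
        rw [← dla_flip s y w hy hw (Ne.symm hwy)]; exact h5
      have hwyt : s.1.1 w y = C.flip (s.1.1 y w) := s.2.1 y w hy hw (Ne.symm hwy)
      have hcol : C.col (s.1.1 w y) = C.col (s.1.1 y w) := by rw [hwyt, C.col_flip]
      have h1' : ¬ Forbidden (C.col (s.1.1 w y)) c b := by rw [hcol]; exact h1
      have ih : ∃ m, ∃ s' : DState C m, DExt s s' ∧ DServed s' w y c b := by
        rcases h3 with h3 | h3 | ⟨h3, h3'⟩
        · refine ⟨n, s, DExt.refl s, hz w y c b hw hy hwy ?_ ?_ h1'⟩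
          · rw [← dla_flip s y w hy hw (Ne.symm hwy)]; omega
          · rw [← s.2.2.2.1 y w hy hw (Ne.symm hwy)]; omega
        · rw [← hwyt] at h3
          exact ihk _ (by omega) _ n s w y c b hz hw hy hwy hlw hly h1' rfl rfl
        · have hlt := dlt_of_old_false s x w hx hw (Ne.symm hwx) h3'
          rw [← hwyt] at h3
          exact ihl (w + y) (by omega) n s w y c b hz hw hy hwy hlw hly h1' (by omega) rfl
      obtain ⟨m, s', hext, u, hu, huw, huy, hc1, hc2⟩ := ih
      have hux : u ≠ x := by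
        rintro rfl
        apply h2
        rw [hext.2.1 w u hw hx hwx] at hc1
        rw [hext.2.1 y u hy hx (Ne.symm hxy)] at hc2
        refine ⟨?_, ?_⟩
        · rw [s.2.1 w u hw hx hwx, C.col_flip]
          exact hc1
        · rw [s.2.1 y u hy hx (Ne.symm hxy), C.col_flip]
          exact hc2
      refine ⟨m, s', hext, u, hu, hux, huy, ?_, hc2⟩
      have hx' : x < m := lt_of_lt_of_le hx hext.1
      have hy' : y < m := lt_of_lt_of_le hy hext.1
      have hw' : w < m := lt_of_lt_of_le hw hext.1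
      refine h4 (s'.1.1 x u) (s'.1.1 y u) (s'.1.1 w u) ?_ ?_ ?_ hc2 hc1
      · rw [← hext.2.1 x y hx hy hxy]
        exact s'.2.2.2.2.2.1 x y u hx' hy' hu hxy (Ne.symm huy) (Ne.symm hux)
      · rw [← hext.2.1 x w hx hw (Ne.symm hwx)]
        exact s'.2.2.2.2.2.1 x w u hx' hw' hu (Ne.symm hwx) (Ne.symm huw) (Ne.symm hux)
      · rw [← hext.2.1 y w hy hw (Ne.symm hwy)]
        exact s'.2.2.2.2.2.1 y w u hy' hw' hu (Ne.symm hwy) (Ne.symm huw) (Ne.symm huy)
  have hD : DDirect C n s x y a b := by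
    refine ⟨hx, hy, hxy, a1, a2, a3, hf, ?_, ?_⟩
    · intro w h1 h2 h3 h4
      exact hs ⟨w, h1, h2, h3, h4.1, h4.2⟩
    · intro w h1 h2 h3
      by_contra hc
      exact hR ⟨w, h1, h2, h3, hc⟩
  obtain ⟨g, hg, hgx, hgy⟩ := exists_rowD hD
  refine ⟨n + 1, dextS hg, ⟨Nat.le_succ n, ?_, ?_, ?_⟩, n, Nat.lt_succ_self n, by omega,
    by omega, ?_, ?_⟩
  · intro i j hi hj _
    show dextT C s.1.1 n g i j = s.1.1 i j
    exact dextT_old _ _ _ _ _ _ hi hj
  · intro i hi
    show dextL s.1.2 n i = s.1.2 i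
    unfold dextL
    rw [if_neg (by omega)]
  · intro i h1 h2
    show dextL s.1.2 n i = 2
    unfold dextL
    rw [if_pos (by omega)]
  · show C.col (dextT C s.1.1 n g x n) = a
    rw [dextT_new, hgx]
    exact (C.gx_ok _ _ _ a1 a2 a3 hf).1
  · show C.col (dextT C s.1.1 n g y n) = b
    rw [dextT_new, hgy]
    exact (C.gy_ok _ _ _ a1 a2 a3 hf).1

/-- One pass over a list of requests. -/
theorem dserve_list : ∀ (L : List ((ℕ × ℕ) × (ZMod 6 × ZMod 6))) (n : ℕ) (s : DState C n),
    DZero s → ∀ n0, n0 ≤ n → (∀ i, i < n0 → s.1.2 i ≤ 1) →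
    ∃ m, ∃ s' : DState C m, DExt s s' ∧ ∀ r ∈ L, r.1.1 < n0 → r.1.2 < n0 → r.1.1 ≠ r.1.2 →
      ¬ Forbidden (C.col (s.1.1 r.1.1 r.1.2)) r.2.1 r.2.2 →
      DServed s' r.1.1 r.1.2 r.2.1 r.2.2 := by
  intro L
  induction L with
  | nil => intro n s _ n0 _ _; exact ⟨n, s, DExt.refl s, fun r hr => absurd hr (by simp)⟩
  | cons r L ih =>
    intro n s hz n0 hn0 hlev
    by_cases hr : r.1.1 < n0 ∧ r.1.2 < n0 ∧ r.1.1 ≠ r.1.2 ∧
        ¬ Forbidden (C.col (s.1.1 r.1.1 r.1.2)) r.2.1 r.2.2
    · obtain ⟨h1, h2, h3, h4⟩ := hr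
      have h1' : r.1.1 < n := lt_of_lt_of_le h1 hn0
      have h2' : r.1.2 < n := lt_of_lt_of_le h2 hn0
      obtain ⟨m, s', hext, hsv⟩ := dserve _ _ n s r.1.1 r.1.2 r.2.1 r.2.2 hz h1' h2' h3
        (hlev _ h1) (hlev _ h2) h4 rfl rfl
      obtain ⟨m', s'', hext', hsv'⟩ := ih m s' (hz.ext hext) n0 (hn0.trans hext.1)
        (fun i hi => by rw [hext.2.2.1 i (lt_of_lt_of_le hi hn0)]; exact hlev i hi)
      refine ⟨m', s'', hext.trans hext', ?_⟩
      intro r' hr' g1 g2 g3 g4
      have g1' : r'.1.1 < n := lt_of_lt_of_le g1 hn0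
      have g2' : r'.1.2 < n := lt_of_lt_of_le g2 hn0
      rcases List.mem_cons.mp hr' with h | h
      · subst h
        exact hsv.ext hext' (lt_of_lt_of_le h1' hext.1) (lt_of_lt_of_le h2' hext.1)
      · exact hsv' r' h g1 g2 g3 (by rw [hext.2.1 _ _ g1' g2' g3]; exact g4)
    · obtain ⟨m', s'', hext', hsv'⟩ := ih n s hz n0 hn0 hlev
      refine ⟨m', s'', hext', ?_⟩
      intro r' hr' g1 g2 g3 g4
      rcases List.mem_cons.mp hr' with h | h
      · subst h
        exact absurd ⟨g1, g2, g3, g4⟩ hr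
      · exact hsv' r' h g1 g2 g3 g4

/-- The promoted state. -/
def dpromote {n : ℕ} (s : DState C n) : DState C n := by
  refine ⟨⟨fun i j => C.pr (s.1.1 i j), fun i => plev (s.1.2 i)⟩, ?_, ?_, ?_, ?_, ?_, ?_⟩
  · intro i j hi hj hij
    show C.pr (s.1.1 j i) = C.flip (C.pr (s.1.1 i j))
    rw [s.2.1 i j hi hj hij, C.pr_flip]
  · intro i j hi hj hij
    show C.old (C.pr (s.1.1 i j)) = true ↔ i < j
    rw [C.pr_old]
    exact s.2.2.1 i j hi hj hij
  · intro i j hi hj hij
    show C.la (C.pr (s.1.1 i j)) = plev (s.1.2 i)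
    have h := s.2.2.2.1 i j hi hj hij
    rw [C.pr_la _ (by rw [h]; exact s.2.2.2.2.1 i hi), h]
  · intro i hi
    show plev (s.1.2 i) ≤ 2
    exact (plev_le _ (s.2.2.2.2.1 i hi)).trans (by decide)
  · intro i j k hi hj hk hij hjk hik
    exact C.pr_tri _ _ _ (s.2.2.2.2.2.1 i j k hi hj hk hij hjk hik)
  · intro w u v z hw hu hv hz hwu hwv hwz huv hvz huz du dv dz
    have du' : C.dn (C.pr (s.1.1 u w)) = true := du
    have dv' : C.dn (C.pr (s.1.1 v w)) = true := dv
    have dz' : C.dn (C.pr (s.1.1 z w)) = true := dz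
    rw [C.pr_dn] at du' dv' dz'
    exact s.2.2.2.2.2.2 w u v z hw hu hv hz hwu hwv hwz huv hvz huz du' dv' dz'

/-- The closed stage states. -/
def DStage (C : DGen T) (n : ℕ) : Type :=
  {s : DState C n // DZero s ∧ ∀ i, i < n → s.1.2 i ≤ 1}

theorem dstageClass (C : DGen T) :
    StepClass3 (DStage C) (fun {n} (s : DStage C n) i j => C.col (s.1.1.1 i j)) where
  symm := by
    intro n s i j hi hj hij
    show C.col (s.1.1.1 i j) = C.col (s.1.1.1 j i)
    rw [s.1.2.1 i j hi hj hij, C.col_flip]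
  no_forb := by
    intro n s i j k hi hj hk hij hjk hik
    exact C.tri_ok _ _ _ (s.1.2.2.2.2.2.1 i j k hi hj hk hij hjk hik)
  step := by
    intro n s x y a b hx hy hxy hf
    obtain ⟨s, hz, hlev⟩ := s
    obtain ⟨m, s', hext, hsv⟩ := dserve_list
      (((Finset.range n ×ˢ Finset.range n) ×ˢ ((Finset.univ : Finset (ZMod 6)) ×ˢ
        (Finset.univ : Finset (ZMod 6)))).toList) n s hz n (le_refl n) hlev
    have hall : ∀ x y a b, x < n → y < n → x ≠ y → ¬ Forbidden (C.col (s.1.1 x y)) a b →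
        DServed s' x y a b := by
      intro x y a b hx hy hxy hf
      refine hsv ((x, y), (a, b)) ?_ hx hy hxy hf
      simp [hx, hy]
    have hcolp : ∀ i j, C.col ((dpromote s').1.1 i j) = C.col (s'.1.1 i j) := fun i j =>
      C.pr_col _
    have hz' : DZero (dpromote s') := by
      intro x y a b hx hy hxy h1 h2 hf
      have e1 : s'.1.2 x ≤ 1 := plev_zero _ h1
      have e2 : s'.1.2 y ≤ 1 := plev_zero _ h2
      have hx' : x < n := by
        by_contra hc
        rw [hext.2.2.2 x (by omega) hx] at e1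
        exact absurd e1 (by decide)
      have hy' : y < n := by
        by_contra hc
        rw [hext.2.2.2 y (by omega) hy] at e2
        exact absurd e2 (by decide)
      rw [hcolp, hext.2.1 x y hx' hy' hxy] at hf
      obtain ⟨w, hw, hwx, hwy, g1, g2⟩ := hall x y a b hx' hy' hxy hf
      exact ⟨w, hw, hwx, hwy, by rw [hcolp]; exact g1, by rw [hcolp]; exact g2⟩
    refine ⟨m, hext.1, ⟨dpromote s', hz', fun i hi => plev_le _ (s'.2.2.2.2.1 i hi)⟩, ?_, ?_⟩
    · intro i j hi hj hij
      show C.col ((dpromote s').1.1 i j) = C.col (s.1.1 i j)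
      rw [hcolp, hext.2.1 i j hi hj hij]
    · obtain ⟨w, hw, hwx, hwy, g1, g2⟩ := hall x y a b hx hy hxy hf
      refine ⟨w, hw, hwx, hwy, ?_, ?_⟩
      · show C.col ((dpromote s').1.1 x w) = a
        rw [hcolp]; exact g1
      · show C.col ((dpromote s').1.1 w y) = b
        rw [hcolp, s'.2.1 y w (lt_of_lt_of_le hy hext.1) hw (Ne.symm hwy), C.col_flip]
        exact g2

end

/-- A forest certificate for the generation schedule gives a representation. `t0` is the type of
the first pair of vertices (both of level 1). -/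
theorem rep_of_dgen {T : Type} (C : DGen T) (t0 : T) (h0 : C.old t0 = true)
    (h1 : C.la t0 = 1) (h2 : C.la (C.flip t0) = 1) :
    ∃ (U : Type) (r : Set Atom → Set (U × U)), Nonempty U ∧ IsRepresentation U r := by
  refine rep_of_step3 (dstageClass C) 2 (le_refl 2)
    ⟨⟨⟨fun i j => if i < j then t0 else C.flip t0, fun _ => 1⟩, ?_, ?_, ?_, ?_, ?_, ?_⟩, ?_, ?_⟩
  · intro i j hi hj hij
    show (if j < i then t0 else C.flip t0) = C.flip (if i < j then t0 else C.flip t0)
    rcases lt_or_gt_of_ne hij with h | h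
    · rw [if_pos h, if_neg (by omega)]
    · rw [if_pos h, if_neg (by omega), C.flip_flip]
  · intro i j hi hj hij
    show C.old (if i < j then t0 else C.flip t0) = true ↔ i < j
    rcases lt_or_gt_of_ne hij with h | h
    · rw [if_pos h]
      exact ⟨fun _ => h, fun _ => h0⟩
    · rw [if_neg (by omega), C.old_flip, h0]
      constructor
      · intro hc; exact absurd hc (by decide)
      · intro hc; omega
  · intro i j hi hj hij
    show C.la (if i < j then t0 else C.flip t0) = 1
    split_ifs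
    · exact h1
    · exact h2
  · intro i hi
    show (1 : ℕ) ≤ 2
    decide
  · intro i j k hi hj hk hij hjk hik
    omega
  · intro w u v z hw hu hv hz hwu hwv hwz huv hvz huz
    omega
  · intro x y a b hx hy hxy g1 g2 hf
    exact absurd g1 (by show ¬ ((1 : ℕ) = 0); decide)
  · intro i hi
    show (1 : ℕ) ≤ 1
    exact le_refl 1

end Pool.Agent.CRQ
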