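import Pool.Agent.CRQ.Dag7

/-!
Worlds with at most two parents per vertex, with levels, without ages, for MP_cf0286_al: every request is served by its own data
(`DServe`), so the requests can be treated one by one and up to symmetry.
-/

namespace Pool.Agent.CRQ

open Pool.Agent.RA6

/-- A forest world: types of ordered pairs with levels (0 old, 1 newest complete generation,
2 being born), the flag `dn` (the first vertex is the tree parent of the second), the possible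
types `Edge`, the possible triangles `Tri`, the promotion `pr`. -/
structure DWorld (T : Type) where
  flip : T → T
  col : T → ZMod 6
  la : T → ℕ
  pr : T → T
  dn : T → Bool
  Edge : T → Prop
  Tri : T → T → T → Prop
  flip_flip : ∀ t, flip (flip t) = t
  col_flip : ∀ t, col (flip t) = col t
  edge_flip : ∀ t, Edge t → Edge (flip t)
  edge_pr : ∀ t, Edge t → Edge (pr t)
  pr_flip : ∀ t, Edge t → pr (flip t) = flip (pr t)
  pr_col : ∀ t, Edge t → col (pr t) = col t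
  pr_la : ∀ t, Edge t → la (pr t) = plev (la t)
  pr_dn : ∀ t, Edge t → dn (pr t) = dn t
  pr_tri : ∀ p q r, Tri p q r → Tri (pr p) (pr q) (pr r)
  dn_anti : ∀ t, Edge t → dn t = true → dn (flip t) = false
  tri_swap12 : ∀ p q r, Tri p q r → Tri (flip p) r q
  tri_swap23 : ∀ p q r, Tri p q r → Tri q p (flip r)
  tri_ok : ∀ p q r, Tri p q r → ¬ Forbidden (col p) (col r) (col q)

namespace DWorld

variable {T : Type} (W : DWorld T)

/-- Requests at pairs of this type are served now. -/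
def Now (t : T) : Prop := W.la t ≤ 1 ∧ W.la (W.flip t) ≤ 1 ∧ 1 ≤ W.la t + W.la (W.flip t)

/-- The request `(a, b)` at pairs `x, y` of type `t` can be served: the newborn `z` gets the types
`gx` (of `x, z`), `gy` (of `y, z`) and one of the types in `D p q` (of `w, z`, where `p` is the type
of `x, w` and `q` the type of `y, w`); if `R p q = some (false, c)`, the request `(a, c)` at `x, w`
is served instead, if `R p q = some (true, c)`, the request `(c, b)` at `w, y`; the new pair has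
smaller levels. -/
structure Rule (t : T) (a b : ZMod 6) where
  gx : T
  gy : T
  D : T → T → T → Prop
  R : T → T → Option (Bool × ZMod 6)
  gx_ok : W.Edge gx ∧ W.col gx = a ∧ W.la gx = W.la t ∧ W.la (W.flip gx) = 2 ∧
    W.dn (W.flip gx) = false
  gy_ok : W.Edge gy ∧ W.col gy = b ∧ W.la gy = W.la (W.flip t) ∧ W.la (W.flip gy) = 2 ∧
    W.dn (W.flip gy) = false
  tri_new : W.Tri t gx gy
  D_ne : ∀ p q, W.Edge p → W.Edge q → W.Tri t p q → ¬ (W.col p = a ∧ W.col q = b) →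
    R p q = none → ∃ g, D p q g
  D_ok : ∀ p q, W.Edge p → W.Edge q → W.Tri t p q → ¬ (W.col p = a ∧ W.col q = b) →
    R p q = none → ∀ g, D p q g →
    W.Edge g ∧ W.la g = W.la (W.flip p) ∧ W.la (W.flip g) = 2 ∧ W.dn (W.flip g) = false ∧
    W.Tri p gx g ∧ W.Tri q gy g
  box : ∀ p q p' q' u, W.Edge p → W.Edge q → W.Edge p' → W.Edge q' → W.Edge u →
    W.Tri t p q → W.Tri t p' q' → W.Tri p p' u → W.Tri q q' u →
    ¬ (W.col p = a ∧ W.col q = b) → ¬ (W.col p' = a ∧ W.col q' = b) →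
    R p q = none → R p' q' = none → W.dn u = false → W.dn (W.flip u) = false →
    ∀ g g', D p q g → D p' q' g' → W.Tri u g g'
  arc : ∀ p q p' q' u, W.Edge p → W.Edge q → W.Edge p' → W.Edge q' → W.Edge u →
    W.Tri t p q → W.Tri t p' q' → W.Tri p p' u → W.Tri q q' u →
    ¬ (W.col p = a ∧ W.col q = b) → ¬ (W.col p' = a ∧ W.col q' = b) →
    R p q = none → R p' q' = none → W.dn u = true →
    ∀ g, D p q g → ∃ g', D p' q' g' ∧ W.Tri u g g'
  arc2 : ∀ p q p' q' p'' q'' u u' v, W.Edge p → W.Edge q → W.Edge p' → W.Edge q' →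
    W.Edge p'' → W.Edge q'' → W.Edge u → W.Edge u' → W.Edge v →
    W.Tri t p q → W.Tri t p' q' → W.Tri t p'' q'' → W.Tri p p' v → W.Tri q q' v →
    W.Tri p p'' u → W.Tri q q'' u → W.Tri p' p'' u' → W.Tri q' q'' u' → W.Tri v u u' →
    ¬ (W.col p = a ∧ W.col q = b) → ¬ (W.col p' = a ∧ W.col q' = b) →
    ¬ (W.col p'' = a ∧ W.col q'' = b) →
    R p q = none → R p' q' = none → R p'' q'' = none →
    W.dn u = true → W.dn u' = true → ∀ g g', D p q g → D p' q' g' → W.Tri v g g' →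
    ∃ g'', D p'' q'' g'' ∧ W.Tri u g g'' ∧ W.Tri u' g' g''
  par_one : ∀ p q p' q' u, W.Edge p → W.Edge q → W.Edge p' → W.Edge q' → W.Edge u →
    W.Tri t p q → W.Tri t p' q' → W.Tri p p' u → W.Tri q q' u →
    ¬ (W.col p = a ∧ W.col q = b) → ¬ (W.col p' = a ∧ W.col q' = b) →
    R p q = none → R p' q' = none → ∀ g g', D p q g → D p' q' g' →
    W.dn g = true → W.dn g' = true → False
  par_two : W.dn gx = true → W.dn gy = true → ∀ p q, W.Edge p → W.Edge q → W.Tri t p q →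
    ¬ (W.col p = a ∧ W.col q = b) → R p q = none → ∀ g, D p q g → W.dn g = false
  red_x : ∀ p q c, W.Edge p → W.Edge q → W.Tri t p q → R p q = some (false, c) →
    ¬ Forbidden (W.col p) a c ∧ ¬ (W.col t = a ∧ W.col q = c) ∧
    W.la p + W.la (W.flip p) < W.la t + W.la (W.flip t) ∧
    ∀ p' q' v, W.Edge p' → W.Edge q' → W.Edge v → W.Tri t p' q' → W.Tri p p' v →
      W.Tri q q' v → W.col p' = a → W.col v = c → W.col q' = b
  red_y : ∀ p q c, W.Edge p → W.Edge q → W.Tri t p q → R p q = some (true, c) →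
    ¬ Forbidden (W.col q) c b ∧ ¬ (W.col p = c ∧ W.col t = b) ∧
    W.la q + W.la (W.flip q) < W.la t + W.la (W.flip t) ∧
    ∀ p' q' v, W.Edge p' → W.Edge q' → W.Edge v → W.Tri t p' q' → W.Tri p p' v →
      W.Tri q q' v → W.col q' = b → W.col v = c → W.col p' = a

/-- The request can be served. -/
def Serve (t : T) (a b : ZMod 6) : Prop := Nonempty (W.Rule t a b)

/-- The types with ages; a tree parent is older. -/
def AT : Type := {p : T × Bool // W.Edge p.1 ∧ (W.dn p.1 = true → p.2 = true) ∧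
  (W.dn (W.flip p.1) = true → p.2 = false)}

/-- The certificate of a forest world all of whose requests can be served. -/
noncomputable def toDGen
    (hs : ∀ t a b, W.Edge t → W.Now t → ¬ Forbidden (W.col t) a b → W.Serve t a b) :
    DGen W.AT := by
  classical
  let rule : ∀ t : W.AT, ∀ a b, W.Now t.1.1 → ¬ Forbidden (W.col t.1.1) a b →
    W.Rule t.1.1 a b := fun t a b h1 h2 => (hs t.1.1 a b t.2.1 h1 h2).some
  let mk : ∀ t : T, W.Edge t → W.dn (W.flip t) = false → W.AT := fun t h1 h2 =>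
    ⟨(t, true), h1, fun _ => rfl, fun h => absurd (h2.symm.trans h) (by decide)⟩
  exact
  { flip := fun t => ⟨(W.flip t.1.1, !t.1.2), W.edge_flip _ t.2.1, by
      intro h
      show (!t.1.2) = true
      rw [t.2.2.2 h]; rfl, by
      intro h
      show (!t.1.2) = false
      have h' : W.dn (W.flip (W.flip t.1.1)) = true := h
      rw [W.flip_flip] at h'
      rw [t.2.2.1 h']; rfl⟩
    col := fun t => W.col t.1.1
    old := fun t => t.1.2
    la := fun t => W.la t.1.1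
    pr := fun t => ⟨(W.pr t.1.1, t.1.2), W.edge_pr _ t.2.1, by
      intro h
      have h' : W.dn (W.pr t.1.1) = true := h
      rw [W.pr_dn _ t.2.1] at h'
      exact t.2.2.1 h', by
      intro h
      have h' : W.dn (W.flip (W.pr t.1.1)) = true := h
      rw [← W.pr_flip _ t.2.1, W.pr_dn _ (W.edge_flip _ t.2.1)] at h'
      exact t.2.2.2 h'⟩
    dn := fun t => W.dn t.1.1
    Tri := fun p q r => W.Tri p.1.1 q.1.1 r.1.1
    gx := fun t a b => if h : W.Now t.1.1 ∧ ¬ Forbidden (W.col t.1.1) a b then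
      mk _ (rule t a b h.1 h.2).gx_ok.1 (rule t a b h.1 h.2).gx_ok.2.2.2.2 else t
    gy := fun t a b => if h : W.Now t.1.1 ∧ ¬ Forbidden (W.col t.1.1) a b then
      mk _ (rule t a b h.1 h.2).gy_ok.1 (rule t a b h.1 h.2).gy_ok.2.2.2.2 else t
    D := fun t a b p q g => if h : W.Now t.1.1 ∧ ¬ Forbidden (W.col t.1.1) a b then
      ((rule t a b h.1 h.2).D p.1.1 q.1.1 g.1.1 ∧ g.1.2 = true) else False
    R := fun t a b p q => if h : W.Now t.1.1 ∧ ¬ Forbidden (W.col t.1.1) a b then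
      (rule t a b h.1 h.2).R p.1.1 q.1.1 else none
    rk := fun t _ _ => W.la t.1.1 + W.la (W.flip t.1.1)
    flip_flip := by
      rintro ⟨⟨t, o⟩, ht⟩
      apply Subtype.ext
      show (W.flip (W.flip t), !!o) = (t, o)
      rw [W.flip_flip, Bool.not_not]
    col_flip := fun t => W.col_flip _
    old_flip := fun t => rfl
    pr_flip := by
      rintro ⟨⟨t, o⟩, ht⟩
      apply Subtype.ext
      show (W.pr (W.flip t), !o) = (W.flip (W.pr t), !o)
      rw [W.pr_flip _ ht.1]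
    pr_col := fun t => W.pr_col _ t.2.1
    pr_old := fun t => rfl
    pr_la := fun t _ => W.pr_la _ t.2.1
    pr_tri := fun p q r h => W.pr_tri _ _ _ h
    tri_swap12 := fun p q r h => W.tri_swap12 _ _ _ h
    tri_swap23 := fun p q r h => W.tri_swap23 _ _ _ h
    tri_ok := fun p q r h => W.tri_ok _ _ _ h
    dn_old := fun t h => t.2.2.1 h
    pr_dn := fun t => W.pr_dn _ t.2.1
    gx_ok := by
      intro t a b h1 h2 h3 hf
      have h : W.Now t.1.1 ∧ ¬ Forbidden (W.col t.1.1) a b := ⟨⟨h1, h2, h3⟩, hf⟩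
      simp only [dif_pos h]
      have g := (rule t a b h.1 h.2).gx_ok
      exact ⟨g.2.1, rfl, g.2.2.1, g.2.2.2.1⟩
    gy_ok := by
      intro t a b h1 h2 h3 hf
      have h : W.Now t.1.1 ∧ ¬ Forbidden (W.col t.1.1) a b := ⟨⟨h1, h2, h3⟩, hf⟩
      simp only [dif_pos h]
      have g := (rule t a b h.1 h.2).gy_ok
      exact ⟨g.2.1, rfl, g.2.2.1, g.2.2.2.1⟩
    D_ne := by
      intro t a b h1 h2 h3 hf p q ht hc hR
      have h : W.Now t.1.1 ∧ ¬ Forbidden (W.col t.1.1) a b := ⟨⟨h1, h2, h3⟩, hf⟩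
      simp only [dif_pos h] at hR ⊢
      obtain ⟨g, hg⟩ := (rule t a b h.1 h.2).D_ne _ _ p.2.1 q.2.1 ht hc hR
      have hok := (rule t a b h.1 h.2).D_ok _ _ p.2.1 q.2.1 ht hc hR g hg
      exact ⟨mk g hok.1 hok.2.2.2.1, hg, rfl⟩
    D_ok := by
      intro t a b h1 h2 h3 hf p q ht hc hR g hg
      have h : W.Now t.1.1 ∧ ¬ Forbidden (W.col t.1.1) a b := ⟨⟨h1, h2, h3⟩, hf⟩
      simp only [dif_pos h] at hR hg ⊢
      have hok := (rule t a b h.1 h.2).D_ok _ _ p.2.1 q.2.1 ht hc hR g.1.1 hg.1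
      exact ⟨hg.2, hok.2.1, hok.2.2.1, hok.2.2.2.2.1, hok.2.2.2.2.2⟩
    tri_new := by
      intro t a b h1 h2 h3 hf
      have h : W.Now t.1.1 ∧ ¬ Forbidden (W.col t.1.1) a b := ⟨⟨h1, h2, h3⟩, hf⟩
      simp only [dif_pos h]
      exact (rule t a b h.1 h.2).tri_new
    box := by
      intro t a b h1 h2 h3 hf p q p' q' u ht ht' hp hq hc hc' hR hR' hd hd' g g' hg hg'
      have h : W.Now t.1.1 ∧ ¬ Forbidden (W.col t.1.1) a b := ⟨⟨h1, h2, h3⟩, hf⟩
      simp only [dif_pos h] at hR hR' hg hg'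
      exact (rule t a b h.1 h.2).box _ _ _ _ _ p.2.1 q.2.1 p'.2.1 q'.2.1 u.2.1 ht ht' hp hq
        hc hc' hR hR' hd hd' _ _ hg.1 hg'.1
    arc := by
      intro t a b h1 h2 h3 hf p q p' q' u ht ht' hp hq hc hc' hR hR' hd g hg
      have h : W.Now t.1.1 ∧ ¬ Forbidden (W.col t.1.1) a b := ⟨⟨h1, h2, h3⟩, hf⟩
      simp only [dif_pos h] at hR hR' hg ⊢
      obtain ⟨g', hg', ht3⟩ := (rule t a b h.1 h.2).arc _ _ _ _ _ p.2.1 q.2.1 p'.2.1 q'.2.1
        u.2.1 ht ht' hp hq hc hc' hR hR' hd _ hg.1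
      have hok := (rule t a b h.1 h.2).D_ok _ _ p'.2.1 q'.2.1 ht' hc' hR' g' hg'
      exact ⟨mk g' hok.1 hok.2.2.2.1, ⟨hg', rfl⟩, ht3⟩
    arc2 := by
      intro t a b h1 h2 h3 hf p q p' q' p'' q'' u u' v a1 a2 a3 a4 a5 a6 a7 a8 a9 a10
        c1 c2 c3 r1 r2 r3 d1 d2 g g' hg hg' hv
      have h : W.Now t.1.1 ∧ ¬ Forbidden (W.col t.1.1) a b := ⟨⟨h1, h2, h3⟩, hf⟩
      simp only [dif_pos h] at r1 r2 r3 hg hg' ⊢
      obtain ⟨g'', k1, k2, k3⟩ := (rule t a b h.1 h.2).arc2 _ _ _ _ _ _ _ _ _ p.2.1 q.2.1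
        p'.2.1 q'.2.1 p''.2.1 q''.2.1 u.2.1 u'.2.1 v.2.1 a1 a2 a3 a4 a5 a6 a7 a8 a9 a10
        c1 c2 c3 r1 r2 r3 d1 d2 _ _ hg.1 hg'.1 hv
      have hok := (rule t a b h.1 h.2).D_ok _ _ p''.2.1 q''.2.1 a3 c3 r3 g'' k1
      exact ⟨mk g'' hok.1 hok.2.2.2.1, ⟨k1, rfl⟩, k2, k3⟩
    par_one := by
      intro t a b h1 h2 h3 hf p q p' q' u ht ht' hp hq hc hc' hR hR' g g' hg hg' d d'
      have h : W.Now t.1.1 ∧ ¬ Forbidden (W.col t.1.1) a b := ⟨⟨h1, h2, h3⟩, hf⟩
      simp only [dif_pos h] at hR hR' hg hg'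
      exact (rule t a b h.1 h.2).par_one _ _ _ _ _ p.2.1 q.2.1 p'.2.1 q'.2.1 u.2.1 ht ht' hp hq
        hc hc' hR hR' _ _ hg.1 hg'.1 d d'
    par_two := by
      intro t a b h1 h2 h3 hf d d' p q ht hc hR g hg
      have h : W.Now t.1.1 ∧ ¬ Forbidden (W.col t.1.1) a b := ⟨⟨h1, h2, h3⟩, hf⟩
      simp only [dif_pos h] at hR hg d d'
      exact (rule t a b h.1 h.2).par_two d d' _ _ p.2.1 q.2.1 ht hc hR _ hg.1
    red_x := by
      intro t a b h1 h2 h3 hf p q c ht hR
      have h : W.Now t.1.1 ∧ ¬ Forbidden (W.col t.1.1) a b := ⟨⟨h1, h2, h3⟩, hf⟩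
      simp only [dif_pos h] at hR
      obtain ⟨g1, g2, g3, g4⟩ := (rule t a b h.1 h.2).red_x _ _ c p.2.1 q.2.1 ht hR
      refine ⟨g1, g2, ?_, Or.inr (Or.inl g3), ?_⟩
      · have h2' : W.la (W.flip t.1.1) ≤ 1 := h2
        have h1' : W.la t.1.1 ≤ 1 := h1
        show W.la (W.flip p.1.1) ≤ 1
        omega
      · intro p' q' v k1 k2 k3 k4 k5
        exact g4 _ _ _ p'.2.1 q'.2.1 v.2.1 k1 k2 k3 k4 k5
    red_y := by
      intro t a b h1 h2 h3 hf p q c ht hR
      have h : W.Now t.1.1 ∧ ¬ Forbidden (W.col t.1.1) a b := ⟨⟨h1, h2, h3⟩, hf⟩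
      simp only [dif_pos h] at hR
      obtain ⟨g1, g2, g3, g4⟩ := (rule t a b h.1 h.2).red_y _ _ c p.2.1 q.2.1 ht hR
      refine ⟨g1, g2, ?_, Or.inr (Or.inl ?_), ?_⟩
      · have h2' : W.la (W.flip t.1.1) ≤ 1 := h2
        have h1' : W.la t.1.1 ≤ 1 := h1
        show W.la (W.flip q.1.1) ≤ 1
        omega
      · show W.la (W.flip q.1.1) + W.la (W.flip (W.flip q.1.1)) < _
        rw [W.flip_flip]
        omega
      · intro p' q' v k1 k2 k3 k4 k5
        exact g4 _ _ _ p'.2.1 q'.2.1 v.2.1 k1 k2 k3 k4 k5 }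

/-- A forest world all of whose requests can be served gives a representation. -/
theorem rep_of_dworld (t0 : T) (h0 : W.Edge t0) (h1 : W.la t0 = 1) (h2 : W.la (W.flip t0) = 1)
    (h3 : W.dn (W.flip t0) = false)
    (hs : ∀ t a b, W.Edge t → W.Now t → ¬ Forbidden (W.col t) a b → W.Serve t a b) :
    ∃ (U : Type) (r : Set Atom → Set (U × U)), Nonempty U ∧ IsRepresentation U r :=
  rep_of_dgen (W.toDGen hs) ⟨(t0, true), h0, fun _ => rfl, fun h =>
    absurd (h3.symm.trans h) (by decide)⟩ rfl h1 h2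

end DWorld

end Pool.Agent.CRQ
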