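import Mathlib
import Pool.Agent.RMQ.Defs

/-! # Covering radius of RM(m-s, m): shared definitions (helper7, helper49) -/

set_option autoImplicit false

open scoped BigOperators

namespace CRQ

/-- symmetric `n × n` matrices over the field with two elements -/
def symSub (n : ℕ) : Submodule (ZMod 2) (Matrix (Fin n) (Fin n) (ZMod 2)) where
  carrier := {M | ∀ i j, M i j = M j i}
  add_mem' := by
    intro A B hA hB i j
    simp only [Matrix.add_apply]
    rw [hA i j, hB i j]
  zero_mem' := by
    intro i j
    rfl
  smul_mem' := by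
    intro c A hA i j
    simp only [Matrix.smul_apply]
    rw [hA i j]

/-- The statement of `RMQ.worst`: for every `d > 0` some number `k` of symmetric `n × n` matrices can always be
represented simultaneously by `(1/2 + d) k n` weighted squares. -/
def WorstThm : Prop :=
  ∀ d : ℝ, 0 < d → ∃ k N : ℕ, 0 < k ∧ ∀ n ≥ N, ∀ B : Fin k → RMQ.Mat n, (∀ i, (B i).IsSymm) →
    ∃ s : ℕ, RMQ.Rep s B ∧ (s : ℝ) ≤ (1 / 2 + d) * k * n

end CRQ
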