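import Pool.Agent.CRQ.Defs
import Pool.Agent.Helper71.RMC.Rec

/-! # Duality between RM(m-4, m) and RM(3, m) -/

set_option autoImplicit false
set_option linter.unusedSectionVars false

open scoped BigOperators

namespace CRQ

/-- the monomial `∏_{j ∈ J} x_j` -/
def mono {ι : Type} (J : Finset ι) (x : ι → ZMod 2) : ZMod 2 := ∏ j ∈ J, x j

/-- the moment of `w` against the monomial of `J` -/
def mom {ι : Type} [Fintype ι] [DecidableEq ι] (w : (ι → ZMod 2) → ZMod 2) (J : Finset ι) : ZMod 2 :=
  ∑ x, w x * mono J x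

/-- the weight of a function -/
def wt {ι : Type} [Fintype ι] [DecidableEq ι] (w : (ι → ZMod 2) → ZMod 2) : ℕ :=
  (Finset.univ.filter fun x => w x ≠ 0).card

/-- every system of moments of degree at most three is attained by a function of weight at most `N` -/
def Rep (ι : Type) [Fintype ι] [DecidableEq ι] (N : ℕ) : Prop :=
  ∀ T : Finset ι → ZMod 2, ∃ w : (ι → ZMod 2) → ZMod 2, wt w ≤ N ∧
    ∀ J : Finset ι, J.card ≤ 3 → mom w J = T J

section basic
variable {ι : Type} [Fintype ι] [DecidableEq ι]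

lemma mom_add (v w : (ι → ZMod 2) → ZMod 2) (J : Finset ι) : mom (v + w) J = mom v J + mom w J := by
  unfold mom
  rw [← Finset.sum_add_distrib]
  refine Finset.sum_congr rfl fun x _ => ?_
  rw [Pi.add_apply, add_mul]

lemma mom_zero (J : Finset ι) : mom (0 : (ι → ZMod 2) → ZMod 2) J = 0 := by
  unfold mom
  refine Finset.sum_eq_zero fun x _ => ?_
  rw [Pi.zero_apply, zero_mul]

lemma wt_zero : wt (0 : (ι → ZMod 2) → ZMod 2) = 0 := by
  unfold wt
  rw [Finset.card_eq_zero, Finset.filter_eq_empty_iff]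
  intro x _ h
  exact h rfl

lemma wt_add_le (v w : (ι → ZMod 2) → ZMod 2) : wt (v + w) ≤ wt v + wt w := by
  unfold wt
  refine (Finset.card_le_card ?_).trans (Finset.card_union_le _ _)
  intro x hx
  rw [Finset.mem_filter] at hx
  rw [Finset.mem_union, Finset.mem_filter, Finset.mem_filter]
  by_cases h : v x = 0
  · right
    refine ⟨Finset.mem_univ _, fun h2 => hx.2 ?_⟩
    rw [Pi.add_apply, h, h2, add_zero]
  · exact Or.inl ⟨Finset.mem_univ _, h⟩

lemma Rep.mono_le {N N' : ℕ} (h : Rep ι N) (hN : N ≤ N') : Rep ι N' := by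
  intro T
  obtain ⟨w, h1, h2⟩ := h T
  exact ⟨w, h1.trans hN, h2⟩

/-- the list of points, as a function -/
def ofList (L : List (ι → ZMod 2)) : (ι → ZMod 2) → ZMod 2 := fun x => (L.map fun y => if x = y then 1 else 0).sum

lemma ofList_cons (y : ι → ZMod 2) (L : List (ι → ZMod 2)) :
    ofList (y :: L) = (fun x => if x = y then 1 else 0) + ofList L := by
  funext x
  simp [ofList]

lemma wt_single (y : ι → ZMod 2) : wt (fun x => if x = y then (1 : ZMod 2) else 0) ≤ 1 := by
  unfold wt
  have : (Finset.univ.filter fun x : ι → ZMod 2 => (if x = y then (1 : ZMod 2) else 0) ≠ 0) ⊆ {y} := by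
    intro x hx
    rw [Finset.mem_filter] at hx
    rw [Finset.mem_singleton]
    by_contra h
    exact hx.2 (if_neg h)
  exact (Finset.card_le_card this).trans (le_of_eq (Finset.card_singleton _))

lemma mom_single (y : ι → ZMod 2) (J : Finset ι) :
    mom (fun x => if x = y then (1 : ZMod 2) else 0) J = mono J y := by
  unfold mom
  rw [Finset.sum_eq_single y]
  · show (if y = y then (1 : ZMod 2) else 0) * mono J y = _
    rw [if_pos rfl, one_mul]
  · intro x _ hx
    show (if x = y then (1 : ZMod 2) else 0) * mono J x = _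
    rw [if_neg hx, zero_mul]
  · intro h
    exact absurd (Finset.mem_univ _) h

lemma wt_ofList (L : List (ι → ZMod 2)) : wt (ofList L) ≤ L.length := by
  induction L with
  | nil =>
    have : ofList ([] : List (ι → ZMod 2)) = 0 := by
      funext x
      simp [ofList]
    rw [this, wt_zero]
    exact Nat.zero_le _
  | cons y L ih =>
    rw [ofList_cons, List.length_cons]
    refine (wt_add_le _ _).trans ?_
    have := wt_single y
    omega

lemma mom_ofList (L : List (ι → ZMod 2)) (J : Finset ι) : mom (ofList L) J = (L.map (mono J)).sum := by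
  induction L with
  | nil =>
    have : ofList ([] : List (ι → ZMod 2)) = 0 := by
      funext x
      simp [ofList]
    rw [this, mom_zero]
    simp
  | cons y L ih =>
    rw [ofList_cons, mom_add, ih, mom_single, List.map_cons, List.sum_cons]

end basic

/-! ### transport -/

lemma Rep.congr {ι κ : Type} [Fintype ι] [DecidableEq ι] [Fintype κ] [DecidableEq κ] (e : ι ≃ κ) {N : ℕ}
    (h : Rep ι N) : Rep κ N := by
  intro T
  obtain ⟨w, h1, h2⟩ := h (fun J => T (J.map e.toEmbedding))
  let E : (κ → ZMod 2) ≃ (ι → ZMod 2) := Equiv.arrowCongr e.symm (Equiv.refl _)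
  have hE : ∀ x : κ → ZMod 2, E x = fun i => x (e i) := by
    intro x
    rfl
  refine ⟨fun x => w (E x), ?_, ?_⟩
  · refine le_trans (le_of_eq ?_) h1
    unfold wt
    exact Finset.card_equiv E (by
      intro x
      simp)
  · intro J hJ
    have h3 := h2 (J.map e.symm.toEmbedding) (by rw [Finset.card_map]; exact hJ)
    have h4 : (J.map e.symm.toEmbedding).map e.toEmbedding = J := by
      ext j
      simp
    rw [h4] at h3
    rw [← h3]
    unfold mom
    refine Fintype.sum_equiv E _ _ fun x => ?_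
    congr 1
    unfold mono
    rw [Finset.prod_map]
    refine Finset.prod_congr rfl fun j _ => ?_
    rw [hE]
    simp

/-! ### duality -/

lemma ind_eq {m : ℕ} (x y : Fin m → ZMod 2) :
    (∏ j, ((1 + y j) + x j)) = if x = y then 1 else 0 := by
  by_cases h : x = y
  · rw [if_pos h]
    refine Finset.prod_eq_one fun j _ => ?_
    rw [h, add_assoc, CharTwo.add_self_eq_zero, add_zero]
  · rw [if_neg h]
    obtain ⟨j, hj⟩ := Function.ne_iff.1 h
    refine Finset.prod_eq_zero (Finset.mem_univ j) ?_
    have key : ∀ a b : ZMod 2, a ≠ b → (1 + b) + a = 0 := by decide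
    exact key _ _ hj

/-- the coefficients of the algebraic normal form -/
def coef {m : ℕ} (h : (Fin m → ZMod 2) → ZMod 2) (I : Finset (Fin m)) : ZMod 2 :=
  ∑ y, h y * ∏ j ∈ Iᶜ, (1 + y j)

lemma anf {m : ℕ} (h : (Fin m → ZMod 2) → ZMod 2) (x : Fin m → ZMod 2) :
    h x = ∑ I : Finset (Fin m), coef h I * ∏ j ∈ I, x j := by
  have h1 : h x = ∑ y, h y * ∏ j, ((1 + y j) + x j) := by
    rw [Finset.sum_eq_single x]
    · rw [ind_eq, if_pos rfl, mul_one]
    · intro y _ hy
      rw [ind_eq, if_neg hy.symm, mul_zero]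
    · intro h2
      exact absurd (Finset.mem_univ _) h2
  rw [h1]
  have h2 : ∀ y : Fin m → ZMod 2, ∏ j, ((1 + y j) + x j) =
      ∑ I : Finset (Fin m), (∏ j ∈ Iᶜ, (1 + y j)) * ∏ j ∈ I, x j := by
    intro y
    have h3 := Finset.prod_add (fun j => x j) (fun j => 1 + y j) (Finset.univ : Finset (Fin m))
    rw [Finset.powerset_univ] at h3
    have h4 : ∏ j, ((1 + y j) + x j) = ∏ j, (x j + (1 + y j)) :=
      Finset.prod_congr rfl fun j _ => add_comm _ _
    rw [h4, h3]
    refine Finset.sum_congr rfl fun I _ => ?_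
    rw [mul_comm, Finset.compl_eq_univ_sdiff]
  simp_rw [h2, Finset.mul_sum]
  rw [Finset.sum_comm]
  refine Finset.sum_congr rfl fun I _ => ?_
  unfold coef
  rw [Finset.sum_mul]
  refine Finset.sum_congr rfl fun y _ => ?_
  ring

lemma coef_zero {m : ℕ} (h : (Fin m → ZMod 2) → ZMod 2) (hm : ∀ J : Finset (Fin m), J.card ≤ 3 → mom h J = 0)
    (I : Finset (Fin m)) (hI : m < I.card + 4) : coef h I = 0 := by
  have hc : Iᶜ.card ≤ 3 := by
    have := Finset.card_add_card_compl I
    rw [Fintype.card_fin] at this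
    omega
  unfold coef
  have h1 : ∀ y : Fin m → ZMod 2, ∏ j ∈ Iᶜ, (1 + y j) = ∑ J ∈ Iᶜ.powerset, mono J y := by
    intro y
    rw [Finset.prod_one_add]
    rfl
  simp_rw [h1, Finset.mul_sum]
  rw [Finset.sum_comm]
  refine Finset.sum_eq_zero fun J hJ => ?_
  rw [Finset.mem_powerset] at hJ
  exact hm J ((Finset.card_le_card hJ).trans hc)

lemma exists_poly {m : ℕ} (h : (Fin m → ZMod 2) → ZMod 2)
    (hm : ∀ J : Finset (Fin m), J.card ≤ 3 → mom h J = 0) :
    ∃ p : MvPolynomial (Fin m) (ZMod 2), p.totalDegree ≤ m - 4 ∧ ∀ x, MvPolynomial.eval x p = h x := by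
  refine ⟨∑ I ∈ Finset.univ.filter (fun I : Finset (Fin m) => I.card + 4 ≤ m),
    MvPolynomial.C (coef h I) * ∏ j ∈ I, MvPolynomial.X j, ?_, ?_⟩
  · refine (MvPolynomial.totalDegree_finsetSum _ _).trans (Finset.sup_le fun I hI => ?_)
    rw [Finset.mem_filter] at hI
    refine (MvPolynomial.totalDegree_mul _ _).trans ?_
    rw [MvPolynomial.totalDegree_C, zero_add]
    refine (MvPolynomial.totalDegree_finsetProd _ _).trans ?_
    have : ∀ j : Fin m, (MvPolynomial.X j : MvPolynomial (Fin m) (ZMod 2)).totalDegree = 1 :=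
      fun j => MvPolynomial.totalDegree_X j
    simp_rw [this]
    rw [Finset.sum_const, smul_eq_mul, mul_one]
    omega
  · intro x
    rw [anf h x, map_sum, Finset.sum_filter]
    refine Finset.sum_congr rfl fun I _ => ?_
    by_cases hI : I.card + 4 ≤ m
    · rw [if_pos hI, map_mul, MvPolynomial.eval_C, map_prod]
      congr 1
      refine Finset.prod_congr rfl fun j _ => ?_
      rw [MvPolynomial.eval_X]
    · rw [if_neg hI, coef_zero h hm I (by omega), zero_mul]

lemma covRadius_le {m N : ℕ} (h : Rep (Fin m) N) : RMC71.covRadius (m - 4) m ≤ N := by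
  unfold RMC71.covRadius
  refine Finset.sup_le fun f _ => ?_
  obtain ⟨w, h1, h2⟩ := h (fun J => mom f J)
  obtain ⟨p, hp, hp'⟩ := exists_poly (f + w) (by
    intro J hJ
    rw [mom_add, h2 J hJ, CharTwo.add_self_eq_zero])
  refine (RMC71.rmDist_le (m - 4) m f p hp).trans (le_trans (le_of_eq ?_) h1)
  unfold wt
  congr 1
  refine Finset.filter_congr fun x _ => ?_
  rw [hp' x, Pi.add_apply]
  constructor
  · intro h3 h4
    rw [h4, add_zero] at h3
    exact h3 rfl
  · intro h3 h4
    apply h3
    have h5 : f x + 0 = f x + w x := by rw [add_zero]; exact h4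
    exact (add_left_cancel h5).symm

end CRQ
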