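import Pool.Agent.CRQ.Dual

/-! # Elimination of a block of coordinates -/

set_option autoImplicit false
set_option linter.unusedSectionVars false

open scoped BigOperators

namespace CRQ

/-- `Costs` for an arbitrary index type of slices -/
def CostsK {κ : Type} {n : ℕ} (B : κ → Matrix (Fin n) (Fin n) (ZMod 2)) (N : ℕ) : Prop :=
  ∃ L : List ((κ → ZMod 2) × (Fin n → ZMod 2)), L.length ≤ N ∧
    ∀ i, B i = (L.map fun z => z.1 i • Matrix.vecMulVec z.2 z.2).sum

lemma sum_two (f : ZMod 2 → ZMod 2) : ∑ a : ZMod 2, f a = f 0 + f 1 := Fin.sum_univ_two f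

lemma two_cases (a : ZMod 2) : a = 0 ∨ a = 1 := by
  revert a
  decide

section prodform
variable {ι : Type} [Fintype ι] [DecidableEq ι]

lemma sum_prod_form (F : ι → ZMod 2 → ZMod 2) :
    ∑ x : ι → ZMod 2, ∏ j, F j (x j) = ∏ j, (F j 0 + F j 1) := by
  have h := Finset.prod_univ_sum (fun _ : ι => (Finset.univ : Finset (ZMod 2))) F
  rw [Fintype.piFinset_univ] at h
  rw [← h]
  exact Finset.prod_congr rfl fun j _ => sum_two _

lemma mono_eq (J : Finset ι) (x : ι → ZMod 2) : mono J x = ∏ j, (if j ∈ J then x j else 1) := by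
  unfold mono
  rw [Finset.prod_ite_mem, Finset.univ_inter]

end prodform

section
variable {κ : Type} [Fintype κ] [DecidableEq κ] {n : ℕ}

lemma mono_disj (A : Finset κ) (C : Finset (Fin n)) (x : κ ⊕ Fin n → ZMod 2) :
    mono (A.disjSum C) x = mono A (fun i => x (Sum.inl i)) * mono C (fun b => x (Sum.inr b)) := by
  unfold mono
  rw [Finset.prod_disjSum]

/-- the indicator of the subcube over `K` at the point `y` -/
def cubeW (K : Finset κ) (y : Fin n → ZMod 2) (x : κ ⊕ Fin n → ZMod 2) : ZMod 2 :=
  ∏ j, Sum.elim (fun i => if i ∈ K then 1 else if x (Sum.inl i) = 0 then 1 else 0)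
    (fun b => if x (Sum.inr b) = y b then 1 else 0) j

lemma cube_mom (K A : Finset κ) (y : Fin n → ZMod 2) (C : Finset (Fin n)) :
    mom (cubeW K y) (A.disjSum C) = if A = K then mono C y else 0 := by
  set F : κ ⊕ Fin n → ZMod 2 → ZMod 2 := fun j a =>
    (Sum.elim (fun i => if i ∈ K then 1 else if a = 0 then 1 else 0)
      (fun b => if a = y b then 1 else 0) j : ZMod 2) * (if j ∈ A.disjSum C then a else 1) with hF
  have h1 : mom (cubeW K y) (A.disjSum C) = ∏ j : κ ⊕ Fin n, (F j 0 + F j 1) := by
    rw [← sum_prod_form]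
    unfold mom
    refine Finset.sum_congr rfl fun x _ => ?_
    rw [mono_eq]
    unfold cubeW
    rw [← Finset.prod_mul_distrib]
    refine Finset.prod_congr rfl fun j _ => ?_
    cases j with
    | inl i => rfl
    | inr b => rfl
  rw [h1, Fintype.prod_sum_type]
  have h2 : ∀ i : κ, F (Sum.inl i) 0 + F (Sum.inl i) 1 = if (i ∈ A ↔ i ∈ K) then 1 else 0 := by
    intro i
    simp only [hF, Sum.elim_inl, Finset.inl_mem_disjSum]
    by_cases hA : i ∈ A <;> by_cases hK : i ∈ K <;> simp [hA, hK, CharTwo.add_self_eq_zero]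
  have h3 : ∀ b : Fin n, F (Sum.inr b) 0 + F (Sum.inr b) 1 = if b ∈ C then y b else 1 := by
    intro b
    simp only [hF, Sum.elim_inr, Finset.inr_mem_disjSum]
    rcases two_cases (y b) with hy | hy <;> by_cases hC : b ∈ C <;> simp [hy, hC]
  rw [Finset.prod_congr rfl fun i _ => h2 i, Finset.prod_congr rfl fun b _ => h3 b, ← mono_eq]
  by_cases h : A = K
  · rw [if_pos h]
    have : ∏ i : κ, (if (i ∈ A ↔ i ∈ K) then (1 : ZMod 2) else 0) = 1 := by
      refine Finset.prod_eq_one fun i _ => ?_
      rw [if_pos (by rw [h])]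
    rw [this, one_mul]
  · rw [if_neg h]
    have : ∃ i, ¬ (i ∈ A ↔ i ∈ K) := by
      by_contra h4
      push Not at h4
      exact h (Finset.ext h4)
    obtain ⟨i, hi⟩ := this
    rw [Finset.prod_eq_zero (Finset.mem_univ i) (if_neg hi), zero_mul]

lemma wt_cube (K : Finset κ) (y : Fin n → ZMod 2) : wt (cubeW K y) ≤ 2 ^ Fintype.card κ := by
  have h1 : (2 : ℕ) ^ Fintype.card κ = (Finset.univ : Finset (κ → ZMod 2)).card := by
    rw [Finset.card_univ, Fintype.card_fun, ZMod.card]
  rw [h1]
  unfold wt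
  refine Finset.card_le_card_of_injOn (fun x i => x (Sum.inl i)) (fun _ _ => Finset.mem_univ _) ?_
  intro x hx x' hx' hxx
  have key : ∀ x : κ ⊕ Fin n → ZMod 2, cubeW K y x ≠ 0 → ∀ b, x (Sum.inr b) = y b := by
    intro x hx b
    by_contra h
    apply hx
    unfold cubeW
    refine Finset.prod_eq_zero (Finset.mem_univ (Sum.inr b)) ?_
    simp only [Sum.elim_inr]
    rw [if_neg h]
  rw [Finset.mem_coe, Finset.mem_filter] at hx hx'
  funext j
  cases j with
  | inl i => exact congrFun hxx i
  | inr b => rw [key x hx.2 b, key x' hx'.2 b]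

/-- a function of `y`, placed at `p = 0` -/
def lift (u : (Fin n → ZMod 2) → ZMod 2) (x : κ ⊕ Fin n → ZMod 2) : ZMod 2 :=
  if (fun i => x (Sum.inl i)) = (0 : κ → ZMod 2) then u (fun b => x (Sum.inr b)) else 0

lemma wt_lift (u : (Fin n → ZMod 2) → ZMod 2) : wt (lift (κ := κ) u) ≤ wt u := by
  unfold wt
  refine Finset.card_le_card_of_injOn (fun x b => x (Sum.inr b)) ?_ ?_
  · intro x hx
    rw [Finset.mem_coe, Finset.mem_filter] at hx
    rw [Finset.mem_coe, Finset.mem_filter]
    refine ⟨Finset.mem_univ _, fun h => hx.2 ?_⟩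
    unfold lift
    split_ifs
    · exact h
    · rfl
  · intro x hx x' hx' hxx
    rw [Finset.mem_coe, Finset.mem_filter] at hx hx'
    have key : ∀ x : κ ⊕ Fin n → ZMod 2, lift u x ≠ 0 → ∀ i, x (Sum.inl i) = 0 := by
      intro x hx i
      by_contra h
      apply hx
      unfold lift
      rw [if_neg]
      intro h2
      exact h (congrFun h2 i)
    funext j
    cases j with
    | inl i => rw [key x hx.2 i, key x' hx'.2 i]
    | inr b => exact congrFun hxx b

lemma mono_zero_ne {ι : Type} [Fintype ι] [DecidableEq ι] (A : Finset ι) (hA : A.Nonempty) :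
    mono A (0 : ι → ZMod 2) = 0 := by
  obtain ⟨i, hi⟩ := hA
  unfold mono
  exact Finset.prod_eq_zero hi rfl

lemma mono_empty {ι : Type} (x : ι → ZMod 2) : mono ∅ x = 1 := by
  unfold mono
  rw [Finset.prod_empty]

lemma lift_mom (u : (Fin n → ZMod 2) → ZMod 2) (A : Finset κ) (C : Finset (Fin n)) :
    mom (lift (κ := κ) u) (A.disjSum C) = if A = ∅ then mom u C else 0 := by
  have h1 : mom (lift (κ := κ) u) (A.disjSum C) =
      ∑ z : (κ → ZMod 2) × (Fin n → ZMod 2), (if z.1 = 0 then u z.2 else 0) * (mono A z.1 * mono C z.2) := by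
    unfold mom
    refine Fintype.sum_equiv (Equiv.sumArrowEquivProdArrow κ (Fin n) (ZMod 2)) _ _ fun x => ?_
    rw [mono_disj]
    rfl
  rw [h1, Fintype.sum_prod_type, Finset.sum_eq_single (0 : κ → ZMod 2)]
  · simp only [if_true]
    by_cases h : A = ∅
    · rw [if_pos h, h]
      unfold mom
      refine Finset.sum_congr rfl fun y _ => ?_
      rw [mono_empty, one_mul]
    · rw [if_neg h]
      refine Finset.sum_eq_zero fun y _ => ?_
      rw [mono_zero_ne A (Finset.nonempty_iff_ne_empty.2 h), zero_mul, mul_zero]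
  · intro p _ hp
    refine Finset.sum_eq_zero fun y _ => ?_
    rw [if_neg hp, zero_mul]
  · intro h
    exact absurd (Finset.mem_univ _) h

lemma list_sum_apply (L : List ((κ → ZMod 2) × (Fin n → ZMod 2))) (i : κ) (a b : Fin n) :
    ((L.map fun z => z.1 i • Matrix.vecMulVec z.2 z.2).sum) a b =
      (L.map fun z => z.1 i * (z.2 a * z.2 b)).sum := by
  induction L with
  | nil => simp
  | cons z L ih =>
    rw [List.map_cons, List.sum_cons, List.map_cons, List.sum_cons, Matrix.add_apply, ih]
    rfl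

/-- sums of functions -/
lemma mom_sum {ι : Type} [Fintype ι] [DecidableEq ι] {α : Type} (s : Finset α)
    (w : α → (ι → ZMod 2) → ZMod 2) (J : Finset ι) : mom (∑ a ∈ s, w a) J = ∑ a ∈ s, mom (w a) J := by
  classical
  induction s using Finset.induction_on with
  | empty => simp [mom_zero]
  | insert a s ha ih => rw [Finset.sum_insert ha, Finset.sum_insert ha, mom_add, ih]

lemma wt_sum_le {ι : Type} [Fintype ι] [DecidableEq ι] {α : Type} (s : Finset α)
    (w : α → (ι → ZMod 2) → ZMod 2) (N : ℕ) (h : ∀ a ∈ s, wt (w a) ≤ N) : wt (∑ a ∈ s, w a) ≤ s.card * N := by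
  classical
  induction s using Finset.induction_on with
  | empty => simp [wt_zero]
  | insert a s ha ih =>
    rw [Finset.sum_insert ha, Finset.card_insert_of_notMem ha]
    refine (wt_add_le _ _).trans ?_
    have h1 := h a (Finset.mem_insert_self a s)
    have h2 := ih fun b hb => h b (Finset.mem_insert_of_mem hb)
    rw [add_mul, one_mul]
    omega

lemma mom_smul {ι : Type} [Fintype ι] [DecidableEq ι] (c : ZMod 2) (w : (ι → ZMod 2) → ZMod 2) (J : Finset ι) :
    mom (c • w) J = c * mom w J := by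
  unfold mom
  rw [Finset.mul_sum]
  refine Finset.sum_congr rfl fun x _ => ?_
  rw [Pi.smul_apply, smul_eq_mul, mul_assoc]

lemma wt_smul_le {ι : Type} [Fintype ι] [DecidableEq ι] (c : ZMod 2) (w : (ι → ZMod 2) → ZMod 2) :
    wt (c • w) ≤ wt w := by
  unfold wt
  refine Finset.card_le_card fun x hx => ?_
  rw [Finset.mem_filter] at hx ⊢
  refine ⟨hx.1, fun h => hx.2 ?_⟩
  rw [Pi.smul_apply, h, smul_zero]

/-- **Elimination.** -/
theorem elim {N E : ℕ} (hR : Rep (Fin n) N)
    (hE : ∀ B : κ → Matrix (Fin n) (Fin n) (ZMod 2), (∀ i, B i ∈ symSub n) → CostsK B E) :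
    Rep (κ ⊕ Fin n) (N + E + 2 * 4 ^ Fintype.card κ) := by
  intro T
  -- step 1: the quadratic slices
  obtain ⟨L, hL, hL'⟩ := hE (fun i => Matrix.of fun a b => T (({i} : Finset κ).disjSum {a, b})) (by
    intro i a b
    show T (({i} : Finset κ).disjSum {a, b}) = T (({i} : Finset κ).disjSum {b, a})
    rw [Finset.pair_comm])
  set w1 : (κ ⊕ Fin n → ZMod 2) → ZMod 2 := ofList (L.map fun z => Sum.elim z.1 z.2) with hw1
  have hm1 : ∀ (i : κ) (a b : Fin n), mom w1 (({i} : Finset κ).disjSum {a, b}) =
      T (({i} : Finset κ).disjSum {a, b}) := by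
    intro i a b
    have h1 : T (({i} : Finset κ).disjSum {a, b}) = (L.map fun z => z.1 i * (z.2 a * z.2 b)).sum := by
      rw [← list_sum_apply, ← hL' i]
      rfl
    rw [h1, hw1, mom_ofList, List.map_map]
    congr 1
    refine List.map_congr_left fun z _ => ?_
    show mono (({i} : Finset κ).disjSum {a, b}) (Sum.elim z.1 z.2) = _
    rw [mono_disj]
    have h2 : mono ({i} : Finset κ) (fun i => Sum.elim z.1 z.2 (Sum.inl i)) = z.1 i := by
      unfold mono
      rw [Finset.prod_singleton]
      rfl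
    have h3 : mono ({a, b} : Finset (Fin n)) (fun b => Sum.elim z.1 z.2 (Sum.inr b)) = z.2 a * z.2 b := by
      unfold mono
      by_cases hab : a = b
      · subst hab
        rw [Finset.pair_eq_singleton, Finset.prod_singleton]
        show z.2 a = z.2 a * z.2 a
        rcases two_cases (z.2 a) with h | h <;> rw [h] <;> simp
      · rw [Finset.prod_pair hab]
        rfl
    rw [h2, h3]
  -- step 2: the small corrections
  set T2 : Finset (κ ⊕ Fin n) → ZMod 2 := fun J => T J + mom w1 J with hT2
  have hT2z : ∀ (i : κ) (a b : Fin n), T2 (({i} : Finset κ).disjSum {a, b}) = 0 := by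
    intro i a b
    show T _ + mom w1 _ = 0
    rw [hm1, CharTwo.add_self_eq_zero]
  set v : Finset κ → Fin n → ZMod 2 := fun K a => T2 (K.disjSum {a}) with hv
  set c : Finset κ → ZMod 2 := fun K => T2 (K.disjSum ∅) with hc
  set w2 : (κ ⊕ Fin n → ZMod 2) → ZMod 2 := ∑ K ∈ (Finset.univ : Finset (Finset κ)).filter (fun K => K.Nonempty),
    (cubeW K (v K) + (1 + c K) • cubeW K 0) with hw2
  have hm2 : ∀ (A : Finset κ) (C : Finset (Fin n)), A.Nonempty → mom w2 (A.disjSum C) =
      mono C (v A) + (1 + c A) * mono C 0 := by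
    intro A C hA
    rw [hw2, mom_sum, Finset.sum_eq_single A]
    · rw [mom_add, mom_smul, cube_mom, cube_mom, if_pos rfl, if_pos rfl]
    · intro K _ hK
      rw [mom_add, mom_smul, cube_mom, cube_mom, if_neg hK.symm, if_neg hK.symm, mul_zero, add_zero]
    · intro h
      exact absurd (Finset.mem_filter.2 ⟨Finset.mem_univ _, hA⟩) h
  have hwt2 : wt w2 ≤ 2 * 4 ^ Fintype.card κ := by
    have h1 := wt_sum_le ((Finset.univ : Finset (Finset κ)).filter (fun K => K.Nonempty))
      (fun K => cubeW K (v K) + (1 + c K) • cubeW K 0) (2 * 2 ^ Fintype.card κ) (by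
        intro K _
        refine (wt_add_le _ _).trans ?_
        have h2 := wt_cube K (v K)
        have h3 := (wt_smul_le (1 + c K) (cubeW K (0 : Fin n → ZMod 2))).trans (wt_cube K 0)
        omega)
    rw [← hw2] at h1
    refine h1.trans ?_
    have h2 : ((Finset.univ : Finset (Finset κ)).filter (fun K => K.Nonempty)).card ≤ 2 ^ Fintype.card κ := by
      refine (Finset.card_le_card (Finset.filter_subset _ _)).trans (le_of_eq ?_)
      rw [Finset.card_univ, Fintype.card_finset]
    have h3 : (4 : ℕ) ^ Fintype.card κ = 2 ^ Fintype.card κ * 2 ^ Fintype.card κ := by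
      rw [← mul_pow]
      norm_num
    rw [h3]
    calc _ ≤ 2 ^ Fintype.card κ * (2 * 2 ^ Fintype.card κ) := Nat.mul_le_mul_right _ h2
      _ = _ := by ring
  -- step 3: the rest
  obtain ⟨u, hu, hu'⟩ := hR (fun C => T2 ((∅ : Finset κ).disjSum C) + mom w2 ((∅ : Finset κ).disjSum C))
  refine ⟨w1 + w2 + lift u, ?_, ?_⟩
  · refine (wt_add_le _ _).trans ?_
    have h1 := wt_add_le w1 w2
    have h2 : wt w1 ≤ E := by
      refine (wt_ofList _).trans ?_
      rw [List.length_map]
      exact hL
    have h3 := (wt_lift (κ := κ) u).trans hu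
    omega
  · intro J hJ
    obtain ⟨A, C, rfl⟩ : ∃ (A : Finset κ) (C : Finset (Fin n)), J = A.disjSum C :=
      ⟨J.toLeft, J.toRight, (Finset.toLeft_disjSum_toRight).symm⟩
    rw [Finset.card_disjSum] at hJ
    rw [mom_add, mom_add, lift_mom]
    have key : ∀ a b c : ZMod 2, a + b + c = 0 → b + c = a := by decide
    by_cases hA : A = ∅
    · subst hA
      rw [if_pos rfl, hu' C (by simpa using hJ)]
      show mom w1 _ + mom w2 _ + (T _ + mom w1 _ + mom w2 _) = T _
      have key2 : ∀ a b c : ZMod 2, a + b + (c + a + b) = c := by decide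
      exact key2 _ _ _
    · rw [if_neg hA, add_zero]
      have hA' : A.Nonempty := Finset.nonempty_iff_ne_empty.2 hA
      apply key
      show T2 _ + mom w2 _ = 0
      rw [hm2 A C hA']
      have hA1 := Finset.card_pos.2 hA'
      have hCc : C.card = 0 ∨ C.card = 1 ∨ C.card = 2 := by omega
      rcases hCc with h | h | h
      · rw [Finset.card_eq_zero] at h
        subst h
        rw [mono_empty, mono_empty]
        show c A + _ = 0
        have key2 : ∀ a : ZMod 2, a + (1 + (1 + a) * 1) = 0 := by decide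
        exact key2 _
      · obtain ⟨a, rfl⟩ := Finset.card_eq_one.1 h
        rw [mono_zero_ne _ (Finset.singleton_nonempty a), mul_zero, add_zero]
        have h2 : mono ({a} : Finset (Fin n)) (v A) = v A a := by
          unfold mono
          rw [Finset.prod_singleton]
        rw [h2]
        exact CharTwo.add_self_eq_zero _
      · obtain ⟨a, b, hab, rfl⟩ := Finset.card_eq_two.1 h
        have hA2 : A.card = 1 := by omega
        obtain ⟨i, rfl⟩ := Finset.card_eq_one.1 hA2
        rw [hT2z, mono_zero_ne _ ⟨a, Finset.mem_insert_self a _⟩, mul_zero, add_zero, zero_add]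
        have h2 : mono ({a, b} : Finset (Fin n)) (v {i}) = v {i} a * v {i} b := by
          unfold mono
          rw [Finset.prod_pair hab]
        have h3 : v {i} a = 0 := by
          have := hT2z i a a
          rw [Finset.pair_eq_singleton] at this
          exact this
        rw [h2, h3, zero_mul]

end

end CRQ
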