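import Pool.Agent.CRQ.ForestWorld7

/-!
Forest worlds without levels, for MP_cf0286_al, their symmetries and the representation given by a
world all of whose requests can be served.
-/

namespace Pool.Agent.CRQ

open Pool.Agent.RA6

/-- A forest world without levels: types of ordered pairs, the flag `dn` (the first vertex is the
tree parent of the second), the possible types `Edge` and the possible triangles `Tri`. -/
structure FW0 (T : Type) where
  flip : T → T
  col : T → ZMod 6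
  dn : T → Bool
  Edge : T → Prop
  Tri : T → T → T → Prop
  flip_flip : ∀ t, flip (flip t) = t
  col_flip : ∀ t, col (flip t) = col t
  edge_flip : ∀ t, Edge t → Edge (flip t)
  dn_anti : ∀ t, Edge t → dn t = true → dn (flip t) = false
  tri_swap12 : ∀ p q r, Tri p q r → Tri (flip p) r q
  tri_swap23 : ∀ p q r, Tri p q r → Tri q p (flip r)
  tri_ok : ∀ p q r, Tri p q r → ¬ Forbidden (col p) (col r) (col q)
  tri_par : ∀ p q r, Tri p q r → dn (flip p) = true → dn (flip q) = true → False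

namespace FW0

variable {T : Type} (W : FW0 T)

/-- The request `(a, b)` at pairs `x, y` of type `t` can be served: the newborn `z` gets the types
`gx` (of `x, z`), `gy` (of `y, z`) and one of the types in `D p q` (of `w, z`, where `p` is the type
of `x, w` and `q` the type of `y, w`). -/
structure Rule (t : T) (a b : ZMod 6) where
  gx : T
  gy : T
  D : T → T → T → Prop
  gx_ok : W.Edge gx ∧ W.col gx = a ∧ W.dn (W.flip gx) = false
  gy_ok : W.Edge gy ∧ W.col gy = b ∧ W.dn (W.flip gy) = false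
  tri_new : W.Tri t gx gy
  D_ne : ∀ p q, W.Edge p → W.Edge q → W.Tri t p q → ¬ (W.col p = a ∧ W.col q = b) →
    ∃ g, D p q g
  D_ok : ∀ p q, W.Edge p → W.Edge q → W.Tri t p q → ¬ (W.col p = a ∧ W.col q = b) →
    ∀ g, D p q g → W.Edge g ∧ W.dn (W.flip g) = false ∧ W.Tri p gx g ∧ W.Tri q gy g
  box : ∀ p q p' q' u, W.Edge p → W.Edge q → W.Edge p' → W.Edge q' → W.Edge u →
    W.Tri t p q → W.Tri t p' q' → W.Tri p p' u → W.Tri q q' u →
    ¬ (W.col p = a ∧ W.col q = b) → ¬ (W.col p' = a ∧ W.col q' = b) →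
    W.dn u = false → W.dn (W.flip u) = false →
    ∀ g g', D p q g → D p' q' g' → W.Tri u g g'
  arc : ∀ p q p' q' u, W.Edge p → W.Edge q → W.Edge p' → W.Edge q' → W.Edge u →
    W.Tri t p q → W.Tri t p' q' → W.Tri p p' u → W.Tri q q' u →
    ¬ (W.col p = a ∧ W.col q = b) → ¬ (W.col p' = a ∧ W.col q' = b) →
    W.dn u = true → ∀ g, D p q g → ∃ g', D p' q' g' ∧ W.Tri u g g'

/-- The request can be served. -/
def Serve (t : T) (a b : ZMod 6) : Prop := Nonempty (W.Rule t a b)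

/-- All requests at pairs of the type are served. -/
def AllServed (t : T) : Prop := ∀ a b, ¬ Forbidden (W.col t) a b → W.Serve t a b

/-- The world with levels. -/
def lift : FWorld (T × ℕ × ℕ) where
  flip := fun t => (W.flip t.1, t.2.2, t.2.1)
  col := fun t => W.col t.1
  la := fun t => t.2.1
  pr := fun t => (t.1, plev t.2.1, plev t.2.2)
  dn := fun t => W.dn t.1
  Edge := fun t => W.Edge t.1
  Tri := fun p q r => W.Tri p.1 q.1 r.1
  flip_flip := by
    rintro ⟨t, i, j⟩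
    show (W.flip (W.flip t), i, j) = (t, i, j)
    rw [W.flip_flip]
  col_flip := fun t => W.col_flip _
  edge_flip := fun t h => W.edge_flip _ h
  edge_pr := fun t h => h
  pr_flip := fun _ _ => rfl
  pr_col := fun _ _ => rfl
  pr_la := fun _ _ => rfl
  pr_dn := fun _ _ => rfl
  pr_tri := fun _ _ _ h => h
  dn_anti := fun t h1 h2 => W.dn_anti _ h1 h2
  tri_swap12 := fun p q r h => W.tri_swap12 _ _ _ h
  tri_swap23 := fun p q r h => W.tri_swap23 _ _ _ h
  tri_ok := fun p q r h => W.tri_ok _ _ _ h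
  tri_par := fun p q r h h1 h2 => W.tri_par _ _ _ h h1 h2

/-- The rule for the world with levels. -/
def Rule.lift {W : FW0 T} {t : T} {a b : ZMod 6} (r : W.Rule t a b) (i j : ℕ) :
    W.lift.Rule (t, i, j) a b where
  gx := (r.gx, i, 2)
  gy := (r.gy, j, 2)
  D := fun p q g => r.D p.1 q.1 g.1 ∧ g.2 = (p.2.2, 2)
  R := fun _ _ => none
  gx_ok := ⟨r.gx_ok.1, r.gx_ok.2.1, rfl, rfl, r.gx_ok.2.2⟩
  gy_ok := ⟨r.gy_ok.1, r.gy_ok.2.1, rfl, rfl, r.gy_ok.2.2⟩
  tri_new := r.tri_new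
  D_ne := by
    intro p q hp hq ht hw _
    obtain ⟨g, hg⟩ := r.D_ne p.1 q.1 hp hq ht hw
    exact ⟨(g, p.2.2, 2), hg, rfl⟩
  D_ok := by
    intro p q hp hq ht hw _ g hg
    obtain ⟨h1, h2, h3, h4⟩ := r.D_ok p.1 q.1 hp hq ht hw g.1 hg.1
    refine ⟨h1, ?_, ?_, h2, h3, h4⟩
    · show g.2.1 = p.2.2
      rw [hg.2]
    · show g.2.2 = 2
      rw [hg.2]
  box := by
    intro p q p' q' u hp hq hp' hq' hu ht ht' h1 h2 hw hw' _ _ hd hd' g g' hg hg'
    exact r.box p.1 q.1 p'.1 q'.1 u.1 hp hq hp' hq' hu ht ht' h1 h2 hw hw' hd hd' g.1 g'.1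
      hg.1 hg'.1
  arc := by
    intro p q p' q' u hp hq hp' hq' hu ht ht' h1 h2 hw hw' _ _ hd g hg
    obtain ⟨g', hg', h3⟩ := r.arc p.1 q.1 p'.1 q'.1 u.1 hp hq hp' hq' hu ht ht' h1 h2 hw hw' hd
      g.1 hg.1
    exact ⟨(g', p'.2.2, 2), ⟨hg', rfl⟩, h3⟩
  red_x := by
    intro p q c _ _ _ h
    exact absurd h (by simp)
  red_y := by
    intro p q c _ _ _ h
    exact absurd h (by simp)

/-- A forest world without levels all of whose requests can be served gives a representation. -/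
theorem rep (t0 : T) (h0 : W.Edge t0) (h3 : W.dn (W.flip t0) = false)
    (hs : ∀ t, W.Edge t → W.AllServed t) :
    ∃ (U : Type) (r : Set Atom → Set (U × U)), Nonempty U ∧ IsRepresentation U r :=
  W.lift.rep_of_fworld (t0, 1, 1) h0 rfl rfl h3 fun t a b he _ hf => by
    obtain ⟨t, i, j⟩ := t
    exact ⟨((hs t he a b hf).some).lift i j⟩

/-! ### Symmetries -/

variable {W}

theorem tri_unflip {t p q : T} (h : W.Tri (W.flip t) p q) : W.Tri t q p := by
  have := W.tri_swap12 _ _ _ h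
  rwa [W.flip_flip] at this

/-- Exchange of the two vertices of a request. -/
def Rule.swap {t : T} {a b : ZMod 6} (r : W.Rule t a b) : W.Rule (W.flip t) b a where
  gx := r.gy
  gy := r.gx
  D := fun p q g => r.D q p g
  gx_ok := r.gy_ok
  gy_ok := r.gx_ok
  tri_new := W.tri_swap12 _ _ _ r.tri_new
  D_ne := by
    intro p q hp hq ht hw
    exact r.D_ne q p hq hp (tri_unflip ht) (fun h => hw ⟨h.2, h.1⟩)
  D_ok := by
    intro p q hp hq ht hw g hg
    obtain ⟨h1, h2, h3, h4⟩ := r.D_ok q p hq hp (tri_unflip ht) (fun h => hw ⟨h.2, h.1⟩) g hg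
    exact ⟨h1, h2, h4, h3⟩
  box := by
    intro p q p' q' u hp hq hp' hq' hu ht ht' h1 h2 hw hw' hd hd' g g' hg hg'
    exact r.box q p q' p' u hq hp hq' hp' hu (tri_unflip ht) (tri_unflip ht') h2 h1
      (fun h => hw ⟨h.2, h.1⟩) (fun h => hw' ⟨h.2, h.1⟩) hd hd' g g' hg hg'
  arc := by
    intro p q p' q' u hp hq hp' hq' hu ht ht' h1 h2 hw hw' hd g hg
    exact r.arc q p q' p' u hq hp hq' hp' hu (tri_unflip ht) (tri_unflip ht') h2 h1
      (fun h => hw ⟨h.2, h.1⟩) (fun h => hw' ⟨h.2, h.1⟩) hd g hg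

theorem Serve.swap {t : T} {a b : ZMod 6} (h : W.Serve t a b) : W.Serve (W.flip t) b a :=
  ⟨h.some.swap⟩

theorem AllServed.swap {t : T} (hs : W.AllServed t) : W.AllServed (W.flip t) := by
  intro a b hf
  rw [W.col_flip] at hf
  exact (hs b a (fun h => hf (forb_swap23 _ _ _ h))).swap

variable (W)

/-- An automorphism of a world. -/
structure Aut where
  f : T → T
  g : T → T
  c : ZMod 6 → ZMod 6
  d : ZMod 6 → ZMod 6
  fg : ∀ t, f (g t) = t
  gf : ∀ t, g (f t) = t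
  cd : ∀ a, c (d a) = a
  dc : ∀ a, d (c a) = a
  f_flip : ∀ t, f (W.flip t) = W.flip (f t)
  f_col : ∀ t, W.Edge t → W.col (f t) = c (W.col t)
  f_dn : ∀ t, W.dn (f t) = W.dn t
  f_edge : ∀ t, W.Edge t → W.Edge (f t)
  g_edge : ∀ t, W.Edge t → W.Edge (g t)
  f_tri : ∀ p q r, W.Tri p q r → W.Tri (f p) (f q) (f r)
  g_tri : ∀ p q r, W.Tri p q r → W.Tri (g p) (g q) (g r)
  c_forb : ∀ a b e, Forbidden a b e → Forbidden (c a) (c b) (c e)

namespace Aut

variable {W} (A : W.Aut)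

theorem g_flip (t : T) : A.g (W.flip t) = W.flip (A.g t) := by
  have h := A.f_flip (A.g t)
  rw [A.fg] at h
  rw [← h, A.gf]

theorem g_dn (t : T) : W.dn (A.g t) = W.dn t := by
  have h := A.f_dn (A.g t)
  rw [A.fg] at h
  exact h.symm

/-- The image of a rule. -/
def rule {t : T} {a b : ZMod 6} (r : W.Rule t a b) : W.Rule (A.f t) (A.c a) (A.c b) where
  gx := A.f r.gx
  gy := A.f r.gy
  D := fun p q g => r.D (A.g p) (A.g q) (A.g g)
  gx_ok := by
    obtain ⟨g1, g2, g3⟩ := r.gx_ok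
    exact ⟨A.f_edge _ g1, by rw [A.f_col _ g1, g2], by rw [← A.f_flip, A.f_dn, g3]⟩
  gy_ok := by
    obtain ⟨g1, g2, g3⟩ := r.gy_ok
    exact ⟨A.f_edge _ g1, by rw [A.f_col _ g1, g2], by rw [← A.f_flip, A.f_dn, g3]⟩
  tri_new := A.f_tri _ _ _ r.tri_new
  D_ne := by
    intro p q hp hq ht1 hc
    have ht' := A.g_tri _ _ _ ht1
    rw [A.gf] at ht'
    obtain ⟨g, hg⟩ := r.D_ne (A.g p) (A.g q) (A.g_edge _ hp) (A.g_edge _ hq) ht'
      (fun h => hc ⟨by rw [← A.fg p, A.f_col _ (A.g_edge _ hp), h.1],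
        by rw [← A.fg q, A.f_col _ (A.g_edge _ hq), h.2]⟩)
    exact ⟨A.f g, by rw [A.gf]; exact hg⟩
  D_ok := by
    intro p q hp hq ht1 hc g hg
    have ht' := A.g_tri _ _ _ ht1
    rw [A.gf] at ht'
    obtain ⟨g1, g2, g3, g4⟩ := r.D_ok (A.g p) (A.g q) (A.g_edge _ hp) (A.g_edge _ hq) ht'
      (fun h => hc ⟨by rw [← A.fg p, A.f_col _ (A.g_edge _ hp), h.1],
        by rw [← A.fg q, A.f_col _ (A.g_edge _ hq), h.2]⟩) (A.g g) hg
    refine ⟨?_, ?_, ?_, ?_⟩
    · have := A.f_edge _ g1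
      rwa [A.fg] at this
    · rwa [← A.g_flip, A.g_dn] at g2
    · have := A.f_tri _ _ _ g3
      rwa [A.fg, A.fg] at this
    · have := A.f_tri _ _ _ g4
      rwa [A.fg, A.fg] at this
  box := by
    intro p q p' q' u hp hq hp' hq' hu ht1 ht' h1 h2 hc hc' hd hd' g g' hg hg'
    have k1 := A.g_tri _ _ _ ht1
    have k2 := A.g_tri _ _ _ ht'
    rw [A.gf] at k1 k2
    have := r.box _ _ _ _ _ (A.g_edge _ hp) (A.g_edge _ hq) (A.g_edge _ hp')
      (A.g_edge _ hq') (A.g_edge _ hu) k1 k2 (A.g_tri _ _ _ h1) (A.g_tri _ _ _ h2)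
      (fun h => hc ⟨by rw [← A.fg p, A.f_col _ (A.g_edge _ hp), h.1],
        by rw [← A.fg q, A.f_col _ (A.g_edge _ hq), h.2]⟩)
      (fun h => hc' ⟨by rw [← A.fg p', A.f_col _ (A.g_edge _ hp'), h.1],
        by rw [← A.fg q', A.f_col _ (A.g_edge _ hq'), h.2]⟩)
      (by rw [A.g_dn, hd]) (by rw [← A.g_flip, A.g_dn, hd']) _ _ hg hg'
    have h3 := A.f_tri _ _ _ this
    rwa [A.fg, A.fg, A.fg] at h3
  arc := by
    intro p q p' q' u hp hq hp' hq' hu ht1 ht' h1 h2 hc hc' hd g hg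
    have k1 := A.g_tri _ _ _ ht1
    have k2 := A.g_tri _ _ _ ht'
    rw [A.gf] at k1 k2
    obtain ⟨g', hg', this⟩ := r.arc _ _ _ _ _ (A.g_edge _ hp) (A.g_edge _ hq) (A.g_edge _ hp')
      (A.g_edge _ hq') (A.g_edge _ hu) k1 k2 (A.g_tri _ _ _ h1) (A.g_tri _ _ _ h2)
      (fun h => hc ⟨by rw [← A.fg p, A.f_col _ (A.g_edge _ hp), h.1],
        by rw [← A.fg q, A.f_col _ (A.g_edge _ hq), h.2]⟩)
      (fun h => hc' ⟨by rw [← A.fg p', A.f_col _ (A.g_edge _ hp'), h.1],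
        by rw [← A.fg q', A.f_col _ (A.g_edge _ hq'), h.2]⟩)
      (by rw [A.g_dn, hd]) _ hg
    have h3 := A.f_tri _ _ _ this
    rw [A.fg, A.fg] at h3
    exact ⟨A.f g', by rw [A.gf]; exact hg', h3⟩

theorem serve {t : T} {a b : ZMod 6} (h : W.Serve t a b) :
    W.Serve (A.f t) (A.c a) (A.c b) :=
  ⟨A.rule h.some⟩

theorem allServed {t : T} (ht : W.Edge t) (hs : W.AllServed t) : W.AllServed (A.f t) := by
  intro a b hf
  have h1 : ¬ Forbidden (W.col t) (A.d a) (A.d b) := by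
    intro h
    have := A.c_forb _ _ _ h
    rw [A.cd, A.cd, ← A.f_col t ht] at this
    exact hf this
  have := A.serve (hs _ _ h1)
  rwa [A.cd, A.cd] at this

end Aut

end FW0

end Pool.Agent.CRQ
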