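import Pool.Agent.RA6.ChkF99
import Pool.Agent.CRQ.FWa7

/-!
Bit vector checks for finite forest worlds (MP_cf0286_al): the data of a world, whose kinds are
local to pairs of labels, and the world given by it.
-/

namespace Pool.Agent.CRQ.FChk

open Pool.Agent.RA6 Pool.Agent.RA6.Chk

/-- The data of a finite forest world: `n` labels, `K` kinds with the colours `kc` (of the labels
`a, b` and the kind `x`, at the index `(a * n + b) * K + x`), the reversal `fl` and the flag `dn`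
of the kinds, the triangle table `rows` and the edge table `edges`. -/
structure FData where
  n : ℕ
  K : ℕ
  kc : List ℕ
  fl : List ℕ
  dn : List ℕ
  rows : List ℕ
  edges : List ℕ

/-- The colour of a kind between two labels. -/
def kcf (n K : ℕ) (kc : List ℕ) (a b x : ℕ) : ℕ := kc.getD ((a * n + b) * K + x) 0

/-- The flag of a kind. -/
def dnb (dn : List ℕ) (x : ℕ) : Bool := Nat.beq (dn.getD x 0) 1

/-- The colours are below 6. -/
def chkCol (n K : ℕ) (kc : List ℕ) : Bool :=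
  allB n fun a => allB n fun b => allB K fun x => Nat.blt (kcf n K kc a b x) 6

theorem chkCol_spec {n K : ℕ} {kc : List ℕ} (h : chkCol n K kc = true) {a b x : ℕ} (ha : a < n)
    (hb : b < n) (hx : x < K) : kcf n K kc a b x < 6 := by
  have := allB_spec (allB_spec (allB_spec h a ha) b hb) x hx
  simpa [Nat.blt_eq] using this

/-- The triangles are not forbidden, for the labels `a, b`. -/
def chkForb1 (n K : ℕ) (kc R : List ℕ) (a b : ℕ) : Bool :=
  allB K fun x => force (TC n K R a b x) fun u => Nat.beq u 0 ||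
    force (kcf n K kc a b x) fun cx =>
      allB n fun c => allB K fun z =>
        force ((Nat.shiftRight u ((c * K + z) * (K * K))) % 2 ^ K) fun row =>
          Nat.beq row 0 || force (kcf n K kc b c z) fun cz =>
            allB K fun y => (! Nat.testBit row y) || ! badN cx cz (kcf n K kc a c y)

def chkForb' (n K : ℕ) (kc R : List ℕ) : Bool :=
  allB n fun a => allB n fun b => chkForb1 n K kc R a b

theorem chkForb'_spec {n K : ℕ} {kc R : List ℕ} (h0 : chkCol n K kc = true)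
    (h : chkForb' n K kc R = true) {a b c x y z : ℕ}
    (ha : a < n) (hb : b < n) (hc : c < n) (hx : x < K) (hy : y < K) (hz : z < K)
    (ht : tb n K R a b c x y z = true) :
    ¬ Forbidden (((kcf n K kc a b x : ℕ) : ZMod 6)) (((kcf n K kc b c z : ℕ) : ZMod 6))
      (((kcf n K kc a c y : ℕ) : ZMod 6)) := by
  intro hF
  rw [badN_iff _ (chkCol_spec h0 ha hb hx) _ (chkCol_spec h0 hb hc hz) _
    (chkCol_spec h0 ha hc hy)] at hF
  have h1 := allB_spec (allB_spec (allB_spec h a ha) b hb) x hx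
  rw [force_eq, Bool.or_eq_true] at h1
  unfold tb at ht
  rcases h1 with h1 | h1
  · rw [Nat.eq_of_beq_eq_true h1, Nat.zero_testBit] at ht
    exact absurd ht (by decide)
  · rw [force_eq] at h1
    have h2 := allB_spec (allB_spec h1 c hc) z hz
    rw [force_eq, Bool.or_eq_true] at h2
    have hrow : ((Nat.shiftRight (TC n K R a b x) ((c * K + z) * (K * K))) % 2 ^ K).testBit y =
        true := testBit_mod hy (testBit_shr ht)
    rcases h2 with h2 | h2
    · rw [Nat.eq_of_beq_eq_true h2, Nat.zero_testBit] at hrow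
      exact absurd hrow (by decide)
    · rw [force_eq] at h2
      have h3 := allB_spec h2 y hy
      rw [hrow, hF] at h3
      exact absurd h3 (by decide)

/-- No vertex has two parents. -/
def parMask (n K : ℕ) (fl dn : List ℕ) : ℕ :=
  force (comb (n * K) (K * K)) fun cb =>
    orB K fun y => if dnb dn (fl.getD y y) then Nat.shiftLeft cb y else 0

theorem parMask_spec {n K : ℕ} {fl dn : List ℕ} {q y : ℕ} (hq : q < n * K) (hy : y < K)
    (h : dnb dn (fl.getD y y) = true) :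
    (parMask n K fl dn).testBit (q * (K * K) + y) = true := by
  unfold parMask
  rw [force_eq]
  refine orB_spec _ hy ?_
  rw [if_pos h]
  have := testBit_shl (i := y) (comb_spec (s := K * K) hq)
  rwa [Nat.add_comm] at this

def chkPar (n K : ℕ) (fl dn R : List ℕ) : Bool :=
  force (parMask n K fl dn) fun pm =>
    allB K fun x => (! dnb dn (fl.getD x x)) ||
      allB n fun a => allB n fun b => Nat.beq (Nat.land (TC n K R a b x) pm) 0

theorem chkPar_spec {n K : ℕ} {fl dn R : List ℕ} (h : chkPar n K fl dn R = true)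
    {a b c x y z : ℕ} (ha : a < n) (hb : b < n) (hc : c < n) (hx : x < K) (hy : y < K)
    (hz : z < K) (ht : tb n K R a b c x y z = true) (h1 : dnb dn (fl.getD x x) = true)
    (h2 : dnb dn (fl.getD y y) = true) : False := by
  unfold chkPar at h
  rw [force_eq] at h
  have h3 := allB_spec h x hx
  rw [h1] at h3
  simp only [Bool.not_true, Bool.false_or] at h3
  have h4 := Nat.eq_of_beq_eq_true (allB_spec (allB_spec h3 a ha) b hb)
  have hq : c * K + z < n * K := by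
    calc c * K + z < c * K + K := by omega
      _ = (c + 1) * K := by ring
      _ ≤ n * K := Nat.mul_le_mul_right _ hc
  exact not_testBit_of_land h4 ht (parMask_spec hq hy h2)

/-- The reversal of the kinds. -/
def chkFl' (n K : ℕ) (fl kc : List ℕ) : Bool :=
  chkRange K fl && (allB K fun x => Nat.beq (fl.getD (fl.getD x x) (fl.getD x x)) x) &&
  (Nat.beq kc.length (n * n * K)) &&
  allB n fun a => allB n fun b => allB K fun x =>
    Nat.beq (kcf n K kc b a (fl.getD x x)) (kcf n K kc a b x)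

/-- A parent is not a child. -/
def chkDn (K : ℕ) (fl dn : List ℕ) : Bool :=
  allB K fun x => ! (dnb dn x && dnb dn (fl.getD x x))

/-- The check of the base of a world. -/
def FData.base (D : FData) : Bool :=
  (chkFl' D.n D.K D.fl D.kc && chkDn D.K D.fl D.dn && chkCol D.n D.K D.kc) &&
  (chkEdgeFlip D.n D.K D.fl D.edges && chkEdgeTri D.n D.K D.rows D.edges) &&
  (chkForb' D.n D.K D.kc D.rows && chkPar D.n D.K D.fl D.dn D.rows) &&
  (chkSwap12 D.n D.K D.fl D.rows && chkSwap23 D.n D.K D.fl D.rows)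

/-- The triangles. -/
def FData.Tri (D : FData) (p q r : ℕ × ℕ × ℕ) : Prop :=
  (p.1 = q.1 ∧ p.2.1 = r.1 ∧ q.2.1 = r.2.1) ∧ (p.1 < D.n ∧ p.2.1 < D.n ∧ q.2.1 < D.n) ∧
  (p.2.2 < D.K ∧ q.2.2 < D.K ∧ r.2.2 < D.K) ∧
  tb D.n D.K D.rows p.1 p.2.1 q.2.1 p.2.2 q.2.2 r.2.2 = true

/-- The edges. -/
def FData.Edge (D : FData) (t : ℕ × ℕ × ℕ) : Prop :=
  (t.1 < D.n ∧ t.2.1 < D.n ∧ t.2.2 < D.K) ∧ eb D.K D.edges t.1 t.2.1 t.2.2 = true

/-- The colour of a type; outside the range the colour 0. -/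
def FData.colN (D : FData) (t : ℕ × ℕ × ℕ) : ℕ :=
  if t.1 < D.n ∧ t.2.1 < D.n ∧ t.2.2 < D.K then kcf D.n D.K D.kc t.1 t.2.1 t.2.2 else 0

theorem colN_eq {D : FData} {a b x : ℕ} (ha : a < D.n) (hb : b < D.n) (hx : x < D.K) :
    D.colN (a, b, x) = kcf D.n D.K D.kc a b x := by
  unfold FData.colN
  rw [if_pos ⟨ha, hb, hx⟩]

/-- The parts of the base check. -/
structure Base (D : FData) : Prop where
  fl : chkFl' D.n D.K D.fl D.kc = true
  dn : chkDn D.K D.fl D.dn = true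
  col : chkCol D.n D.K D.kc = true
  eflip : chkEdgeFlip D.n D.K D.fl D.edges = true
  etri : chkEdgeTri D.n D.K D.rows D.edges = true
  forb : chkForb' D.n D.K D.kc D.rows = true
  par : chkPar D.n D.K D.fl D.dn D.rows = true
  swap12 : chkSwap12 D.n D.K D.fl D.rows = true
  swap23 : chkSwap23 D.n D.K D.fl D.rows = true

theorem base_of {D : FData} (h : D.base = true) : Base D := by
  unfold FData.base at h
  simp only [Bool.and_eq_true] at h
  obtain ⟨⟨⟨⟨⟨h1, h2⟩, h3⟩, h4, h5⟩, h6, h7⟩, h8, h9⟩ := h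
  exact ⟨h1, h2, h3, h4, h5, h6, h7, h8, h9⟩

namespace Base

variable {D : FData} (B : Base D)

include B

theorem fl_lt {x : ℕ} (hx : x < D.K) : D.fl.getD x x < D.K := by
  have h1 := B.fl
  unfold chkFl' at h1
  simp only [Bool.and_eq_true] at h1
  exact chkRange_spec h1.1.1.1 hx

theorem fl_fl (x : ℕ) : D.fl.getD (D.fl.getD x x) (D.fl.getD x x) = x := by
  have h1 := B.fl
  unfold chkFl' at h1
  simp only [Bool.and_eq_true] at h1
  by_cases hx : x < D.K
  · exact Nat.eq_of_beq_eq_true (allB_spec h1.1.1.2 x hx)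
  · have h3 := chkRange_ge h1.1.1.1 (by omega : D.K ≤ x)
    rw [h3, h3]

theorem fl_lt_iff (x : ℕ) : D.fl.getD x x < D.K ↔ x < D.K := by
  constructor
  · intro h
    have := B.fl_lt h
    rwa [B.fl_fl] at this
  · exact B.fl_lt

theorem col_lt {a b x : ℕ} (ha : a < D.n) (hb : b < D.n) (hx : x < D.K) :
    kcf D.n D.K D.kc a b x < 6 := chkCol_spec B.col ha hb hx

theorem kc_fl {a b x : ℕ} (ha : a < D.n) (hb : b < D.n) (hx : x < D.K) :
    kcf D.n D.K D.kc b a (D.fl.getD x x) = kcf D.n D.K D.kc a b x := by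
  have h1 := B.fl
  unfold chkFl' at h1
  simp only [Bool.and_eq_true] at h1
  exact Nat.eq_of_beq_eq_true (allB_spec (allB_spec (allB_spec h1.2 a ha) b hb) x hx)

/-- The world of the data. -/
def world : FW0 (ℕ × ℕ × ℕ) where
  flip := fun t => (t.2.1, t.1, D.fl.getD t.2.2 t.2.2)
  col := fun t => ((D.colN t : ℕ) : ZMod 6)
  dn := fun t => dnb D.dn t.2.2
  Edge := D.Edge
  Tri := D.Tri
  flip_flip := by
    rintro ⟨a, b, x⟩
    show (a, b, _) = (a, b, x)
    rw [B.fl_fl]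
  col_flip := by
    rintro ⟨a, b, x⟩
    show ((D.colN (b, a, D.fl.getD x x) : ℕ) : ZMod 6) = ((D.colN (a, b, x) : ℕ) : ZMod 6)
    by_cases h : a < D.n ∧ b < D.n ∧ x < D.K
    · rw [colN_eq h.1 h.2.1 h.2.2, colN_eq h.2.1 h.1 (B.fl_lt h.2.2),
        B.kc_fl h.1 h.2.1 h.2.2]
    · unfold FData.colN
      rw [if_neg h, if_neg]
      rintro ⟨h1, h2, h3⟩
      exact h ⟨h2, h1, (B.fl_lt_iff x).mp h3⟩
  edge_flip := by
    rintro ⟨a, b, x⟩ ⟨⟨h1, h2, h3⟩, h4⟩
    exact ⟨⟨h2, h1, B.fl_lt h3⟩, chkEdgeFlip_spec B.eflip h1 h2 h3 h4⟩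
  dn_anti := by
    rintro ⟨a, b, x⟩ ⟨⟨h1, h2, h3⟩, h4⟩ h5
    have h3' : x < D.K := h3
    have h5' : dnb D.dn x = true := h5
    have := allB_spec B.dn x h3'
    show dnb D.dn (D.fl.getD x x) = false
    rw [h5'] at this
    simpa using this
  tri_swap12 := by
    rintro ⟨a, b, x⟩ ⟨a', c, y⟩ ⟨b', c', z⟩ ⟨⟨e1, e2, e3⟩, ⟨h1, h2, h3⟩, ⟨k1, k2, k3⟩, ht⟩
    simp only at e1 e2 e3
    subst e1; subst e2; subst e3
    exact ⟨⟨rfl, rfl, rfl⟩, ⟨h2, h1, h3⟩, ⟨B.fl_lt k1, k3, k2⟩,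
      chkSwap12_spec B.swap12 h1 h2 h3 k1 k2 k3 ht⟩
  tri_swap23 := by
    rintro ⟨a, b, x⟩ ⟨a', c, y⟩ ⟨b', c', z⟩ ⟨⟨e1, e2, e3⟩, ⟨h1, h2, h3⟩, ⟨k1, k2, k3⟩, ht⟩
    simp only at e1 e2 e3
    subst e1; subst e2; subst e3
    exact ⟨⟨rfl, rfl, rfl⟩, ⟨h1, h3, h2⟩, ⟨k2, k1, B.fl_lt k3⟩,
      chkSwap23_spec B.swap23 h1 h2 h3 k1 k2 k3 ht⟩
  tri_ok := by
    rintro ⟨a, b, x⟩ ⟨a', c, y⟩ ⟨b', c', z⟩ ⟨⟨e1, e2, e3⟩, ⟨h1, h2, h3⟩, ⟨k1, k2, k3⟩, ht⟩
    simp only at e1 e2 e3 h1 h2 h3 k1 k2 k3 ht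
    subst e1; subst e2; subst e3
    rw [colN_eq h1 h2 k1, colN_eq h2 h3 k3, colN_eq h1 h3 k2]
    exact chkForb'_spec B.col B.forb h1 h2 h3 k1 k2 k3 ht
  tri_par := by
    rintro ⟨a, b, x⟩ ⟨a', c, y⟩ ⟨b', c', z⟩ ⟨⟨e1, e2, e3⟩, ⟨h1, h2, h3⟩, ⟨k1, k2, k3⟩, ht⟩ d1 d2
    simp only at e1 e2 e3
    subst e1; subst e2; subst e3
    exact chkPar_spec B.par h1 h2 h3 k1 k2 k3 ht d1 d2

end Base

end Pool.Agent.CRQ.FChk
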