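import Pool.Agent.CRQ.FChkA7

/-!
Bit vector checks for finite forest worlds (MP_cf0286_al): the entry of a request and its
soundness.
-/

namespace Pool.Agent.CRQ.FChk

open Pool.Agent.RA6 Pool.Agent.RA6.Chk

theorem orB_spec' {g : ℕ → ℕ} {j : ℕ} : ∀ {n : ℕ}, (orB n g).testBit j = true →
    ∃ i, i < n ∧ (g i).testBit j = true := by
  intro n
  induction n with
  | zero =>
    intro h
    have h' : (0 : ℕ).testBit j = true := h
    rw [Nat.zero_testBit] at h'
    exact absurd h' (by decide)
  | succ k ih =>
    intro h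
    have h' : (g k ||| orB k g).testBit j = true := h
    rw [Nat.testBit_or, Bool.or_eq_true] at h'
    rcases h' with h' | h'
    · exact ⟨k, by omega, h'⟩
    · obtain ⟨i, h1, h2⟩ := ih h'
      exact ⟨i, by omega, h2⟩

theorem testBit_shl' {x i j : ℕ} (h : (Nat.shiftLeft x i).testBit j = true) :
    ∃ k, j = i + k ∧ x.testBit k = true := by
  have h' : (x <<< i).testBit j = true := h
  rw [Nat.testBit_shiftLeft, Bool.and_eq_true] at h'
  have h1 : i ≤ j := by simpa using h'.1
  exact ⟨j - i, by omega, h'.2⟩

theorem testBit_mod_lt {x s j : ℕ} (h : (x % 2 ^ s).testBit j = true) : j < s := by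
  rw [Nat.testBit_mod_two_pow, Bool.and_eq_true] at h
  simpa using h.1

theorem orL_mem {j : ℕ} : ∀ {P : List ℕ} (i : ℕ), (P.getD i 0).testBit j = true →
    (orL P).testBit j = true := by
  intro P
  induction P with
  | nil =>
    intro i h
    rw [List.getD_nil, Nat.zero_testBit] at h
    exact absurd h (by decide)
  | cons p P ih =>
    intro i h
    show (p ||| orL P).testBit j = true
    rw [Nat.testBit_or, Bool.or_eq_true]
    cases i with
    | zero => exact Or.inl (by simpa using h)
    | succ i => exact Or.inr (ih i (by simpa using h))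

/-- The converse of `vecP_spec`. -/
theorem vecP_spec' {n K P c d j : ℕ} (hc : c < n) (hd : d < K) (hj : j < K * K)
    (h : (vecP n K P).testBit ((c * K + d) * (K * K) + j) = true) :
    P.testBit (c * (K * K) + j) = true := by
  unfold vecP at h
  rw [force_eq] at h
  obtain ⟨d', hd', h1⟩ := orB_spec' h
  obtain ⟨k, hk, h2⟩ := testBit_shl' h1
  obtain ⟨c', hc', h3⟩ := orB_spec' h2
  obtain ⟨j', hj', h4⟩ := testBit_shl' h3
  have hlt := testBit_mod_lt h4
  have h5 := testBit_shr' (testBit_mod' h4)
  have hK : 0 < K := by omega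
  have hKK : 0 < K * K := Nat.mul_pos hK hK
  have e0 : (c * K + d) * (K * K) + j = (c' * K + d') * (K * K) + j' := by
    rw [hk, hj']; ring
  have e1 : c * K + d = c' * K + d' := by
    have k1 : ((c * K + d) * (K * K) + j) / (K * K) = c * K + d := by
      rw [Nat.mul_comm (c * K + d), Nat.mul_add_div hKK, Nat.div_eq_of_lt hj, Nat.add_zero]
    have k2 : ((c' * K + d') * (K * K) + j') / (K * K) = c' * K + d' := by
      rw [Nat.mul_comm (c' * K + d'), Nat.mul_add_div hKK, Nat.div_eq_of_lt hlt, Nat.add_zero]
    rw [← k1, ← k2, e0]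
  have e2 : j = j' := by rw [e1] at e0; omega
  have e3 : c = c' := by
    have k1 : (c * K + d) / K = c := by
      rw [Nat.mul_comm c, Nat.mul_add_div hK, Nat.div_eq_of_lt hd, Nat.add_zero]
    have k2 : (c' * K + d') / K = c' := by
      rw [Nat.mul_comm c', Nat.mul_add_div hK, Nat.div_eq_of_lt hd', Nat.add_zero]
    rw [← k1, ← k2, e1]
  rw [e2, e3]
  exact h5

/-- The entry of a request with colours `a, b`: the server label `nu`, the kinds `ka` (from the
newborn to `x`), `kb` (to `y`) and the patterns `P[f]` of the vertices `w` which the newborn may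
see by the kind `f`. A pattern `(ρ, n', m')` (label of `w`, kind from `y`, kind from `x`) is the
bit `ρ * K ^ 2 + n' * K + m'`. -/
structure FEnt where
  a : ℕ
  b : ℕ
  nu : ℕ
  ka : ℕ
  kb : ℕ
  P : List ℕ

/-- Every pattern is covered or is a witness. -/
def chkCover' (n K : ℕ) (kc : List ℕ) (l m pt a b cov : ℕ) : Bool :=
  force (Nat.xor pt (Nat.land pt cov)) fun u => Nat.beq u 0 ||
    allB n fun ρ => force ((Nat.shiftRight u (ρ * (K * K))) % 2 ^ (K * K)) fun blk =>
      Nat.beq blk 0 || allB K fun i => force ((Nat.shiftRight blk (i * K)) % 2 ^ K) fun row =>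
        Nat.beq row 0 || (Nat.beq (kcf n K kc m ρ i) b &&
          allB K fun x => (! Nat.testBit row x) || Nat.beq (kcf n K kc l ρ x) a)

theorem chkCover'_spec {n K : ℕ} {kc : List ℕ} {l m pt a b cov : ℕ}
    (h : chkCover' n K kc l m pt a b cov = true) {ρ i x : ℕ} (hρ : ρ < n) (hi : i < K)
    (hx : x < K) (hp : pt.testBit (pos K ρ i x) = true)
    (hw : ¬ (kcf n K kc l ρ x = a ∧ kcf n K kc m ρ i = b)) :
    cov.testBit (pos K ρ i x) = true := by
  by_contra hc
  have hc' : cov.testBit (pos K ρ i x) = false := by simpa using hc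
  unfold chkCover' at h
  rw [force_eq] at h
  have hu : (Nat.xor pt (Nat.land pt cov)).testBit (pos K ρ i x) = true := by
    show (pt ^^^ (pt &&& cov)).testBit _ = true
    rw [Nat.testBit_xor, Nat.testBit_and, hp, hc']
    rfl
  have hblk := pos_mod hi hx hu
  have hrow : ((Nat.shiftRight ((Nat.shiftRight (Nat.xor pt (Nat.land pt cov)) (ρ * (K * K))) %
      2 ^ (K * K)) (i * K)) % 2 ^ K).testBit x = true := testBit_mod hx (testBit_shr hblk)
  rw [Bool.or_eq_true] at h
  rcases h with h | h
  · rw [Nat.eq_of_beq_eq_true h, Nat.zero_testBit] at hu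
    exact absurd hu (by decide)
  · have h1 := allB_spec h ρ hρ
    rw [force_eq, Bool.or_eq_true] at h1
    rcases h1 with h1 | h1
    · rw [Nat.eq_of_beq_eq_true h1, Nat.zero_testBit] at hblk
      exact absurd hblk (by decide)
    · have h2 := allB_spec h1 i hi
      rw [force_eq, Bool.or_eq_true] at h2
      rcases h2 with h2 | h2
      · rw [Nat.eq_of_beq_eq_true h2, Nat.zero_testBit] at hrow
        exact absurd hrow (by decide)
      · rw [Bool.and_eq_true] at h2
        have h3 := allB_spec h2.2 x hx
        rw [hrow] at h3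
        simp only [Bool.not_true, Bool.false_or] at h3
        exact hw ⟨Nat.eq_of_beq_eq_true h3, Nat.eq_of_beq_eq_true h2.1⟩

/-- All bits of the kinds with the property. -/
def maskD (n K : ℕ) (p : ℕ → Bool) : ℕ :=
  orB n fun c => orB K fun d =>
    if p d then Nat.shiftLeft (2 ^ (K * K) - 1) ((c * K + d) * (K * K)) else 0

theorem maskD_spec {n K : ℕ} {p : ℕ → Bool} {c d j : ℕ} (hc : c < n) (hd : d < K)
    (hj : j < K * K) (h : p d = true) :
    (maskD n K p).testBit ((c * K + d) * (K * K) + j) = true := by
  unfold maskD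
  refine orB_spec _ hc (orB_spec _ hd ?_)
  rw [if_pos h]
  refine testBit_shl ?_
  rw [Nat.testBit_two_pow_sub_one]
  simpa using hj

/-- Union of the differences. -/
def zipCov : List ℕ → List ℕ → ℕ
  | p :: P, q :: Q => Nat.lor (Nat.xor p (Nat.land p q)) (zipCov P Q)
  | [], _ => 0
  | _ :: _, [] => 0

theorem zipCov_spec {j : ℕ} : ∀ {P Q : List ℕ}, (zipCov P Q).testBit j = true →
    ∃ i, i < P.length ∧ i < Q.length ∧ (P.getD i 0).testBit j = true ∧
      (Q.getD i 0).testBit j = false := by
  intro P
  induction P with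
  | nil =>
    intro Q h
    have h' : (0 : ℕ).testBit j = true := h
    rw [Nat.zero_testBit] at h'
    exact absurd h' (by decide)
  | cons p P ih =>
    intro Q h
    cases Q with
    | nil =>
      have h' : (0 : ℕ).testBit j = true := h
      rw [Nat.zero_testBit] at h'
      exact absurd h' (by decide)
    | cons q Q =>
      have h' : (p ^^^ (p &&& q) ||| zipCov P Q).testBit j = true := h
      rw [Nat.testBit_or, Bool.or_eq_true, Nat.testBit_xor, Nat.testBit_and] at h'
      rcases h' with h' | h'
      · refine ⟨0, by simp, by simp, ?_, ?_⟩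
        · rw [List.getD_cons_zero]
          cases hp : p.testBit j with
          | true => rfl
          | false => rw [hp] at h'; exact absurd h' (by simp)
        · rw [List.getD_cons_zero]
          cases hq : q.testBit j with
          | false => rfl
          | true => rw [hq] at h'; exact absurd h' (by simp)
      · obtain ⟨i, h1, h2, h3, h4⟩ := ih h'
        exact ⟨i + 1, by simpa using h1, by simpa using h2, by simpa using h3, by simpa using h4⟩

/-- The violations: pairs of kinds which do not fit at a pair not joined by a tree edge, and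
children without a partner. -/
def bad (MB reld : ℕ) (P' Nf : List ℕ) : ℕ :=
  Nat.lor (Nat.land (zipOr P' Nf) MB) (Nat.xor reld (Nat.land reld (zipCov P' Nf)))

theorem bad_box {MB reld j : ℕ} {P' Nf : List ℕ} (h1 : (zipOr P' Nf).testBit j = true)
    (h2 : MB.testBit j = true) : (bad MB reld P' Nf).testBit j = true := by
  show (Nat.land (zipOr P' Nf) MB ||| _).testBit j = true
  rw [Nat.testBit_or, Bool.or_eq_true]
  exact Or.inl (testBit_land h1 h2)

theorem bad_arc {MB reld j : ℕ} {P' Nf : List ℕ} (h1 : reld.testBit j = true)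
    (h2 : (zipCov P' Nf).testBit j = false) : (bad MB reld P' Nf).testBit j = true := by
  show (_ ||| (reld ^^^ (reld &&& zipCov P' Nf))).testBit j = true
  rw [Nat.testBit_or, Bool.or_eq_true, Nat.testBit_xor, Nat.testBit_and, h1, h2]
  exact Or.inr rfl

/-- The check of the patterns of the newborn. -/
def chkP (n K l m : ℕ) (R : List ℕ) (VV : List (List ℕ)) (NN : List (List (List ℕ)))
    (MB MD nu ka kb : ℕ) (P : List ℕ) : Bool :=
  force (TC n K R nu l ka) fun ua => force (TC n K R nu m kb) fun ub =>
    force (Nat.land (vecP n K (orL P)) MD) fun reld =>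
    forceMap (vecP n K) P fun P' =>
      allZ VV NN 0 fun V Nρ ρ =>
        allZ P Nρ 0 fun Pf Nf f =>
          force ((Nat.shiftRight Pf (ρ * (K * K))) % 2 ^ (K * K)) fun sub =>
            Nat.beq sub 0 || (chkOk K ρ f ua ub sub &&
              force (bad MB reld P' Nf) fun B => trav B V sub)

/-- The check of an entry. -/
def chkEnt' (n K : ℕ) (kc dn R : List ℕ) (l m c : ℕ) (VV : List (List ℕ))
    (NN : List (List (List (List ℕ)))) (MB MD pt : ℕ) (e : FEnt) : Bool :=
  (Nat.blt e.nu n && Nat.blt e.ka K && Nat.blt e.kb K) && (! dnb dn e.ka && ! dnb dn e.kb) &&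
  (Nat.beq (kcf n K kc e.nu l e.ka) e.a && Nat.beq (kcf n K kc e.nu m e.kb) e.b) &&
  (Nat.beq e.P.length K && tb n K R e.nu l m e.ka e.kb c) &&
  (allB K fun f => (! dnb dn f) || Nat.beq (e.P.getD f 0) 0) &&
  (force (orL e.P) fun cov => chkCover' n K kc l m pt e.a e.b cov) &&
  chkP n K l m R VV (NN.getD e.nu []) MB MD e.nu e.ka e.kb e.P

theorem chkP_spec {n K l m : ℕ} {R P : List ℕ} {nu ka kb : ℕ} {pb pd : ℕ → Bool}
    (hP : P.length = K)
    (h : chkP n K l m R ((rng n 0).map fun ρ => (rng (K * K) 0).map (Vp n K R l m ρ))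
      (NpL n K R nu) (maskD n K pb) (maskD n K pd) nu ka kb P = true)
    {ρ f i x : ℕ} (hρ : ρ < n) (hf : f < K) (hi : i < K) (hx : x < K)
    (hbit : (P.getD f 0).testBit (pos K ρ i x) = true) :
    (tb n K R nu l ρ ka f x = true ∧ tb n K R nu m ρ kb f i = true) ∧
    (∀ ρ' f' i' x' d, ρ' < n → f' < K → i' < K → x' < K → d < K → pb d = true →
      (P.getD f' 0).testBit (pos K ρ' i' x') = true →
      tb n K R l ρ ρ' x x' d = true → tb n K R m ρ ρ' i i' d = true →
      tb n K R nu ρ ρ' f f' d = true) ∧
    (∀ ρ' i' x' d, ρ' < n → i' < K → x' < K → d < K → pd d = true →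
      (orL P).testBit (pos K ρ' i' x') = true →
      tb n K R l ρ ρ' x x' d = true → tb n K R m ρ ρ' i i' d = true →
      ∃ f', f' < K ∧ (P.getD f' 0).testBit (pos K ρ' i' x') = true ∧
        tb n K R nu ρ ρ' f f' d = true) := by
  unfold chkP at h
  simp only [force_eq, forceMap_eq] at h
  have h1 := allZ_spec _ _ _ h ρ (by rw [rng_map_length]; exact hρ)
    (by unfold NpL; rw [rng_map_length]; exact hρ)
  simp only [NpL, rng_map_get, Nat.zero_add] at h1
  have h2 := allZ_spec _ _ _ h1 f (by rw [hP]; exact hf) (by rw [rng_map_length]; exact hf)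
  simp only [rng_map_get, Nat.zero_add] at h2
  have eP : P.getD f 0 = P[f]'(by rw [hP]; exact hf) :=
    List.getD_eq_getElem _ _ (by rw [hP]; exact hf)
  rw [eP] at hbit
  have hsub := pos_mod hi hx hbit
  rw [Bool.or_eq_true] at h2
  rcases h2 with h2 | h2
  · rw [Nat.eq_of_beq_eq_true h2, Nat.zero_testBit] at hsub
    exact absurd hsub (by decide)
  · rw [Bool.and_eq_true] at h2
    obtain ⟨k1, k2⟩ := chkOk_spec h2.1 hi hx hsub
    have h3 := trav_spec _ _ h2.2 (i * K + x) (by rw [rng_map_length]; exact im_lt hi hx) hsub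
    rw [rng_map_get] at h3
    have hqq : ∀ ρ' d, ρ' < n → d < K → ρ' * K + d < n * K := by
      intro ρ' d hρ' hd
      calc ρ' * K + d < ρ' * K + K := by omega
        _ = (ρ' + 1) * K := by ring
        _ ≤ n * K := Nat.mul_le_mul_right _ hρ'
    refine ⟨⟨k1, k2⟩, ?_, ?_⟩
    · intro ρ' f' i' x' d hρ' hf' hi' hx' hd hpb hb' ht1 ht2
      by_contra hcon
      have hcon' : tb n K R nu ρ ρ' f f' d = false := by simpa using hcon
      have hN : (Np n K R nu ρ f f').testBit ((ρ' * K + d) * (K * K) + i' * K + x') = true :=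
        vecN_spec (hqq _ _ hρ' hd) hi' hx' hcon'
      have eP' : P.getD f' 0 = P[f']'(by rw [hP]; exact hf') :=
        List.getD_eq_getElem _ _ (by rw [hP]; exact hf')
      rw [eP'] at hb'
      have hPv := vecP_spec (n := n) (d := d) hρ' hd hi' hx' hb'
      refine not_testBit_of_land h3 (Vp_bit hρ' hi hx hi' hx' hd ht1 ht2) ?_
      refine bad_box ?_ ?_
      · refine zipOr_spec _ _ _ f' (by rw [List.length_map, hP]; exact hf')
          (by rw [rng_map_length]; exact hf') ?_ ?_
        · rw [List.getElem_map]; exact hPv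
        · rw [rng_map_get]; exact hN
      · have := maskD_spec (n := n) (p := pb) hρ' hd (im_lt hi' hx') hpb
        rwa [← Nat.add_assoc] at this
    · intro ρ' i' x' d hρ' hi' hx' hd hpd hrel ht1 ht2
      by_contra hcon
      refine not_testBit_of_land h3 (Vp_bit hρ' hi hx hi' hx' hd ht1 ht2) ?_
      refine bad_arc ?_ ?_
      · refine testBit_land (vecP_spec hρ' hd hi' hx' hrel) ?_
        have := maskD_spec (n := n) (p := pd) hρ' hd (im_lt hi' hx') hpd
        rwa [← Nat.add_assoc] at this
      · by_contra hz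
        have hz' : (zipCov (P.map (vecP n K)) ((rng K 0).map fun f' =>
            Np n K R nu ρ f f')).testBit ((ρ' * K + d) * (K * K) + i' * K + x') = true := by
          simpa using hz
        obtain ⟨f', g1, g2, g3, g4⟩ := zipCov_spec hz'
        rw [List.length_map] at g1
        rw [rng_map_length] at g2
        apply hcon
        have e1 : (P.map (vecP n K)).getD f' 0 = vecP n K (P.getD f' 0) := by
          rw [List.getD_eq_getElem _ _ (by rw [List.length_map]; exact g1), List.getElem_map,
            List.getD_eq_getElem _ _ g1]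
        rw [e1, Nat.add_assoc] at g3
        rw [getD_map_rng g2] at g4
        refine ⟨f', g2, ?_, ?_⟩
        · have := vecP_spec' hρ' hd (im_lt hi' hx') g3
          unfold pos
          rwa [Nat.add_assoc]
        · by_contra ht
          have ht' : tb n K R nu ρ ρ' f f' d = false := by simpa using ht
          have hN : (Np n K R nu ρ f f').testBit ((ρ' * K + d) * (K * K) + i' * K + x') = true :=
            vecN_spec (hqq _ _ hρ' hd) hi' hx' ht'
          rw [g4] at hN
          exact absurd hN (by decide)

end Pool.Agent.CRQ.FChk
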