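import Pool.Agent.CRQ.FChkB7

/-!
Bit vector checks for finite forest worlds (MP_cf0286_al): a checked entry serves its request, and
lists of requests.
-/

namespace Pool.Agent.CRQ.FChk

open Pool.Agent.RA6 Pool.Agent.RA6.Chk

theorem ftri_rot {T : Type} (W : FW0 T) {A B C : T} (h : W.Tri A B C) :
    W.Tri C (W.flip A) (W.flip B) := by
  have h1 := W.tri_swap12 _ _ _ h
  have h2 := W.tri_swap23 _ _ _ h1
  exact h2

theorem ftri_edge {D : FData} (B : Base D) {p q r : ℕ × ℕ × ℕ} (h : D.Tri p q r) :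
    D.Edge p := by
  obtain ⟨_, ⟨h1, h2, _⟩, ⟨k1, _, _⟩, ht⟩ := h
  exact ⟨⟨h1, h2, k1⟩, chkEdgeTri_spec B.etri h1 h2 k1 ht⟩

/-- The kinds that are not tree edges. -/
def pbox (D : FData) (d : ℕ) : Bool := ! dnb D.dn d && ! dnb D.dn (D.fl.getD d d)

/-- A checked entry serves its request. -/
theorem chkEnt'_serve (D : FData) (B : Base D) {l m c : ℕ} (hl : l < D.n) (hm : m < D.n)
    (hc : c < D.K) {NN : List (List (List (List ℕ)))} {e : FEnt}
    (hN : NN.getD e.nu [] = NpL D.n D.K D.rows e.nu)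
    (h : chkEnt' D.n D.K D.kc D.dn D.rows l m c
      ((rng D.n 0).map fun ρ => (rng (D.K * D.K) 0).map (Vp D.n D.K D.rows l m ρ)) NN
      (maskD D.n D.K (pbox D)) (maskD D.n D.K (dnb D.dn))
      (patt D.n D.K (TC D.n D.K D.rows l m c)) e = true) :
    B.world.Serve (l, m, c) ((e.a : ℕ) : ZMod 6) ((e.b : ℕ) : ZMod 6) := by
  unfold chkEnt' at h
  rw [hN] at h
  simp only [force_eq, Bool.and_eq_true, Bool.not_eq_true'] at h
  obtain ⟨⟨⟨⟨⟨⟨⟨⟨h1, h2⟩, h3⟩, h4, h5⟩, h6, h7⟩, h8, h9⟩, h10⟩, hcov⟩, hPP⟩ := h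
  have hnu : e.nu < D.n := by simpa [Nat.blt_eq] using h1
  have hka : e.ka < D.K := by simpa [Nat.blt_eq] using h2
  have hkb : e.kb < D.K := by simpa [Nat.blt_eq] using h3
  have hea := Nat.eq_of_beq_eq_true h6
  have heb := Nat.eq_of_beq_eq_true h7
  have hPl := Nat.eq_of_beq_eq_true h8
  have ha6 : e.a < 6 := by rw [← hea]; exact B.col_lt hnu hl hka
  have hb6 : e.b < 6 := by rw [← heb]; exact B.col_lt hnu hm hkb
  have hdnf : ∀ f, f < D.K → ∀ j, (e.P.getD f 0).testBit j = true → dnb D.dn f = false := by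
    intro f hf j hj
    have := allB_spec h10 f hf
    rw [Bool.or_eq_true] at this
    rcases this with this | this
    · simpa using this
    · rw [Nat.eq_of_beq_eq_true this, Nat.zero_testBit] at hj
      exact absurd hj (by decide)
  -- the triangle of the newborn
  have T0 : B.world.Tri (e.nu, l, e.ka) (e.nu, m, e.kb) (l, m, c) :=
    ⟨⟨rfl, rfl, rfl⟩, ⟨hnu, hl, hm⟩, ⟨hka, hkb, hc⟩, h9⟩
  have Tn : B.world.Tri (l, m, c) (l, e.nu, D.fl.getD e.ka e.ka)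
      (m, e.nu, D.fl.getD e.kb e.kb) := ftri_rot _ T0
  have Ex : D.Edge (l, e.nu, D.fl.getD e.ka e.ka) :=
    ftri_edge B (B.world.tri_swap23 _ _ _ Tn)
  have Ey : D.Edge (m, e.nu, D.fl.getD e.kb e.kb) := by
    have h1 := B.world.tri_swap12 _ _ _ Tn
    exact ftri_edge B (B.world.tri_swap23 _ _ _ h1)
  -- unpack a pattern
  have unp : ∀ p q : ℕ × ℕ × ℕ, B.world.Tri (l, m, c) p q →
      ∃ ρ x i, ρ < D.n ∧ x < D.K ∧ i < D.K ∧ p = (l, ρ, x) ∧ q = (m, ρ, i) ∧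
        tb D.n D.K D.rows l m ρ c x i = true := by
    rintro ⟨l', ρ, x⟩ ⟨m', ρ', i⟩ ⟨⟨e1, e2, e3⟩, ⟨h1, h2, h3⟩, ⟨k1, k2, k3⟩, ht⟩
    simp only at e1 e2 e3
    subst e1; subst e2; subst e3
    exact ⟨ρ, x, i, h3, k2, k3, rfl, rfl, ht⟩
  have colz : ∀ x, B.world.col x = ((D.colN x : ℕ) : ZMod 6) := fun _ => rfl
  have hdnw : ∀ x, B.world.dn x = dnb D.dn x.2.2 := fun _ => rfl
  -- the pattern is covered
  have kin : ∀ ρ x i, ρ < D.n → x < D.K → i < D.K → tb D.n D.K D.rows l m ρ c x i = true →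
      ¬ (B.world.col (l, ρ, x) = ((e.a : ℕ) : ZMod 6) ∧
        B.world.col (m, ρ, i) = ((e.b : ℕ) : ZMod 6)) →
      (orL e.P).testBit (pos D.K ρ i x) = true := by
    intro ρ x i hρ hx hi ht hw
    refine chkCover'_spec hcov hρ hi hx (pt_bit hρ hi hx ht) ?_
    rintro ⟨w1, w2⟩
    apply hw
    rw [colz, colz, colN_eq hl hρ hx, colN_eq hm hρ hi, w1, w2]
    exact ⟨rfl, rfl⟩
  refine ⟨{ gx := (l, e.nu, D.fl.getD e.ka e.ka), gy := (m, e.nu, D.fl.getD e.kb e.kb),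
            D := fun p q g => ∃ f, f < D.K ∧
              (e.P.getD f 0).testBit (pos D.K p.2.1 q.2.2 p.2.2) = true ∧
              g = (p.2.1, e.nu, D.fl.getD f f),
            gx_ok := ?_, gy_ok := ?_, tri_new := Tn, D_ne := ?_, D_ok := ?_, box := ?_,
            arc := ?_ }⟩
  · refine ⟨Ex, ?_, ?_⟩
    · rw [colz, colN_eq hl hnu (B.fl_lt hka), B.kc_fl hnu hl hka, hea]
    · rw [hdnw]
      show dnb D.dn (D.fl.getD (D.fl.getD e.ka e.ka) (D.fl.getD e.ka e.ka)) = false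
      rw [B.fl_fl]; exact h4
  · refine ⟨Ey, ?_, ?_⟩
    · rw [colz, colN_eq hm hnu (B.fl_lt hkb), B.kc_fl hnu hm hkb, heb]
    · rw [hdnw]
      show dnb D.dn (D.fl.getD (D.fl.getD e.kb e.kb) (D.fl.getD e.kb e.kb)) = false
      rw [B.fl_fl]; exact h5
  · intro p q hp hq ht hw
    obtain ⟨ρ, x, i, hρ, hx, hi, rfl, rfl, htb⟩ := unp p q ht
    have h1 := kin ρ x i hρ hx hi htb hw
    obtain ⟨f, hf, hfb⟩ := orL_spec h1
    rw [hPl] at hf
    exact ⟨_, f, hf, hfb, rfl⟩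
  · rintro p q hp hq ht hw g ⟨f, hf, hfb, rfl⟩
    obtain ⟨ρ, x, i, hρ, hx, hi, rfl, rfl, htb⟩ := unp p q ht
    obtain ⟨⟨k1, k2⟩, _⟩ := chkP_spec hPl hPP hρ hf hi hx hfb
    have T1 : B.world.Tri (e.nu, l, e.ka) (e.nu, ρ, f) (l, ρ, x) :=
      ⟨⟨rfl, rfl, rfl⟩, ⟨hnu, hl, hρ⟩, ⟨hka, hf, hx⟩, k1⟩
    have T2 : B.world.Tri (e.nu, m, e.kb) (e.nu, ρ, f) (m, ρ, i) :=
      ⟨⟨rfl, rfl, rfl⟩, ⟨hnu, hm, hρ⟩, ⟨hkb, hf, hi⟩, k2⟩
    have T1' := ftri_rot _ T1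
    have T2' := ftri_rot _ T2
    refine ⟨ftri_edge B (ftri_rot _ T1'), ?_, T1', T2'⟩
    rw [hdnw]
    show dnb D.dn (D.fl.getD (D.fl.getD f f) (D.fl.getD f f)) = false
    rw [B.fl_fl]
    exact hdnf f hf _ hfb
  · rintro p q p' q' u hp hq hp' hq' hu ht ht' h1 h2 hw hw' hd hd' g g' ⟨f, hf, hfb, rfl⟩
      ⟨f', hf', hfb', rfl⟩
    obtain ⟨ρ, x, i, hρ, hx, hi, rfl, rfl, htb⟩ := unp p q ht
    obtain ⟨ρ', x', i', hρ', hx', hi', rfl, rfl, htb'⟩ := unp p' q' ht'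
    obtain ⟨_, k3, _⟩ := chkP_spec hPl hPP hρ hf hi hx hfb
    obtain ⟨u1, u2, d⟩ := u
    obtain ⟨⟨e1, e2, e3⟩, _, ⟨_, _, hdK⟩, ht1⟩ := h1
    obtain ⟨_, _, _, ht2⟩ := h2
    simp only at e1 e2 e3 hdK ht1 ht2
    subst e2; subst e3
    rw [hdnw] at hd hd'
    have hd1 : dnb D.dn d = false := hd
    have hd2 : dnb D.dn (D.fl.getD d d) = false := hd'
    have := k3 _ _ i' x' d hρ' hf' hi' hx' hdK (by unfold pbox; rw [hd1, hd2]; rfl) hfb' ht1 ht2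
    have T3 : B.world.Tri (e.nu, ρ, f) (e.nu, ρ', f') (ρ, ρ', d) :=
      ⟨⟨rfl, rfl, rfl⟩, ⟨hnu, hρ, hρ'⟩, ⟨hf, hf', hdK⟩, this⟩
    exact ftri_rot _ T3
  · rintro p q p' q' u hp hq hp' hq' hu ht ht' h1 h2 hw hw' hd g ⟨f, hf, hfb, rfl⟩
    obtain ⟨ρ, x, i, hρ, hx, hi, rfl, rfl, htb⟩ := unp p q ht
    obtain ⟨ρ', x', i', hρ', hx', hi', rfl, rfl, htb'⟩ := unp p' q' ht'
    obtain ⟨_, _, k4⟩ := chkP_spec hPl hPP hρ hf hi hx hfb
    obtain ⟨u1, u2, d⟩ := u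
    obtain ⟨⟨e1, e2, e3⟩, _, ⟨_, _, hdK⟩, ht1⟩ := h1
    obtain ⟨_, _, _, ht2⟩ := h2
    simp only at e1 e2 e3 hdK ht1 ht2
    subst e2; subst e3
    rw [hdnw] at hd
    have hd1 : dnb D.dn d = true := hd
    obtain ⟨f', hf', hfb', this⟩ := k4 _ i' x' d hρ' hi' hx' hdK hd1
      (kin ρ' x' i' hρ' hx' hi' htb' hw') ht1 ht2
    have T3 : B.world.Tri (e.nu, ρ, f) (e.nu, ρ', f') (ρ, ρ', d) :=
      ⟨⟨rfl, rfl, rfl⟩, ⟨hnu, hρ, hρ'⟩, ⟨hf, hf', hdK⟩, this⟩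
    exact ⟨_, ⟨f', hf', hfb', rfl⟩, ftri_rot _ T3⟩

/-! ### Lists of requests -/

/-- The complements for all servers. -/
def buildNN' {α : Type} (n K : ℕ) (R : List ℕ) (k : List (List (List (List ℕ))) → α) : α :=
  force (comb (n * K) (K * K)) fun cb => buildAll (fun ν k => buildN n K R cb ν k) (rng n 0) k

theorem buildNN'_eq {α : Type} (n K : ℕ) (R : List ℕ)
    (k : List (List (List (List ℕ))) → α) :
    buildNN' n K R k = k ((rng n 0).map fun ν => NpL n K R ν) := by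
  unfold buildNN'
  rw [force_eq, buildAll_eq _ (fun ν => NpL n K R ν)]
  intro ν k
  exact buildN_eq n K R ν k

/-- The check of all requests at a pair. -/
def chkType' (n K : ℕ) (kc dn R : List ℕ) (NN : List (List (List (List ℕ)))) (MB MD : ℕ)
    (T : (ℕ × ℕ × ℕ) × List FEnt) : Bool :=
  (Nat.blt T.1.1 n && Nat.blt T.1.2.1 n && Nat.blt T.1.2.2 K) &&
  (force (kcf n K kc T.1.1 T.1.2.1 T.1.2.2) fun ct =>
    allB 6 fun a => allB 6 fun b => badN ct a b ||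
      anyL (fun e => Nat.beq e.a a && Nat.beq e.b b) T.2) &&
  force (patt n K (TC n K R T.1.1 T.1.2.1 T.1.2.2)) fun pt =>
    buildVV n K R T.1.1 T.1.2.1 fun VV =>
      allL (chkEnt' n K kc dn R T.1.1 T.1.2.1 T.1.2.2 VV NN MB MD pt) T.2

theorem chkType'_spec (D : FData) (B : Base D) {T : (ℕ × ℕ × ℕ) × List FEnt}
    (h : chkType' D.n D.K D.kc D.dn D.rows ((rng D.n 0).map fun ν => NpL D.n D.K D.rows ν)
      (maskD D.n D.K (pbox D)) (maskD D.n D.K (dnb D.dn)) T = true) :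
    B.world.AllServed T.1 := by
  obtain ⟨⟨l, m, c⟩, es⟩ := T
  unfold chkType' at h
  simp only [force_eq, buildVV_eq, Bool.and_eq_true] at h
  obtain ⟨⟨⟨⟨h1, h2⟩, h3⟩, h4⟩, h5⟩ := h
  have hl : l < D.n := by simpa [Nat.blt_eq] using h1
  have hm : m < D.n := by simpa [Nat.blt_eq] using h2
  have hc : c < D.K := by simpa [Nat.blt_eq] using h3
  intro a b hf
  have hf' : ¬ Forbidden ((D.colN (l, m, c) : ℕ) : ZMod 6) a b := hf
  rw [colN_eq hl hm hc] at hf'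
  have h6 := allB_spec (allB_spec h4 a.val (val_lt6 a)) b.val (val_lt6 b)
  rw [Bool.or_eq_true] at h6
  rcases h6 with h6 | h6
  · exfalso
    apply hf'
    have := (badN_iff _ (B.col_lt hl hm hc) _ (val_lt6 a) _ (val_lt6 b)).mpr h6
    rwa [cast_val6, cast_val6] at this
  · obtain ⟨e, he, hab⟩ := anyL_spec h6
    rw [Bool.and_eq_true] at hab
    have ea := Nat.eq_of_beq_eq_true hab.1
    have eb' := Nat.eq_of_beq_eq_true hab.2
    have hE := allL_spec h5 e he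
    have hnu : e.nu < D.n := by
      unfold chkEnt' at hE
      simp only [Bool.and_eq_true] at hE
      simpa [Nat.blt_eq] using hE.1.1.1.1.1.1.1.1
    have := chkEnt'_serve D B hl hm hc (e := e) (by
      rw [List.getD_eq_getElem _ _ (by rw [rng_map_length]; exact hnu), rng_map_get]) hE
    rwa [ea, eb', cast_val6, cast_val6] at this

/-- The check of a list of requests. -/
def chkChunk' (D : FData) (Ts : List ((ℕ × ℕ × ℕ) × List FEnt)) : Bool :=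
  force (maskD D.n D.K (pbox D)) fun MB => force (maskD D.n D.K (dnb D.dn)) fun MD =>
    buildNN' D.n D.K D.rows fun NN => allL (chkType' D.n D.K D.kc D.dn D.rows NN MB MD) Ts

theorem chkChunk'_spec (D : FData) (B : Base D) {Ts : List ((ℕ × ℕ × ℕ) × List FEnt)}
    (h : chkChunk' D Ts = true) : ∀ T ∈ Ts, B.world.AllServed T.1 := by
  unfold chkChunk' at h
  rw [force_eq, force_eq, buildNN'_eq] at h
  intro T hT
  exact chkType'_spec D B (allL_spec h T hT)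

end Pool.Agent.CRQ.FChk
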