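import Pool.Agent.RA6.ChkH99
import Pool.Agent.CRQ.FChkC7

/-!
Bit vector checks for finite forest worlds (MP_cf0286_al): automorphisms and the final theorem.
-/

namespace Pool.Agent.CRQ.FChk

open Pool.Agent.RA6 Pool.Agent.RA6.Chk

/-- The check of an automorphism. -/
def chkAut' (D : FData) (A : AutD) : Bool :=
  (chkInv D.n A.f A.g && chkInv D.K A.k A.j && chkInv 6 A.c A.d) &&
  ((allB D.K fun x => Nat.beq (A.k.getD (D.fl.getD x x) (D.fl.getD x x))
      (D.fl.getD (A.k.getD x x) (A.k.getD x x)) &&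
    (dnb D.dn (A.k.getD x x) == dnb D.dn x)) &&
  (allB D.n fun a => allB D.n fun b => allB D.K fun x => (! eb D.K D.edges a b x) ||
    Nat.beq (kcf D.n D.K D.kc (A.f.getD a a) (A.f.getD b b) (A.k.getD x x))
      (A.c.getD (kcf D.n D.K D.kc a b x) (kcf D.n D.K D.kc a b x)))) &&
  (allB 6 fun a => allB 6 fun b => allB 6 fun e =>
    (! badN a b e || badN (A.c.getD a a) (A.c.getD b b) (A.c.getD e e))) &&
  (chkMoves D.n D.K A.f A.k A.mf && chkMoves D.n D.K A.g A.j A.mg) &&
  (chkMap2 D.n D.K A.f A.k A.mf D.rows && chkMap2 D.n D.K A.g A.j A.mg D.rows) &&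
  (chkEdgeMap2 D.n D.K A.f A.k D.edges && chkEdgeMap2 D.n D.K A.g A.j D.edges)

/-- The parts of the check of an automorphism. -/
structure AutOK (D : FData) (A : AutD) : Prop where
  invn : chkInv D.n A.f A.g = true
  invK : chkInv D.K A.k A.j = true
  inv6 : chkInv 6 A.c A.d = true
  kfl : (allB D.K fun x => Nat.beq (A.k.getD (D.fl.getD x x) (D.fl.getD x x))
      (D.fl.getD (A.k.getD x x) (A.k.getD x x)) &&
    (dnb D.dn (A.k.getD x x) == dnb D.dn x)) = true
  kcol : (allB D.n fun a => allB D.n fun b => allB D.K fun x => (! eb D.K D.edges a b x) ||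
    Nat.beq (kcf D.n D.K D.kc (A.f.getD a a) (A.f.getD b b) (A.k.getD x x))
      (A.c.getD (kcf D.n D.K D.kc a b x) (kcf D.n D.K D.kc a b x))) = true
  bad6 : (allB 6 fun a => allB 6 fun b => allB 6 fun e =>
    (! badN a b e || badN (A.c.getD a a) (A.c.getD b b) (A.c.getD e e))) = true
  mvf : chkMoves D.n D.K A.f A.k A.mf = true
  mvg : chkMoves D.n D.K A.g A.j A.mg = true
  mapf : chkMap2 D.n D.K A.f A.k A.mf D.rows = true
  mapg : chkMap2 D.n D.K A.g A.j A.mg D.rows = true
  edf : chkEdgeMap2 D.n D.K A.f A.k D.edges = true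
  edg : chkEdgeMap2 D.n D.K A.g A.j D.edges = true

theorem autOK_of {D : FData} {A : AutD} (h : chkAut' D A = true) : AutOK D A := by
  unfold chkAut' at h
  rw [Bool.and_eq_true, Bool.and_eq_true, Bool.and_eq_true, Bool.and_eq_true, Bool.and_eq_true,
    Bool.and_eq_true, Bool.and_eq_true, Bool.and_eq_true, Bool.and_eq_true, Bool.and_eq_true,
    Bool.and_eq_true] at h
  obtain ⟨⟨⟨⟨⟨⟨⟨h1, h2⟩, h3⟩, h4, h5⟩, h6⟩, h7, h8⟩, h9, h10⟩, h11, h12⟩ := h
  exact ⟨h1, h2, h3, h4, h5, h6, h7, h8, h9, h10, h11, h12⟩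

theorem fmapT_tri {D : FData} {f k : List ℕ} {mv : List (ℕ × ℕ × ℕ)}
    (h0 : chkMoves D.n D.K f k mv = true) (h : chkMap2 D.n D.K f k mv D.rows = true)
    (hf : ∀ a, a < D.n → f.getD a a < D.n) (hk : ∀ a, a < D.K → k.getD a a < D.K)
    (p q r : ℕ × ℕ × ℕ) (ht : D.Tri p q r) : D.Tri (mapT f k p) (mapT f k q) (mapT f k r) := by
  obtain ⟨a, b, x⟩ := p
  obtain ⟨a', c, y⟩ := q
  obtain ⟨b', c', z⟩ := r
  obtain ⟨⟨e1, e2, e3⟩, ⟨h1, h2, h3⟩, ⟨k1, k2, k3⟩, ht⟩ := ht
  simp only at e1 e2 e3
  subst e1; subst e2; subst e3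
  exact ⟨⟨rfl, rfl, rfl⟩, ⟨hf _ h1, hf _ h2, hf _ h3⟩, ⟨hk _ k1, hk _ k2, hk _ k3⟩,
    chkMap2_spec h0 h h1 h2 h3 k1 k2 k3 ht⟩

theorem fmapT_edge {D : FData} {f k : List ℕ} (h : chkEdgeMap2 D.n D.K f k D.edges = true)
    (hf : ∀ a, a < D.n → f.getD a a < D.n) (hk : ∀ a, a < D.K → k.getD a a < D.K)
    (t : ℕ × ℕ × ℕ) (ht : D.Edge t) : D.Edge (mapT f k t) := by
  obtain ⟨⟨h1, h2, h3⟩, h4⟩ := ht
  exact ⟨⟨hf _ h1, hf _ h2, hk _ h3⟩, chkEdgeMap2_spec h h1 h2 h3 h4⟩

/-- The automorphism of the world. -/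
def aut {D : FData} (B : Base D) {A : AutD} (H : AutOK D A) : B.world.Aut := by
  have nf : ∀ a, a < D.n → A.f.getD a a < D.n := fun a ha => ((chkInv_spec H.invn a).2.2 ha).1
  have ng : ∀ a, a < D.n → A.g.getD a a < D.n := fun a ha => ((chkInv_spec H.invn a).2.2 ha).2
  have kf : ∀ a, a < D.K → A.k.getD a a < D.K := fun a ha => ((chkInv_spec H.invK a).2.2 ha).1
  have kg : ∀ a, a < D.K → A.j.getD a a < D.K := fun a ha => ((chkInv_spec H.invK a).2.2 ha).2
  have kge : ∀ x, ¬ x < D.K → A.k.getD x x = x := by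
    intro x hx
    have h0 := H.invK
    unfold chkInv at h0
    rw [Bool.and_eq_true, Bool.and_eq_true] at h0
    exact chkRange_ge h0.1.1 (by omega : D.K ≤ x)
  exact
  { f := mapT A.f A.k
    g := mapT A.g A.j
    c := mapC A.c
    d := mapC A.d
    fg := by
      rintro ⟨a, b, x⟩
      show (_, _, _) = (a, b, x)
      simp only [mapT]
      rw [(chkInv_spec H.invn a).1, (chkInv_spec H.invn b).1, (chkInv_spec H.invK x).1]
    gf := by
      rintro ⟨a, b, x⟩
      show (_, _, _) = (a, b, x)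
      simp only [mapT]
      rw [(chkInv_spec H.invn a).2.1, (chkInv_spec H.invn b).2.1, (chkInv_spec H.invK x).2.1]
    cd := by
      intro a
      have ha := val_lt6 a
      unfold mapC
      rw [ZMod.val_natCast_of_lt ((chkInv_spec H.inv6 a.val).2.2 ha).2,
        (chkInv_spec H.inv6 a.val).1, cast_val6]
    dc := by
      intro a
      have ha := val_lt6 a
      unfold mapC
      rw [ZMod.val_natCast_of_lt ((chkInv_spec H.inv6 a.val).2.2 ha).1,
        (chkInv_spec H.inv6 a.val).2.1, cast_val6]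
    f_flip := by
      rintro ⟨a, b, x⟩
      show (A.f.getD b b, A.f.getD a a, A.k.getD (D.fl.getD x x) (D.fl.getD x x)) =
        (A.f.getD b b, A.f.getD a a, D.fl.getD (A.k.getD x x) (A.k.getD x x))
      by_cases hx : x < D.K
      · have := allB_spec H.kfl x hx
        rw [Bool.and_eq_true] at this
        rw [Nat.eq_of_beq_eq_true this.1]
      · have e1 : D.fl.getD x x = x := by
          have h1 := B.fl
          unfold chkFl' at h1
          simp only [Bool.and_eq_true] at h1
          exact chkRange_ge h1.1.1.1 (by omega : D.K ≤ x)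
        rw [e1, kge x hx, e1]
    f_col := by
      rintro ⟨a, b, x⟩ ⟨⟨ha, hb, hx⟩, he⟩
      have ha' : a < D.n := ha
      have hb' : b < D.n := hb
      have hx' : x < D.K := hx
      have he' : eb D.K D.edges a b x = true := he
      show ((D.colN (A.f.getD a a, A.f.getD b b, A.k.getD x x) : ℕ) : ZMod 6) =
        mapC A.c ((D.colN (a, b, x) : ℕ) : ZMod 6)
      rw [colN_eq ha' hb' hx', colN_eq (nf a ha') (nf b hb') (kf x hx'),
        mapC_cast (B.col_lt ha' hb' hx')]
      have := allB_spec (allB_spec (allB_spec H.kcol a ha') b hb') x hx'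
      rw [he'] at this
      simp only [Bool.not_true, Bool.false_or] at this
      rw [Nat.eq_of_beq_eq_true this]
    f_dn := by
      rintro ⟨a, b, x⟩
      show dnb D.dn (A.k.getD x x) = dnb D.dn x
      by_cases hx : x < D.K
      · have := allB_spec H.kfl x hx
        rw [Bool.and_eq_true] at this
        exact eq_of_beq this.2
      · rw [kge x hx]
    f_edge := fmapT_edge H.edf nf kf
    g_edge := fmapT_edge H.edg ng kg
    f_tri := fmapT_tri H.mvf H.mapf nf kf
    g_tri := fmapT_tri H.mvg H.mapg ng kg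
    c_forb := by
      intro p q r hF
      have hp := val_lt6 p
      have hq := val_lt6 q
      have hr := val_lt6 r
      rw [← cast_val6 p, ← cast_val6 q, ← cast_val6 r] at hF
      rw [badN_iff _ hp _ hq _ hr] at hF
      have := allB_spec (allB_spec (allB_spec H.bad6 p.val hp) q.val hq) r.val hr
      rw [hF] at this
      simp only [Bool.not_true, Bool.false_or] at this
      unfold mapC
      rw [badN_iff _ ((chkInv_spec H.inv6 p.val).2.2 hp).1 _
        ((chkInv_spec H.inv6 q.val).2.2 hq).1 _ ((chkInv_spec H.inv6 r.val).2.2 hr).1]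
      exact this }

theorem fback_spec {D : FData} (B : Base D) {As : List AutD}
    (hA : ∀ A ∈ As, AutOK D A) : ∀ (w : List ℕ) (t : ℕ × ℕ × ℕ), D.Edge t →
    B.world.AllServed (back D.fl As w t) → B.world.AllServed t := by
  intro w
  induction w with
  | nil => intro t _ h; exact h
  | cons i w ih =>
    intro t ht h
    cases i with
    | zero =>
      have he : D.Edge (B.world.flip t) := B.world.edge_flip t ht
      have h1 := ih _ he h
      have h2 := h1.swap
      rwa [B.world.flip_flip] at h2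
    | succ i =>
      unfold back at h
      cases hi : As[i]? with
      | none =>
        rw [hi] at h
        exact ih _ ht h
      | some A =>
        rw [hi] at h
        have hAi := hA A (List.mem_of_getElem? hi)
        have he : D.Edge (mapT A.g A.j t) := (aut B hAi).g_edge t ht
        have h1 := ih _ he h
        have h2 := (aut B hAi).allServed he h1
        have h3 : mapT A.f A.k (mapT A.g A.j t) = t := (aut B hAi).fg t
        have h4 : B.world.AllServed (mapT A.f A.k (mapT A.g A.j t)) := h2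
        rwa [h3] at h4

/-- Every edge is the image of a representative. -/
def chkCov' (D : FData) (As : List AutD) (reps : List (ℕ × ℕ × ℕ)) (ws : List (List ℕ)) : Bool :=
  allB D.n fun l => allB D.n fun m => allB D.K fun c => (! eb D.K D.edges l m c) ||
    memT (back D.fl As (ws.getD ((l * D.n + m) * D.K + c) []) (l, m, c)) reps

/-- The start: an edge whose second vertex is not the parent of the first. -/
def chkStart' (D : FData) (t : ℕ × ℕ × ℕ) : Bool :=
  (Nat.blt t.1 D.n && Nat.blt t.2.1 D.n && Nat.blt t.2.2 D.K) &&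
  (eb D.K D.edges t.1 t.2.1 t.2.2 && ! dnb D.dn (D.fl.getD t.2.2 t.2.2))

/-- **Main theorem.** Checked data of a finite forest world give a representation. -/
theorem rep_of_fdata (D : FData) (B : Base D) (As : List AutD)
    (hA : ∀ A ∈ As, AutOK D A) (reps : List (ℕ × ℕ × ℕ))
    (hr : ∀ t ∈ reps, B.world.AllServed t) (ws : List (List ℕ))
    (hc : chkCov' D As reps ws = true) (t0 : ℕ × ℕ × ℕ) (h0 : chkStart' D t0 = true) :
    ∃ (U : Type) (r : Set Atom → Set (U × U)), Nonempty U ∧ IsRepresentation U r := by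
  unfold chkStart' at h0
  simp only [Bool.and_eq_true] at h0
  obtain ⟨⟨⟨h1, h2⟩, h3⟩, h4, h5⟩ := h0
  have e0 : D.Edge t0 := ⟨⟨by simpa [Nat.blt_eq] using h1, by simpa [Nat.blt_eq] using h2,
    by simpa [Nat.blt_eq] using h3⟩, h4⟩
  have h6 : dnb D.dn (D.fl.getD t0.2.2 t0.2.2) = false := by
    rwa [Bool.not_eq_true'] at h5
  refine B.world.rep t0 e0 h6 ?_
  rintro ⟨l, m, c⟩ he
  have he' : D.Edge (l, m, c) := he
  obtain ⟨⟨k1, k2, k3⟩, k4⟩ := he'
  have h9 := allB_spec (allB_spec (allB_spec hc l k1) m k2) c k3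
  simp only at k4
  rw [k4] at h9
  simp only [Bool.not_true, Bool.false_or] at h9
  exact fback_spec B hA _ _ he (hr _ (memT_spec h9))

end Pool.Agent.CRQ.FChk
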