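import Pool.Agent.RA6.ChkH99
import Pool.Agent.CRQ.FWa7

/-!
Fast loops and bit vector operations for kernel checks (MP_cf0286_al).
-/

namespace Pool.Agent.CRQ.FChk

open Pool.Agent.RA6 Pool.Agent.RA6.Chk

def andR (b c : Bool) : Bool := @Bool.rec (fun _ => Bool) false c b
def orbR (b c : Bool) : Bool := @Bool.rec (fun _ => Bool) c true b
def notR (b : Bool) : Bool := @Bool.rec (fun _ => Bool) true false b

theorem andR_eq (b c : Bool) : andR b c = (b && c) := by cases b <;> rfl
theorem orbR_eq (b c : Bool) : orbR b c = (b || c) := by cases b <;> rfl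
theorem notR_eq (b : Bool) : notR b = !b := by cases b <;> rfl

/-- All `i < n`. -/
def allR (n : ℕ) (f : ℕ → Bool) : Bool :=
  @Nat.rec (fun _ => Bool) true (fun k ih => @Bool.rec (fun _ => Bool) false ih (f k)) n

theorem allR_eq (n : ℕ) (f : ℕ → Bool) : allR n f = allB n f := by
  induction n with
  | zero => rfl
  | succ k ih =>
    show andR (f k) (allR k f) = (f k && allB k f)
    rw [andR_eq, ih]

theorem allR_spec {f : ℕ → Bool} {n : ℕ} (h : allR n f = true) : ∀ i, i < n → f i = true := by
  rw [allR_eq] at h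
  exact allB_spec h

/-- Union. -/
def orR (n : ℕ) (g : ℕ → ℕ) : ℕ := @Nat.rec (fun _ => ℕ) 0 (fun k ih => Nat.lor (g k) ih) n

theorem orR_eq (n : ℕ) (g : ℕ → ℕ) : orR n g = orB n g := by
  induction n with
  | zero => rfl
  | succ k ih =>
    show Nat.lor (g k) (orR k g) = Nat.lor (g k) (orB k g)
    rw [ih]

theorem orR_spec {g : ℕ → ℕ} {n i : ℕ} (j : ℕ) (hi : i < n) (h : (g i).testBit j = true) :
    (orR n g).testBit j = true := by
  rw [orR_eq]
  exact orB_spec j hi h

/-- All members of a list. -/
def allLR {β : Type} (f : β → Bool) (L : List β) : Bool :=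
  @List.rec β (fun _ => Bool) true (fun x _ ih => @Bool.rec (fun _ => Bool) false ih (f x)) L

theorem allLR_spec {β : Type} {f : β → Bool} : ∀ {L : List β}, allLR f L = true → ∀ x ∈ L,
    f x = true := by
  intro L
  induction L with
  | nil => intro _ x hx; exact absurd hx (by simp)
  | cons y L ih =>
    intro h x hx
    have h' : andR (f y) (allLR f L) = true := h
    rw [andR_eq, Bool.and_eq_true] at h'
    rcases List.mem_cons.mp hx with h1 | h1
    · rw [h1]; exact h'.1
    · exact ih h'.2 x h1

/-- Some member of a list. -/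
def anyLR {β : Type} (f : β → Bool) (L : List β) : Bool :=
  @List.rec β (fun _ => Bool) false (fun x _ ih => @Bool.rec (fun _ => Bool) ih true (f x)) L

theorem anyLR_spec {β : Type} {f : β → Bool} : ∀ {L : List β}, anyLR f L = true → ∃ x ∈ L,
    f x = true := by
  intro L
  induction L with
  | nil => intro h; exact absurd h (by simp [anyLR])
  | cons y L ih =>
    intro h
    have h' : orbR (f y) (anyLR f L) = true := h
    rw [orbR_eq, Bool.or_eq_true] at h'
    rcases h' with h' | h'
    · exact ⟨y, by simp, h'⟩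
    · obtain ⟨x, h1, h2⟩ := ih h'
      exact ⟨x, by simp [h1], h2⟩

/-- Union over a list. -/
def orLR {β : Type} (g : β → ℕ) (L : List β) : ℕ :=
  @List.rec β (fun _ => ℕ) 0 (fun x _ ih => Nat.lor (g x) ih) L

theorem orLR_mem {β : Type} {g : β → ℕ} {j : ℕ} : ∀ {L : List β} {x : β}, x ∈ L →
    (g x).testBit j = true → (orLR g L).testBit j = true := by
  intro L
  induction L with
  | nil => intro x hx; exact absurd hx (by simp)
  | cons y L ih =>
    intro x hx h
    show (g y ||| orLR g L).testBit j = true
    rw [Nat.testBit_or, Bool.or_eq_true]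
    rcases List.mem_cons.mp hx with h1 | h1
    · left; rw [← h1]; exact h
    · exact Or.inr (ih h1 h)

theorem orLR_spec {β : Type} {g : β → ℕ} {j : ℕ} : ∀ {L : List β},
    (orLR g L).testBit j = true → ∃ x ∈ L, (g x).testBit j = true := by
  intro L
  induction L with
  | nil =>
    intro h
    have h' : (0 : ℕ).testBit j = true := h
    rw [Nat.zero_testBit] at h'
    exact absurd h' (by decide)
  | cons y L ih =>
    intro h
    have h' : (g y ||| orLR g L).testBit j = true := h
    rw [Nat.testBit_or, Bool.or_eq_true] at h'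
    rcases h' with h' | h'
    · exact ⟨y, by simp, h'⟩
    · obtain ⟨x, h1, h2⟩ := ih h'
      exact ⟨x, by simp [h1], h2⟩

/-- A bit. -/
def bt (x i : ℕ) : Bool := Nat.beq (Nat.land (Nat.shiftRight x i) 1) 1

theorem bt_eq (x i : ℕ) : bt x i = x.testBit i := by
  have e : Nat.land (Nat.shiftRight x i) 1 = (x >>> i) % 2 := Nat.and_one_is_mod _
  unfold bt
  rw [e, Nat.shiftRight_eq_div_pow, Nat.testBit_eq_decide_div_mod_eq]
  cases h : Nat.beq (x / 2 ^ i % 2) 1 with
  | true => rw [Nat.eq_of_beq_eq_true h]; rfl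
  | false =>
    have := Nat.ne_of_beq_eq_false h
    simp [this]

/-- Shifted copies. -/
def rep (s : ℕ) (plan : List ℕ) (X : ℕ) : ℕ :=
  @List.rec ℕ (fun _ => ℕ) X (fun p _ ih => Nat.lor ih (Nat.shiftLeft ih (Nat.mul p s))) plan

/-- The copies of a plan. -/
def reach : List ℕ → ℕ → Bool
  | [], d => Nat.beq d 0
  | p :: L, d => reach L d || (Nat.ble p d && reach L (d - p))

/-- The total of a plan. -/
def tot : List ℕ → ℕ
  | [] => 0
  | p :: L => p + tot L

theorem testBit_shl2 {x i j : ℕ} (h : (Nat.shiftLeft x i).testBit j = true) :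
    i ≤ j ∧ x.testBit (j - i) = true := by
  have h' : (x <<< i).testBit j = true := h
  rw [Nat.testBit_shiftLeft, Bool.and_eq_true] at h'
  exact ⟨by simpa using h'.1, h'.2⟩

theorem rep_spec {s X j : ℕ} : ∀ {plan : List ℕ} {d : ℕ}, reach plan d = true →
    X.testBit j = true → (rep s plan X).testBit (d * s + j) = true := by
  intro plan
  induction plan with
  | nil =>
    intro d h hX
    have h' := Nat.eq_of_beq_eq_true h
    subst h'
    rw [Nat.zero_mul, Nat.zero_add]
    exact hX
  | cons p L ih =>
    intro d h hX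
    show (rep s L X ||| Nat.shiftLeft (rep s L X) (Nat.mul p s)).testBit (d * s + j) = true
    rw [Nat.testBit_or, Bool.or_eq_true]
    unfold reach at h
    rw [Bool.or_eq_true, Bool.and_eq_true] at h
    rcases h with h | ⟨h1, h2⟩
    · exact Or.inl (ih h hX)
    · right
      have h3 : p ≤ d := by simpa [Nat.ble_eq] using h1
      have h4 := testBit_shl (i := p * s) (ih h2 hX)
      have e : p * s + ((d - p) * s + j) = d * s + j := by
        rw [← Nat.add_assoc, ← Nat.add_mul, Nat.add_sub_cancel' h3]
      rw [e] at h4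
      exact h4

theorem rep_spec' {s X : ℕ} : ∀ {plan : List ℕ} {p : ℕ}, (rep s plan X).testBit p = true →
    ∃ d, d ≤ tot plan ∧ d * s ≤ p ∧ X.testBit (p - d * s) = true := by
  intro plan
  induction plan with
  | nil =>
    intro p h
    refine ⟨0, Nat.zero_le _, by rw [Nat.zero_mul]; exact Nat.zero_le _, ?_⟩
    rw [Nat.zero_mul, Nat.sub_zero]
    exact h
  | cons q L ih =>
    intro p h
    have h' : (rep s L X ||| Nat.shiftLeft (rep s L X) (Nat.mul q s)).testBit p = true := h
    rw [Nat.testBit_or, Bool.or_eq_true] at h'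
    rcases h' with h' | h'
    · obtain ⟨d, h1, h2, h3⟩ := ih h'
      exact ⟨d, by unfold tot; omega, h2, h3⟩
    · obtain ⟨h1, h2⟩ := testBit_shl2 h'
      obtain ⟨d, h3, h4, h5⟩ := ih h2
      have h1' : q * s ≤ p := h1
      have h4' : d * s ≤ p - q * s := h4
      have h5' : X.testBit (p - q * s - d * s) = true := h5
      refine ⟨q + d, by unfold tot; omega, by rw [Nat.add_mul]; omega, ?_⟩
      rw [Nat.add_mul, ← Nat.sub_sub]
      exact h5'

/-- A plan for `K` copies. -/
def chkPlan (K : ℕ) (plan : List ℕ) : Bool := allB K (reach plan) && Nat.blt (tot plan) K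

theorem chkPlan_reach {K : ℕ} {plan : List ℕ} (h : chkPlan K plan = true) {d : ℕ} (hd : d < K) :
    reach plan d = true := by
  unfold chkPlan at h
  rw [Bool.and_eq_true] at h
  exact allB_spec h.1 d hd

theorem chkPlan_tot {K : ℕ} {plan : List ℕ} (h : chkPlan K plan = true) : tot plan < K := by
  unfold chkPlan at h
  rw [Bool.and_eq_true] at h
  simpa [Nat.blt_eq] using h.2

end Pool.Agent.CRQ.FChk
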