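import Pool.Agent.CRQ.Smooth

/-! # The recursions -/

set_option autoImplicit false

open scoped BigOperators

namespace CRQ

lemma rep_zero : Rep (Fin 0) 1 := by
  intro T
  refine ⟨fun _ => T ∅, ?_, fun J _ => ?_⟩
  · unfold wt
    refine (Finset.card_le_card (Finset.filter_subset _ _)).trans ?_
    rw [Finset.card_univ, Fintype.card_fun, Fintype.card_fin, pow_zero]
  · have hJ : J = ∅ := Finset.eq_empty_of_isEmpty J
    subst hJ
    unfold mom
    simp only [mono_empty, mul_one]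
    rw [Finset.sum_const, Finset.card_univ, Fintype.card_fun, Fintype.card_fin, pow_zero, one_smul]

lemma rep_crude (n : ℕ) : ∃ N, Rep (Fin n) N := by
  induction n with
  | zero => exact ⟨1, rep_zero⟩
  | succ n ih =>
    obtain ⟨N, hN⟩ := ih
    have h := elim (κ := Fin 1) hN (E := Fintype.card (Fin 1) * (2 * n)) (fun B hB => CostsK.triv B hB)
    exact ⟨_, (h.congr finSumFinEquiv).congr (finCongr (by omega))⟩

lemma rep_step {k n N E : ℕ} (hR : Rep (Fin n) N)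
    (hE : ∀ B : Fin k → Matrix (Fin n) (Fin n) (ZMod 2), (∀ i, B i ∈ symSub n) → CostsK B E) :
    Rep (Fin (n + k)) (N + E + 2 * 4 ^ k) := by
  have h1 := elim hR hE
  rw [Fintype.card_fin] at h1
  exact (h1.congr finSumFinEquiv).congr (finCongr (by omega))

theorem rep_four (hA : WorstThm) (ε : ℝ) (hε : 0 < ε) :
    ∃ M : ℕ, ∀ m : ℕ, M ≤ m → Rep (Fin m) ⌊(1 / 4 + ε) * (m : ℝ) ^ 2⌋₊ := by
  obtain ⟨k, hk, n0, hw⟩ := worst hA ε hε
  choose N hN using rep_crude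
  set A : ℕ := ∑ m ∈ Finset.range (n0 + k), N m with hAdef
  set D : ℕ := 2 * 4 ^ k with hD
  have main : ∀ m : ℕ, Rep (Fin m) ⌊(1 / 4 + ε / 2) * (m : ℝ) ^ 2 + D * m + A⌋₊ := by
    intro m
    induction m using Nat.strong_induction_on with
    | _ m ih =>
      by_cases hm : m < n0 + k
      · refine (hN m).mono_le (Nat.le_floor ?_)
        have h1 : N m ≤ A := Finset.single_le_sum (f := N) (fun _ _ => Nat.zero_le _) (Finset.mem_range.2 hm)
        have h2 : (N m : ℝ) ≤ A := by exact_mod_cast h1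
        have h3 : (0 : ℝ) ≤ (1 / 4 + ε / 2) * (m : ℝ) ^ 2 + D * m := by positivity
        linarith
      · obtain ⟨n, rfl⟩ : ∃ n, m = n + k := ⟨m - k, by omega⟩
        have hn : n0 ≤ n := by omega
        have h1 := rep_step (ih n (by omega)) (hw n hn)
        refine h1.mono_le (Nat.le_floor ?_)
        have h2 : ((⌊(1 / 4 + ε / 2) * (n : ℝ) ^ 2 + D * n + A⌋₊ : ℕ) : ℝ) ≤
          (1 / 4 + ε / 2) * (n : ℝ) ^ 2 + D * n + A := Nat.floor_le (by positivity)
        have h3 : ((⌊(1 / 2 + ε) * (k : ℕ) * (n : ℝ)⌋₊ : ℕ) : ℝ) ≤ (1 / 2 + ε) * (k : ℕ) * n :=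
          Nat.floor_le (by positivity)
        have h4 : (1 : ℝ) ≤ k := by exact_mod_cast hk
        have h5 : (D : ℝ) ≤ D * k := by
          have : (0 : ℝ) ≤ D := Nat.cast_nonneg _
          nlinarith
        rw [← hD]
        push_cast
        have h6 : (0 : ℝ) ≤ (1 / 4 + ε / 2) * (k : ℝ) ^ 2 := by positivity
        nlinarith [h2, h3, h5, h6]
  obtain ⟨M, hM⟩ := exists_nat_ge (2 * ((D : ℝ) + A) / ε)
  refine ⟨max M 1, fun m hm => (main m).mono_le (Nat.floor_le_floor ?_)⟩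
  have hm1 : (1 : ℝ) ≤ m := by exact_mod_cast (le_max_right _ _).trans hm
  have hm2 : (M : ℝ) ≤ m := by exact_mod_cast (le_max_left _ _).trans hm
  have h1 : 2 * ((D : ℝ) + A) ≤ ε * m := by
    have := hM.trans hm2
    rw [div_le_iff₀ hε] at this
    linarith
  have hA0 : (0 : ℝ) ≤ A := Nat.cast_nonneg _
  nlinarith [h1, hA0, hm1]

theorem four (hA : WorstThm) (ε : ℝ) (hε : 0 < ε) :
    ∃ M : ℕ, ∀ m : ℕ, M ≤ m → (RMC71.covRadius (m - 4) m : ℝ) ≤ (1 / 4 + ε) * (m : ℝ) ^ 2 := by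
  obtain ⟨M, hM⟩ := rep_four hA ε hε
  refine ⟨M, fun m hm => ?_⟩
  have h1 := covRadius_le (hM m hm)
  have h2 : (RMC71.covRadius (m - 4) m : ℝ) ≤ (⌊(1 / 4 + ε) * (m : ℝ) ^ 2⌋₊ : ℕ) := by exact_mod_cast h1
  exact h2.trans (Nat.floor_le (by positivity))

lemma pow_step (x : ℝ) (hx : 0 ≤ x) (q : ℕ) : x ^ (q + 1) + (q + 1) * x ^ q ≤ (x + 1) ^ (q + 1) := by
  induction q with
  | zero => simp
  | succ q ih =>
    have h1 : (x + 1) ^ (q + 1 + 1) = (x + 1) * (x + 1) ^ (q + 1) := by ring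
    rw [h1]
    have h2 := mul_le_mul_of_nonneg_left ih (by linarith : (0 : ℝ) ≤ x + 1)
    refine le_trans ?_ h2
    have h3 : (0 : ℝ) ≤ (q + 1) * x ^ q := by positivity
    push_cast
    have h4 : (x + 1) * (x ^ (q + 1) + (q + 1) * x ^ q) =
      x ^ (q + 1 + 1) + (q + 1 + 1) * x ^ (q + 1) + (q + 1) * x ^ q := by ring
    rw [h4]
    linarith

/-- the recursion in the codegree `s` -/
theorem step (s p : ℕ) (c : ℝ) (hc : 0 ≤ c)
    (h : ∀ ε : ℝ, 0 < ε → ∃ M : ℕ, ∀ m : ℕ, M ≤ m → (RMC71.covRadius (m - s) m : ℝ) ≤ (c + ε) * (m : ℝ) ^ p) :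
    ∀ ε : ℝ, 0 < ε → ∃ M : ℕ, ∀ m : ℕ, M ≤ m →
      (RMC71.covRadius (m - (s + 1)) m : ℝ) ≤ (c / (p + 1) + ε) * (m : ℝ) ^ (p + 1) := by
  intro ε hε
  obtain ⟨M, hM⟩ := h (ε / 2) (by positivity)
  set M1 := max M (s + 1) with hM1
  set A : ℝ := ((RMC71.covRadius (M1 - (s + 1)) M1 : ℕ) : ℝ) with hAd
  have hA0 : 0 ≤ A := Nat.cast_nonneg _
  have hp : (0 : ℝ) < p + 1 := by positivity
  have main : ∀ j : ℕ, (RMC71.covRadius (M1 + j - (s + 1)) (M1 + j) : ℝ) ≤
      A + (c + ε / 2) / (p + 1) * ((M1 + j : ℕ) : ℝ) ^ (p + 1) := by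
    intro j
    induction j with
    | zero =>
      have : (0 : ℝ) ≤ (c + ε / 2) / (p + 1) * ((M1 + 0 : ℕ) : ℝ) ^ (p + 1) := by positivity
      rw [Nat.add_zero] at this ⊢
      linarith
    | succ j ih =>
      have h0 : s + 1 ≤ M1 + j := le_trans (le_max_right M (s + 1)) (Nat.le_add_right _ _)
      have hM' : M ≤ M1 + j := le_trans (le_max_left M (s + 1)) (Nat.le_add_right _ _)
      set m := M1 + j with hm
      have h1 := RMC71.covRadius_rec (m - (s + 1)) m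
      have h2 : m - (s + 1) + 1 = m - s := by omega
      have h3 : M1 + (j + 1) - (s + 1) = m - s := by omega
      have h4 : M1 + (j + 1) = m + 1 := by omega
      rw [h2] at h1
      rw [h3, h4]
      have h5 : (RMC71.covRadius (m - s) (m + 1) : ℝ) ≤
          RMC71.covRadius (m - s) m + RMC71.covRadius (m - (s + 1)) m := by exact_mod_cast h1
      have h6 := hM m hM'
      have h7 := pow_step (m : ℝ) (Nat.cast_nonneg _) p
      have h8 : (c + ε / 2) / (p + 1) * (((m : ℝ) ^ (p + 1) + (p + 1) * (m : ℝ) ^ p)) ≤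
          (c + ε / 2) / (p + 1) * ((m : ℝ) + 1) ^ (p + 1) :=
        mul_le_mul_of_nonneg_left h7 (by positivity)
      have h9 : (c + ε / 2) / (p + 1) * (((m : ℝ) ^ (p + 1) + (p + 1) * (m : ℝ) ^ p)) =
          (c + ε / 2) / (p + 1) * (m : ℝ) ^ (p + 1) + (c + ε / 2) * (m : ℝ) ^ p := by
        field_simp
      push_cast
      linarith
  obtain ⟨M2, hM2⟩ := exists_nat_ge (2 * A / ε)
  refine ⟨max (max M1 M2) 1, fun m hm => ?_⟩
  obtain ⟨j, rfl⟩ : ∃ j, m = M1 + j := ⟨m - M1, by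
    have := (le_max_left M1 M2).trans ((le_max_left _ _).trans hm)
    omega⟩
  refine (main j).trans ?_
  set x : ℝ := ((M1 + j : ℕ) : ℝ) with hx
  have hx1 : 1 ≤ x := by
    rw [hx]
    exact_mod_cast (le_max_right _ _).trans hm
  have hx2 : (M2 : ℝ) ≤ x := by
    rw [hx]
    exact_mod_cast (le_max_right M1 M2).trans ((le_max_left _ _).trans hm)
  have h1 : A ≤ ε / 2 * x := by
    have := hM2.trans hx2
    rw [div_le_iff₀ hε] at this
    linarith
  have h2 : x ≤ x ^ (p + 1) := le_self_pow₀ hx1 (Nat.succ_ne_zero p)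
  have h3 : A ≤ ε / 2 * x ^ (p + 1) := h1.trans (mul_le_mul_of_nonneg_left h2 (by positivity))
  have h4 : (c + ε / 2) / (p + 1) ≤ c / (p + 1) + ε / 2 := by
    rw [add_div]
    have : ε / 2 / (p + 1) ≤ ε / 2 := div_le_self (by positivity) (by
      have : (0 : ℝ) ≤ p := Nat.cast_nonneg _
      linarith)
    linarith
  have h5 : (c + ε / 2) / (p + 1) * x ^ (p + 1) ≤ (c / (p + 1) + ε / 2) * x ^ (p + 1) :=
    mul_le_mul_of_nonneg_right h4 (by positivity)
  nlinarith [h3, h5]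

/-- **the theorem**, over the theorem on tuples of symmetric matrices -/
theorem main (hA : WorstThm) (s : ℕ) (hs : 4 ≤ s) (ε : ℝ) (hε : 0 < ε) :
    ∃ M : ℕ, ∀ m : ℕ, M ≤ m →
      (RMC71.covRadius (m - s) m : ℝ) ≤ (1 / (2 * ((s - 2).factorial : ℝ)) + ε) * (m : ℝ) ^ (s - 2) := by
  obtain ⟨t, rfl⟩ : ∃ t, s = t + 4 := ⟨s - 4, by omega⟩
  have h2 : t + 4 - 2 = t + 2 := by omega
  rw [h2]
  clear h2 hs
  induction t generalizing ε with
  | zero =>
    obtain ⟨M, hM⟩ := four hA ε hε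
    refine ⟨M, fun m hm => (hM m hm).trans (le_of_eq ?_)⟩
    norm_num
  | succ t ih =>
    have h1 := step (t + 4) (t + 2) (1 / (2 * ((t + 2).factorial : ℝ))) (by positivity)
      (fun ε hε => ih ε hε) ε hε
    obtain ⟨M, hM⟩ := h1
    refine ⟨M, fun m hm => ?_⟩
    have h3 := hM m hm
    have h4 : t + 1 + 4 = t + 4 + 1 := by omega
    have h5 : t + 1 + 2 = t + 2 + 1 := by omega
    rw [h4, h5]
    refine h3.trans (le_of_eq ?_)
    congr 2
    rw [Nat.factorial_succ (t + 2)]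
    push_cast
    rw [div_div]
    congr 1
    ring

end CRQ
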