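import Pool.Agent.CRQ.Elim

/-! # Costs of tuples of symmetric matrices -/

set_option autoImplicit false
set_option linter.unusedSectionVars false

open scoped BigOperators

namespace CRQ

lemma mat_sum_apply {n : ℕ} (L : List (Fin n → ZMod 2)) (a b : Fin n) :
    ((L.map fun y => Matrix.vecMulVec y y).sum) a b = (L.map fun y => y a * y b).sum := by
  induction L with
  | nil => simp
  | cons z L ih =>
    rw [List.map_cons, List.sum_cons, List.map_cons, List.sum_cons, Matrix.add_apply, ih]
    rfl

lemma vec_sym {n : ℕ} (y : Fin n → ZMod 2) : Matrix.vecMulVec y y ∈ symSub n := by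
  intro i j
  rw [Matrix.vecMulVec_apply, Matrix.vecMulVec_apply, mul_comm]

/-- a symmetric matrix supported on `s × s` is the sum of at most `2 |s|` squares -/
lemma sq_aux {n : ℕ} (s : Finset (Fin n)) : ∀ B : Matrix (Fin n) (Fin n) (ZMod 2), B ∈ symSub n →
    (∀ i j, i ∉ s → B i j = 0) →
    ∃ L : List (Fin n → ZMod 2), L.length ≤ 2 * s.card ∧ B = (L.map fun y => Matrix.vecMulVec y y).sum := by
  induction s using Finset.induction_on with
  | empty =>
    intro B _ h
    refine ⟨[], by simp, ?_⟩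
    ext i j
    rw [h i j (Finset.notMem_empty i)]
    simp
  | insert a s ha ih =>
    intro B hB h
    set y : Fin n → ZMod 2 := fun j => if j = a then 1 else B a j with hy
    set c : ZMod 2 := B a a + 1 with hc
    set z : Fin n → ZMod 2 := fun j => if j = a then c else 0 with hz
    have hya : y a = 1 := by rw [hy]; simp
    have hyj : ∀ j, j ≠ a → y j = B a j := by
      intro j hj
      rw [hy]
      simp [hj]
    have hza : z a = c := by rw [hz]; simp
    have hzj : ∀ j, j ≠ a → z j = 0 := by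
      intro j hj
      rw [hz]
      simp [hj]
    have hs1 : B + Matrix.vecMulVec y y + Matrix.vecMulVec z z ∈ symSub n :=
      (symSub n).add_mem ((symSub n).add_mem hB (vec_sym y)) (vec_sym z)
    obtain ⟨L, hL, hL'⟩ := ih (B + Matrix.vecMulVec y y + Matrix.vecMulVec z z) hs1 (by
      intro i j hi
      rw [Matrix.add_apply, Matrix.add_apply, Matrix.vecMulVec_apply, Matrix.vecMulVec_apply]
      by_cases hia : i = a
      · subst hia
        rw [hya, hza]
        by_cases hja : j = i
        · subst hja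
          rw [hya, hza, hc]
          have key : ∀ b : ZMod 2, b + 1 * 1 + (b + 1) * (b + 1) = 0 := by decide
          exact key _
        · rw [hyj j hja, hzj j hja]
          have key : ∀ b c : ZMod 2, b + 1 * b + c * 0 = 0 := by decide
          exact key _ _
      · rw [hyj i hia, hzj i hia, h i j (by
          rw [Finset.mem_insert]
          tauto)]
        have h3 : B a i = 0 := by
          rw [hB a i]
          exact h i a (by
            rw [Finset.mem_insert]
            tauto)
        rw [h3]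
        simp)
    refine ⟨y :: z :: L, ?_, ?_⟩
    · rw [List.length_cons, List.length_cons, Finset.card_insert_of_notMem ha]
      omega
    · rw [List.map_cons, List.map_cons, List.sum_cons, List.sum_cons, ← hL']
      ext i j
      simp only [Matrix.add_apply]
      have key : ∀ b u v : ZMod 2, b = u + (v + (b + u + v)) := by decide
      exact key _ _ _

lemma sq_cost {n : ℕ} (B : Matrix (Fin n) (Fin n) (ZMod 2)) (hB : B ∈ symSub n) :
    ∃ L : List (Fin n → ZMod 2), L.length ≤ 2 * n ∧ B = (L.map fun y => Matrix.vecMulVec y y).sum := by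
  obtain ⟨L, h1, h2⟩ := sq_aux (Finset.univ : Finset (Fin n)) B hB (by
    intro i j hi
    exact absurd (Finset.mem_univ i) hi)
  rw [Finset.card_univ, Fintype.card_fin] at h1
  exact ⟨L, h1, h2⟩

section
variable {κ : Type} {n : ℕ}

lemma CostsK.le {B : κ → Matrix (Fin n) (Fin n) (ZMod 2)} {N N' : ℕ} (h : CostsK B N) (hN : N ≤ N') :
    CostsK B N' := by
  obtain ⟨L, h1, h2⟩ := h
  exact ⟨L, h1.trans hN, h2⟩

lemma CostsK.zero : CostsK (0 : κ → Matrix (Fin n) (Fin n) (ZMod 2)) 0 :=
  ⟨[], by simp, fun i => by simp⟩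

lemma CostsK.add {B B' : κ → Matrix (Fin n) (Fin n) (ZMod 2)} {N N' : ℕ} (h : CostsK B N)
    (h' : CostsK B' N') : CostsK (B + B') (N + N') := by
  obtain ⟨L, h1, h2⟩ := h
  obtain ⟨L', h1', h2'⟩ := h'
  refine ⟨L ++ L', ?_, fun i => ?_⟩
  · rw [List.length_append]
    omega
  · rw [List.map_append, List.sum_append, ← h2 i, ← h2' i]
    rfl

lemma CostsK.sum {α : Type} (s : Finset α) (B : α → κ → Matrix (Fin n) (Fin n) (ZMod 2)) (N : α → ℕ)
    (h : ∀ a ∈ s, CostsK (B a) (N a)) : CostsK (∑ a ∈ s, B a) (∑ a ∈ s, N a) := by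
  classical
  induction s using Finset.induction_on with
  | empty =>
    rw [Finset.sum_empty, Finset.sum_empty]
    exact CostsK.zero
  | insert a s ha ih =>
    rw [Finset.sum_insert ha, Finset.sum_insert ha]
    exact (h a (Finset.mem_insert_self a s)).add (ih fun b hb => h b (Finset.mem_insert_of_mem hb))

/-- change of the index set of the slices by a map of patterns -/
lemma CostsK.mapPat {κ' : Type} {B : κ → Matrix (Fin n) (Fin n) (ZMod 2)} {N : ℕ} (h : CostsK B N)
    (f : (κ → ZMod 2) → (κ' → ZMod 2)) (B' : κ' → Matrix (Fin n) (Fin n) (ZMod 2))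
    (hB : ∀ L : List ((κ → ZMod 2) × (Fin n → ZMod 2)),
      (∀ i, B i = (L.map fun z => z.1 i • Matrix.vecMulVec z.2 z.2).sum) →
      ∀ i', B' i' = (L.map fun z => f z.1 i' • Matrix.vecMulVec z.2 z.2).sum) : CostsK B' N := by
  obtain ⟨L, h1, h2⟩ := h
  refine ⟨L.map fun z => (f z.1, z.2), by rw [List.length_map]; exact h1, fun i' => ?_⟩
  rw [hB L h2 i', List.map_map]
  rfl

/-- one slice -/
lemma CostsK.single [DecidableEq κ] (i : κ) (M : Matrix (Fin n) (Fin n) (ZMod 2)) (hM : M ∈ symSub n) :
    CostsK (Pi.single i M : κ → Matrix (Fin n) (Fin n) (ZMod 2)) (2 * n) := by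
  obtain ⟨L, h1, h2⟩ := sq_cost M hM
  refine ⟨L.map fun y => (Pi.single i 1, y), by rw [List.length_map]; exact h1, fun j => ?_⟩
  rw [List.map_map]
  by_cases hj : j = i
  · subst hj
    rw [Pi.single_eq_same, h2]
    congr 1
    refine List.map_congr_left fun y _ => ?_
    simp
  · rw [Pi.single_eq_of_ne hj]
    symm
    apply List.sum_eq_zero
    intro x hx
    rw [List.mem_map] at hx
    obtain ⟨y, _, rfl⟩ := hx
    simp [hj]

lemma CostsK.triv [Fintype κ] [DecidableEq κ] (B : κ → Matrix (Fin n) (Fin n) (ZMod 2))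
    (hB : ∀ i, B i ∈ symSub n) : CostsK B (Fintype.card κ * (2 * n)) := by
  have h := CostsK.sum (Finset.univ : Finset κ) (fun i => (Pi.single i (B i) : κ → _)) (fun _ => 2 * n)
    (fun i _ => CostsK.single i (B i) (hB i))
  rw [Finset.sum_const, Finset.card_univ, smul_eq_mul] at h
  have h2 : ∑ i : κ, (Pi.single i (B i) : κ → Matrix (Fin n) (Fin n) (ZMod 2)) = B :=
    Finset.univ_sum_single B
  rw [h2] at h
  exact h

end

/-- from representations by weighted squares (`RMQ.Rep`) to `CostsK` -/
lemma CostsK.ofRep {κ : Type} {n s : ℕ} {B : κ → Matrix (Fin n) (Fin n) (ZMod 2)} (h : RMQ.Rep s B) :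
    CostsK B s := by
  obtain ⟨p, y, hB⟩ := h
  refine ⟨List.ofFn fun l => (p l, y l), by rw [List.length_ofFn], fun i => ?_⟩
  rw [hB i, List.map_ofFn, List.sum_ofFn]
  rfl

/-- the worst case theorem: for every `δ` some number `k ≥ 1` of slices costs at most `(1/2 + δ) k n` -/
theorem worst (hA : WorstThm) (δ : ℝ) (hδ : 0 < δ) :
    ∃ k : ℕ, 1 ≤ k ∧ ∃ n0 : ℕ, ∀ n : ℕ, n0 ≤ n →
      ∀ B : Fin k → Matrix (Fin n) (Fin n) (ZMod 2), (∀ i, B i ∈ symSub n) →
        CostsK B ⌊(1 / 2 + δ) * k * n⌋₊ := by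
  obtain ⟨k, N, hk, h⟩ := hA δ hδ
  refine ⟨k, hk, N, fun n hn B hB => ?_⟩
  obtain ⟨s, hs, hs2⟩ := h n hn B (fun i => by
    ext a b
    rw [Matrix.transpose_apply]
    exact hB i b a)
  exact (CostsK.ofRep hs).le (Nat.le_floor hs2)

end CRQ
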