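import Pool.Agent.RA6.Defs99

/-!
Twin fibers for MP_cf0286_al: a representation made of infinitely many copies of a finite
colouring `b` (fibers). Two fibers are joined by one of finitely many symmetric matrices `C`,
except for at most two entries in the row of the head of the newer fiber. A new fiber is a twin of
an old one (it sees everybody by the same matrices) or starts its own class.
-/

namespace Pool.Agent.CRQ.Twin

open Pool.Agent.RA6

/-- An allowed triangle. -/
def ok (a b c : ZMod 6) : Prop := ¬ Forbidden a b c

theorem ok12 {a b c : ZMod 6} (h : ok a b c) : ok b a c := fun h' => h (forb_swap12 _ _ _ h')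
theorem ok23 {a b c : ZMod 6} (h : ok a b c) : ok a c b := fun h' => h (forb_swap23 _ _ _ h')
theorem ok13 {a b c : ZMod 6} (h : ok a b c) : ok c b a := ok12 (ok23 (ok12 h))
theorem okrot {a b c : ZMod 6} (h : ok a b c) : ok b c a := ok23 (ok12 h)
theorem okrot' {a b c : ZMod 6} (h : ok a b c) : ok c a b := ok12 (ok23 h)

/-- The static data: the fiber `b`, the cross matrices `C i`, the index `i0` for two fibers of one
class, the default index `i1` for two classes, the exceptional entries `TE` (between two fibers of
one class) and `AE` (between fibers of two classes joined by the matrix `m`). -/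
structure Data (B I : Type) where
  b : B → B → ZMod 6
  C : I → B → B → ZMod 6
  i0 : I
  i1 : I
  TE : B → B → ZMod 6 → Prop
  AE : I → B → B → ZMod 6 → Prop
  b_symm : ∀ p q, b p q = b q p
  C_symm : ∀ i p q, C i p q = C i q p
  F3 : ∀ i j k p q r, ok (C i p q) (C j q r) (C k p r)
  D1 : ∀ p q r, p ≠ q → q ≠ r → p ≠ r → ok (b p q) (b q r) (b p r)
  D2 : ∀ i w p q, p ≠ q → ok (C i w p) (C i w q) (b p q)
  TE1 : ∀ h x s, TE h x s → ∀ p, p ≠ x → ok s (b x p) (C i0 h p)
  TE2 : ∀ h x s, TE h x s → ∀ q, q ≠ h → ok s (b h q) (C i0 q x)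
  TE3 : ∀ h x s, TE h x s → ∀ k r, ok s (C k h r) (C k x r)
  AE1 : ∀ m h x s, AE m h x s → ∀ p, p ≠ x → ok s (b x p) (C m h p)
  AE2 : ∀ m h x s, AE m h x s → ∀ q, q ≠ h → ok s (b h q) (C m q x)
  AE3 : ∀ m h x s, AE m h x s → ∀ k l r, ok s (C k h r) (C l x r)
  TT : ∀ h h' x s s', TE h x s → TE h' x s' → ok s s' (C i0 h h')
  TA : ∀ m h h' x s s', TE h x s → AE m h' x s' → ok s s' (C m h h')
  AA : ∀ m m' h h' x s s' k, AE m h x s → AE m' h' x s' → ok s s' (C k h h')

/-- Fibers: the base, and a new fiber made for the positions `x` of `F` and `y` of `G`: a twin of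
`F` (`tw`) or the root of a new class joined to the class of `F` by `i` and to the class of `G` by
`j`; the head `h` sees `(F, x)` by `s` and `(G, y)` by `t` (`none`: by the matrix). -/
inductive Fb (B I : Type) : Type
  | base : Fb B I
  | nd (tw : Bool) (F G : Fb B I) (i j : I) (h x y : B) (s t : Option (ZMod 6)) : Fb B I

namespace Fb

variable {B I : Type}

def size : Fb B I → ℕ
  | base => 0
  | nd _ F G _ _ _ _ _ _ _ => size F + size G + 1

/-- The root of the class. -/
def cls : Fb B I → Fb B I
  | base => base
  | nd true F _ _ _ _ _ _ _ _ => cls F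
  | nd false F G i j h x y s t => nd false F G i j h x y s t

theorem size_cls : ∀ N : Fb B I, size (cls N) ≤ size N
  | base => le_refl _
  | nd true F G i j h x y s t => by
    have := size_cls F
    show size (cls F) ≤ size F + size G + 1
    omega
  | nd false F G i j h x y s t => le_refl _

theorem cls_cls : ∀ N : Fb B I, cls (cls N) = cls N
  | base => rfl
  | nd true F G i j h x y s t => cls_cls F
  | nd false F G i j h x y s t => rfl

open Classical in
/-- The index by which the root `A` sees the class of the root `M`. -/
noncomputable def ref : Fb B I → Fb B I → Option I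
  | nd false F G i j _ _ _ _ _, M => if cls F = M then some i else if cls G = M then some j else none
  | nd true _ _ _ _ _ _ _ _ _, _ => none
  | base, _ => none

open Classical in
theorem ref_nd (F G : Fb B I) (i j : I) (h x y : B) (s t : Option (ZMod 6)) (M : Fb B I) :
    ref (nd false F G i j h x y s t) M =
      if cls F = M then some i else if cls G = M then some j else none := rfl

theorem ref_size {A M : Fb B I} {k : I} (h : ref A M = some k) : size M < size A := by
  cases A with
  | base => exact absurd h (by simp [ref])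
  | nd tw F G i j hh x y s t =>
    cases tw with
    | true => exact absurd h (by simp [ref])
    | false =>
      rw [ref_nd] at h
      have h1 := size_cls F
      have h2 := size_cls G
      by_cases e1 : cls F = M
      · rw [← e1]
        show _ < size F + size G + 1
        omega
      · rw [if_neg e1] at h
        by_cases e2 : cls G = M
        · rw [← e2]
          show _ < size F + size G + 1
          omega
        · rw [if_neg e2] at h
          exact absurd h (by simp)

end Fb

open Fb

variable {B I : Type} (D : Data B I)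

open Classical in
/-- The matrix index of two roots. -/
noncomputable def mu0 (A M : Fb B I) : I :=
  if A = M then D.i0 else (ref A M).getD ((ref M A).getD D.i1)

/-- The matrix index of two fibers. -/
noncomputable def mu (N M : Fb B I) : I := mu0 D (cls N) (cls M)

theorem mu0_symm (A M : Fb B I) : mu0 D A M = mu0 D M A := by
  unfold mu0
  by_cases h : A = M
  · rw [if_pos h, if_pos h.symm]
  · rw [if_neg h, if_neg (Ne.symm h)]
    cases h1 : ref A M with
    | none =>
      cases h2 : ref M A with
      | none => rfl
      | some k => rfl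
    | some k =>
      cases h2 : ref M A with
      | none => rfl
      | some k' =>
        have := ref_size h1
        have := ref_size h2
        omega

theorem mu_symm (N M : Fb B I) : mu D N M = mu D M N := mu0_symm D _ _

theorem mu_same {N M : Fb B I} (h : cls N = cls M) : mu D N M = D.i0 := by
  unfold mu mu0
  rw [if_pos h]

theorem mu_congr {N M K : Fb B I} (h : cls N = cls M) : mu D N K = mu D M K := by
  unfold mu
  rw [h]

open Classical in
/-- The exceptional entry in the row of the head. -/
noncomputable def edge : Fb B I → B → Fb B I → B → Option (ZMod 6)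
  | nd _ F G _ _ h x y s t, p, M, q =>
    if p = h then
      ((if M = F ∧ q = x then s else none).orElse fun _ => if M = G ∧ q = y then t else none)
    else none
  | base, _, _, _ => none

open Classical in
theorem edge_nd (tw : Bool) (F G : Fb B I) (i j : I) (h x y : B) (s t : Option (ZMod 6)) (p : B)
    (M : Fb B I) (q : B) : edge (nd tw F G i j h x y s t) p M q =
    if p = h then
      ((if M = F ∧ q = x then s else none).orElse fun _ => if M = G ∧ q = y then t else none)
    else none := rfl

/-- The two entries of a fiber. -/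
theorem edge_cases {tw : Bool} {F G : Fb B I} {i j : I} {h x y : B} {s t : Option (ZMod 6)} {p : B}
    {M : Fb B I} {q : B} {c : ZMod 6} (hc : edge (nd tw F G i j h x y s t) p M q = some c) :
    p = h ∧ ((M = F ∧ q = x ∧ s = some c) ∨ (M = G ∧ q = y ∧ t = some c)) := by
  rw [edge_nd] at hc
  by_cases hp : p = h
  swap
  · rw [if_neg hp] at hc
    exact absurd hc (by simp)
  refine ⟨hp, ?_⟩
  rw [if_pos hp] at hc
  by_cases e1 : M = F ∧ q = x
  · rw [if_pos e1] at hc
    cases hs : s with
    | some s₁ =>
      rw [hs] at hc
      left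
      exact ⟨e1.1, e1.2, by simpa using hc⟩
    | none =>
      rw [hs] at hc
      by_cases e2 : M = G ∧ q = y
      · rw [if_pos e2] at hc
        right
        exact ⟨e2.1, e2.2, by simpa using hc⟩
      · rw [if_neg e2] at hc
        exact absurd hc (by simp)
  · rw [if_neg e1] at hc
    by_cases e2 : M = G ∧ q = y
    · rw [if_pos e2] at hc
      right
      exact ⟨e2.1, e2.2, by simpa using hc⟩
    · rw [if_neg e2] at hc
      exact absurd hc (by simp)

theorem edge_size {N M : Fb B I} {p q : B} {s : ZMod 6} (h : edge N p M q = some s) :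
    size M < size N := by
  cases N with
  | base => exact absurd h (by simp [edge])
  | nd tw F G i j hh x y s' t =>
    rcases edge_cases h with ⟨_, ⟨h1, _, _⟩ | ⟨h1, _, _⟩⟩
    · rw [h1]
      show _ < size F + size G + 1
      omega
    · rw [h1]
      show _ < size F + size G + 1
      omega

open Classical in
/-- The colour of two points. -/
noncomputable def col (N : Fb B I) (p : B) (M : Fb B I) (q : B) : ZMod 6 :=
  if N = M then D.b p q else
    (edge N p M q).getD ((edge M q N p).getD (D.C (mu D N M) p q))

theorem col_symm (N : Fb B I) (p : B) (M : Fb B I) (q : B) : col D N p M q = col D M q N p := by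
  unfold col
  by_cases h : N = M
  · rw [if_pos h, if_pos h.symm, D.b_symm]
  · rw [if_neg h, if_neg (Ne.symm h)]
    cases h1 : edge N p M q with
    | none =>
      cases h2 : edge M q N p with
      | none => rw [Option.getD_none, Option.getD_none, mu_symm, D.C_symm]; rfl
      | some k => rfl
    | some k =>
      cases h2 : edge M q N p with
      | none => rfl
      | some k' =>
        have := edge_size h1
        have := edge_size h2
        omega

theorem col_fib {N : Fb B I} {p q : B} : col D N p N q = D.b p q := by
  unfold col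
  rw [if_pos rfl]

theorem col_edge {N M : Fb B I} {p q : B} {s : ZMod 6} (h : edge N p M q = some s) :
    col D N p M q = s := by
  have hne : N ≠ M := by
    intro e
    have := edge_size h
    rw [e] at this
    exact absurd this (lt_irrefl _)
  unfold col
  rw [if_neg hne, h]
  rfl

theorem col_edge' {N M : Fb B I} {p q : B} {s : ZMod 6} (h : edge M q N p = some s) :
    col D N p M q = s := by
  rw [col_symm]
  exact col_edge D h

theorem col_plain {N M : Fb B I} {p q : B} (hne : N ≠ M) (h : edge N p M q = none)
    (h' : edge M q N p = none) : col D N p M q = D.C (mu D N M) p q := by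
  unfold col
  rw [if_neg hne, h, h']
  rfl

/-- The kind of an exceptional entry between the fibers `N` and `M`. -/
def Kind (N M : Fb B I) (h x : B) (s : ZMod 6) : Prop :=
  (cls N = cls M → D.TE h x s) ∧ (cls N ≠ cls M → D.AE (mu D N M) h x s)

/-- The conditions on the exceptional entries of a new fiber. -/
def Loc (N F G : Fb B I) (h x y : B) (s t : Option (ZMod 6)) : Prop :=
  (∀ s₀, s = some s₀ → Kind D N F h x s₀ ∧
    ∀ M q r, edge F x M q = some r → edge N h M q = none → ok s₀ r (D.C (mu D N M) h q)) ∧
  (∀ t₀, t = some t₀ → Kind D N G h y t₀ ∧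
    ∀ M q r, edge G y M q = some r → edge N h M q = none → ok t₀ r (D.C (mu D N M) h q)) ∧
  (∀ s₀ t₀, s = some s₀ → t = some t₀ → ¬ (F = G ∧ x = y) ∧ ok s₀ t₀ (col D F x G y))

/-- The fibers used. -/
def Good : Fb B I → Prop
  | base => True
  | nd tw F G i j h x y s t => Good F ∧ Good G ∧ Loc D (nd tw F G i j h x y s t) F G h x y s t

/-- An exceptional entry of a good fiber. -/
theorem edge_kind {N M : Fb B I} {p q : B} {s : ZMod 6} (hN : Good D N)
    (h : edge N p M q = some s) : Kind D N M p q s ∧
    ∀ K r c, edge M q K r = some c → edge N p K r = none → ok s c (D.C (mu D N K) p r) := by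
  cases N with
  | base => exact absurd h (by simp [edge])
  | nd tw F G i j hh x y s' t =>
    obtain ⟨_, _, h1, h2, _⟩ := hN
    obtain ⟨rfl, h3⟩ := edge_cases h
    rcases h3 with ⟨rfl, rfl, h4⟩ | ⟨rfl, rfl, h4⟩
    · exact h1 s h4
    · exact h2 s h4

/-- Two exceptional entries of one head. -/
theorem edge_two {N M K : Fb B I} {p p' q r : B} {s t : ZMod 6} (hN : Good D N)
    (h : edge N p M q = some s) (h' : edge N p' K r = some t) (hne : ¬ (M = K ∧ q = r)) :
    p = p' ∧ ok s t (col D M q K r) := by
  cases N with
  | base => exact absurd h (by simp [edge])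
  | nd tw F G i j hh x y s' t' =>
    obtain ⟨_, _, _, _, h3⟩ := hN
    obtain ⟨rfl, k⟩ := edge_cases h
    obtain ⟨rfl, k'⟩ := edge_cases h'
    refine ⟨rfl, ?_⟩
    rcases k with ⟨a1, a2, a3⟩ | ⟨a1, a2, a3⟩
    · rcases k' with ⟨b1, b2, b3⟩ | ⟨b1, b2, b3⟩
      · exact absurd ⟨by rw [a1, b1], by rw [a2, b2]⟩ hne
      · have := (h3 _ _ a3 b3).2
        rw [a1, a2, b1, b2]
        exact this
    · rcases k' with ⟨b1, b2, b3⟩ | ⟨b1, b2, b3⟩
      · have := (h3 _ _ b3 a3).2
        rw [a1, a2, b1, b2, col_symm]
        exact ok12 this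
      · exact absurd ⟨by rw [a1, b1], by rw [a2, b2]⟩ hne

/-! ### Triangles -/

section

variable {D}
variable {N M K : Fb B I} {p q r : B} {s t : ZMod 6}

/-- One exceptional entry, three fibers. -/
theorem tri_one (hN : Good D N) (hNM : edge N p M q = some s) : 
    ok s (D.C (mu D N K) p r) (D.C (mu D M K) q r) := by
  obtain ⟨⟨h1, h2⟩, _⟩ := edge_kind D hN hNM
  by_cases hc : cls N = cls M
  · rw [mu_congr D hc]
    exact D.TE3 _ _ _ (h1 hc) _ _
  · exact D.AE3 _ _ _ _ (h2 hc) _ _ _

/-- Two heads at one vertex. -/
theorem tri_heads (hN : Good D N) (hK : Good D K) (hNM : edge N p M q = some s)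
    (hKM : edge K r M q = some t) : ok s t (D.C (mu D N K) p r) := by
  obtain ⟨⟨h1, h2⟩, _⟩ := edge_kind D hN hNM
  obtain ⟨⟨h3, h4⟩, _⟩ := edge_kind D hK hKM
  by_cases hc : cls N = cls M
  · by_cases hc' : cls K = cls M
    · rw [mu_same D (hc.trans hc'.symm)]
      exact D.TT _ _ _ _ _ (h1 hc) (h3 hc')
    · rw [mu_congr D hc, mu_symm]
      exact D.TA _ _ _ _ _ _ (h1 hc) (h4 hc')
  · by_cases hc' : cls K = cls M
    · rw [mu_symm, mu_congr D hc', mu_symm, D.C_symm]
      exact ok12 (D.TA _ _ _ _ _ _ (h3 hc') (h2 hc))
    · exact D.AA _ _ _ _ _ _ _ _ (h2 hc) (h4 hc')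

/-- An entry and a second position of the fiber of the target. -/
theorem two_target (hN : Good D N) (hNM : edge N p M q = some s) (hqr : r ≠ q) :
    ok s (D.b q r) (D.C (mu D N M) p r) := by
  obtain ⟨⟨h1, h2⟩, _⟩ := edge_kind D hN hNM
  by_cases hc : cls N = cls M
  · rw [mu_same D hc]
    exact D.TE1 _ _ _ (h1 hc) _ hqr
  · exact D.AE1 _ _ _ _ (h2 hc) _ hqr

/-- An entry and a second position of the fiber of the head. -/
theorem two_head (hN : Good D N) (hNM : edge N p M q = some s) (hpr : r ≠ p) :
    ok s (D.b p r) (D.C (mu D N M) r q) := by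
  obtain ⟨⟨h1, h2⟩, _⟩ := edge_kind D hN hNM
  by_cases hc : cls N = cls M
  · rw [mu_same D hc]
    exact D.TE2 _ _ _ (h1 hc) _ hpr
  · exact D.AE2 _ _ _ _ (h2 hc) _ hpr

end

/-- The status of a pair. -/
theorem status (N : Fb B I) (p : B) (M : Fb B I) (q : B) :
    (edge N p M q = none ∧ edge M q N p = none) ∨ (∃ s, edge N p M q = some s) ∨
      (∃ s, edge M q N p = some s) := by
  cases h1 : edge N p M q with
  | some s => exact Or.inr (Or.inl ⟨s, rfl⟩)
  | none =>
    cases h2 : edge M q N p with
    | some s => exact Or.inr (Or.inr ⟨s, rfl⟩)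
    | none => exact Or.inl ⟨rfl, rfl⟩

/-- A source: both entries from one head. -/
theorem src {N M K : Fb B I} {p q r : B} {s t : ZMod 6} (hN : Good D N)
    (h : edge N p M q = some s) (h' : edge N p K r = some t) (hne : ¬ (M = K ∧ q = r)) :
    ok (col D N p M q) (col D M q K r) (col D N p K r) := by
  rw [col_edge D h, col_edge D h']
  exact ok23 (edge_two D hN h h' hne).2

/-- Two heads at one vertex or a source. -/
theorem heads {N M K : Fb B I} {p q r : B} {s t : ZMod 6} (hN : Good D N) (hK : Good D K)
    (hNK : N ≠ K) (hMq : M ≠ K) (hMN : N ≠ M)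
    (h : edge N p M q = some s) (h' : edge K r M q = some t) :
    ok (col D N p M q) (col D M q K r) (col D N p K r) := by
  rcases status N p K r with ⟨a1, a2⟩ | ⟨c, a1⟩ | ⟨c, a1⟩
  · rw [col_edge D h, col_symm D M q, col_edge D h', col_plain D hNK a1 a2]
    exact tri_heads hN hK h h'
  · exact src D hN h a1 (fun e => hMq e.1)
  · have := src D hK h' a1 (fun e => hMN e.1.symm)
    rw [col_symm D K r M q, col_symm D M q N p, col_symm D K r N p] at this
    first | exact this | exact ok12 this | exact ok23 this | exact ok13 this | exact okrot this |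
      exact okrot' this

/-- A chain or a source. -/
theorem chain {N M K : Fb B I} {p q r : B} {s t : ZMod 6} (hN : Good D N)
    (hNK : N ≠ K) (hMK : M ≠ K)
    (h : edge N p M q = some s) (h' : edge M q K r = some t) :
    ok (col D N p M q) (col D M q K r) (col D N p K r) := by
  rcases status N p K r with ⟨a1, a2⟩ | ⟨c, a1⟩ | ⟨c, a1⟩
  · rw [col_edge D h, col_edge D h', col_plain D hNK a1 a2]
    exact (edge_kind D hN h).2 _ _ _ h' a1
  · exact src D hN h a1 (fun e => hMK e.1)
  · have e1 := edge_size h
    have e2 := edge_size h'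
    have e3 := edge_size a1
    omega

/-- Three fibers. -/
theorem tri3 {N M K : Fb B I} {p q r : B} (hN : Good D N) (hM : Good D M) (hK : Good D K)
    (hNM : N ≠ M) (hMK : M ≠ K) (hNK : N ≠ K) :
    ok (col D N p M q) (col D M q K r) (col D N p K r) := by
  -- the permuted forms
  have P1 : ok (col D M q N p) (col D N p K r) (col D M q K r) →
      ok (col D N p M q) (col D M q K r) (col D N p K r) := by
    intro h
    rw [col_symm D M q N p] at h
    exact ok23 h
  have P2 : ok (col D K r M q) (col D M q N p) (col D K r N p) →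
      ok (col D N p M q) (col D M q K r) (col D N p K r) := by
    intro h
    rw [col_symm D K r M q, col_symm D M q N p, col_symm D K r N p] at h
    exact ok12 h
  have P3 : ok (col D N p K r) (col D K r M q) (col D N p M q) →
      ok (col D N p M q) (col D M q K r) (col D N p K r) := by
    intro h
    rw [col_symm D K r M q] at h
    exact ok13 h
  have P4 : ok (col D M q K r) (col D K r N p) (col D M q N p) →
      ok (col D N p M q) (col D M q K r) (col D N p K r) := by
    intro h
    rw [col_symm D K r N p, col_symm D M q N p] at h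
    exact okrot' h
  have P5 : ok (col D K r N p) (col D N p M q) (col D K r M q) →
      ok (col D N p M q) (col D M q K r) (col D N p K r) := by
    intro h
    rw [col_symm D K r N p, col_symm D K r M q] at h
    exact okrot h
  rcases status N p M q with ⟨a1, a2⟩ | ⟨s, a⟩ | ⟨s, a⟩
  · rcases status M q K r with ⟨b1, b2⟩ | ⟨t, b⟩ | ⟨t, b⟩
    · rcases status N p K r with ⟨c1, c2⟩ | ⟨u, c⟩ | ⟨u, c⟩
      · rw [col_plain D hNM a1 a2, col_plain D hMK b1 b2, col_plain D hNK c1 c2, D.C_symm _ p r]
        have := D.F3 (mu D N M) (mu D M K) (mu D N K) p q r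
        rw [D.C_symm _ r p]
        exact this
      · -- N -> K, M plain to both
        rw [col_plain D hNM a1 a2, col_plain D hMK b1 b2, col_edge D c, mu_symm D M K,
          D.C_symm _ q r]
        have := tri_one (K := M) (r := q) hN c
        first | exact this | exact ok12 this | exact ok23 this | exact ok13 this | exact okrot this |
        exact okrot' this
      · rw [col_plain D hNM a1 a2, col_plain D hMK b1 b2, col_edge' D c, mu_symm D M K,
          D.C_symm _ q r]
        have := tri_one (K := M) (r := q) hK c
        rw [mu_symm D K M, D.C_symm _ r q, mu_symm D N M, D.C_symm _ p q] at this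
        rw [mu_symm D K M, D.C_symm _ r q, mu_symm D N M, D.C_symm _ p q]
        first | exact this | exact ok12 this | exact ok23 this | exact ok13 this | exact okrot this |
        exact okrot' this
    · rcases status N p K r with ⟨c1, c2⟩ | ⟨u, c⟩ | ⟨u, c⟩
      · -- M -> K, N plain to both
        rw [col_plain D hNM a1 a2, col_edge D b, col_plain D hNK c1 c2, mu_symm D N M,
          D.C_symm _ p q, mu_symm D N K, D.C_symm _ p r]
        exact ok12 (tri_one hM b)
      · -- M -> K, N -> K
        exact P3 (heads D hN hM hNM hMK.symm hNK c b)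
      · -- M -> K -> N
        exact P4 (chain D hM hNM.symm hNK.symm b c)
    · rcases status N p K r with ⟨c1, c2⟩ | ⟨u, c⟩ | ⟨u, c⟩
      · -- K -> M
        rw [col_plain D hNM a1 a2, col_edge' D b, col_plain D hNK c1 c2, mu_symm D N M,
          D.C_symm _ p q, mu_symm D N K, D.C_symm _ p r]
        have := tri_one (K := N) (r := p) hK b
        first | exact this | exact ok12 this | exact ok23 this | exact ok13 this | exact okrot this |
        exact okrot' this
      · -- N -> K -> M
        exact P3 (chain D hN hNM hMK.symm c b)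
      · -- K -> M, K -> N
        exact P2 (by
          have := src D hK b c (fun e => hNM e.1.symm)
          exact this)
  · rcases status M q K r with ⟨b1, b2⟩ | ⟨t, b⟩ | ⟨t, b⟩
    · rcases status N p K r with ⟨c1, c2⟩ | ⟨u, c⟩ | ⟨u, c⟩
      · -- N -> M, K plain to both
        rw [col_edge D a, col_plain D hMK b1 b2, col_plain D hNK c1 c2]
        exact ok23 (tri_one hN a)
      · exact src D hN a c (fun e => hMK e.1)
      · -- K -> N -> M
        exact P5 (chain D hK hMK.symm hNM c a)
    · exact chain D hN hNK hMK a b
    · exact heads D hN hK hNK hMK hNM a b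
  · rcases status M q K r with ⟨b1, b2⟩ | ⟨t, b⟩ | ⟨t, b⟩
    · rcases status N p K r with ⟨c1, c2⟩ | ⟨u, c⟩ | ⟨u, c⟩
      · -- M -> N, K plain to both
        rw [col_edge' D a, col_plain D hMK b1 b2, col_plain D hNK c1 c2]
        exact tri_one hM a
      · -- M -> N -> K
        exact P1 (chain D hM hMK hNK a c)
      · -- M -> N, K -> N
        exact P1 (heads D hM hK hMK hNK hNM.symm a c)
    · -- M -> N, M -> K
      exact P1 (src D hM a b (fun e => hNK e.1))
    · -- K -> M -> N
      exact P2 (chain D hK hNK.symm hNM.symm b a)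

/-- Two positions of one fiber and a third point. -/
theorem tri2 {N M : Fb B I} {p q r : B} (hN : Good D N) (hM : Good D M) (hNM : N ≠ M)
    (hpq : p ≠ q) : ok (col D N p M r) (col D N q M r) (D.b p q) := by
  rcases status N p M r with ⟨a1, a2⟩ | ⟨s, a⟩ | ⟨s, a⟩
  · rcases status N q M r with ⟨b1, b2⟩ | ⟨t, b⟩ | ⟨t, b⟩
    · rw [col_plain D hNM a1 a2, col_plain D hNM b1 b2, D.C_symm _ p r, D.C_symm _ q r]
      exact D.D2 _ _ _ _ hpq
    · rw [col_plain D hNM a1 a2, col_edge D b, D.b_symm]
      have := two_head hN b hpq
      first | exact this | exact ok12 this | exact ok23 this | exact ok13 this | exact okrot this |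
      exact okrot' this
    · rw [col_plain D hNM a1 a2, col_edge' D b, D.b_symm, D.C_symm, mu_symm]
      have := two_target hM b hpq
      first | exact this | exact ok12 this | exact ok23 this | exact ok13 this | exact okrot this |
      exact okrot' this
  · rcases status N q M r with ⟨b1, b2⟩ | ⟨t, b⟩ | ⟨t, b⟩
    · rw [col_edge D a, col_plain D hNM b1 b2]
      exact ok23 (two_head hN a hpq.symm)
    · exfalso
      cases N with
      | base => exact absurd a (by simp [edge])
      | nd tw F G i j hh x y s' t' =>
        exact hpq ((edge_cases a).1.trans (edge_cases b).1.symm)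
    · have := edge_size a
      have := edge_size b
      omega
  · rcases status N q M r with ⟨b1, b2⟩ | ⟨t, b⟩ | ⟨t, b⟩
    · rw [col_edge' D a, col_plain D hNM b1 b2, D.C_symm, mu_symm]
      exact ok23 (two_target hM a hpq.symm)
    · have := edge_size a
      have := edge_size b
      omega
    · rw [col_edge' D a, col_edge' D b]
      have := (edge_two D hM a b (fun e => hpq e.2)).2
      rwa [col_fib] at this

/-- The points. -/
abbrev Pt : Type := {N : Fb B I // Good D N} × B

/-- The colouring. -/
noncomputable def pcol (u v : Pt D) : ZMod 6 := col D u.1.1 u.2 v.1.1 v.2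

theorem no_forb (u v w : Pt D) (huv : u ≠ v) (hvw : v ≠ w) (huw : u ≠ w) :
    ok (pcol D u v) (pcol D v w) (pcol D u w) := by
  obtain ⟨⟨N, hN⟩, p⟩ := u
  obtain ⟨⟨M, hM⟩, q⟩ := v
  obtain ⟨⟨K, hK⟩, r⟩ := w
  show ok (col D N p M q) (col D M q K r) (col D N p K r)
  by_cases h1 : N = M
  · subst h1
    have hpq : p ≠ q := fun e => huv (by subst e; rfl)
    by_cases h2 : N = K
    · subst h2
      rw [col_fib, col_fib, col_fib]
      exact D.D1 _ _ _ hpq (fun e => hvw (by subst e; rfl)) (fun e => huw (by subst e; rfl))
    · rw [col_fib]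
      exact okrot' (ok12 (tri2 D hN hK h2 hpq))
  · by_cases h2 : M = K
    · subst h2
      have hqr : q ≠ r := fun e => hvw (by subst e; rfl)
      rw [col_fib, col_symm D N p M q, col_symm D N p M r]
      exact ok23 (tri2 D hM hN (Ne.symm h1) hqr)
    · by_cases h3 : N = K
      · subst h3
        have hpr : p ≠ r := fun e => huw (by subst e; rfl)
        rw [col_fib, col_symm D M q N r]
        exact tri2 D hN hM h1 hpr
      · exact tri3 D hN hM hK h1 h2 h3

/-- **The representation**, if all requests are served. -/
theorem rep_of_served (b₀ b₁ : B) (hb : b₀ ≠ b₁)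
    (hs : ∀ u v : Pt D, u ≠ v → ∀ s t, ok (pcol D u v) s t →
      ∃ w, w ≠ u ∧ w ≠ v ∧ pcol D u w = s ∧ pcol D w v = t) :
    ∃ (U : Type) (r : Set Atom → Set (U × U)), Nonempty U ∧ IsRepresentation U r := by
  refine ⟨Pt D, ?_⟩
  have h : IsColouring (pcol D) :=
    { nontriv := ⟨(⟨base, trivial⟩, b₀), (⟨base, trivial⟩, b₁), fun e => hb (by
        have := congrArg Prod.snd e
        exact this)⟩
      symm := fun u v _ => col_symm D _ _ _ _
      no_forb := fun u v w h1 h2 h3 => no_forb D u v w h1 h2 h3
      witness := fun u v h s t hf => hs u v h s t hf }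
  obtain ⟨r, hr⟩ := rep_of_colouring h
  exact ⟨r, ⟨(⟨base, trivial⟩, b₀)⟩, hr⟩

end Pool.Agent.CRQ.Twin
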