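import Pool.Agent.RMQ.Good
import Pool.Agent.RMQ.Smooth
import Pool.Agent.RMQ.Sched
import Pool.Agent.CRQ.Defs

/-! # From the schedules to the worst case theorem on tuples of symmetric matrices -/

set_option autoImplicit false

open Filter
open RMQ

namespace CRQ

theorem density : RMQ.DensityStatement := by
  intro d hd
  obtain ⟨g, K, hg, hK, hS⟩ := sched d hd
  refine ⟨g, K, (1 / 2) * (1 / 4) ^ g, hg, hK, by positivity, ?_⟩
  set C : ℝ := 16 * 64 ^ g * ((1 / 2 + d) * g * (K * K ^ 3)) with hC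
  have hC0 : 0 < C := by
    have : (0 : ℝ) < g := by exact_mod_cast hg
    have : (0 : ℝ) < K := by exact_mod_cast hK
    positivity
  have hlim := (tendsto_pow_const_div_const_pow_of_one_lt 1 (one_lt_two : (1 : ℝ) < 2)).comp
    (tendsto_add_atTop_nat 1)
  have hev : ∀ᶠ u : ℕ in atTop, ((u + 1 : ℕ) : ℝ) ^ 1 / 2 ^ (u + 1) < 1 / (2 * C) :=
    hlim.eventually_lt_const (by positivity)
  obtain ⟨U0, hU0⟩ := eventually_atTop.1 hev
  set U := max U0 2 with hU
  refine ⟨K * (K ^ 3 * (U + 1)) + 2, fun n hn hKn => ?_⟩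
  obtain ⟨D, rfl⟩ := hKn
  have hDU : K ^ 3 * (U + 1) ≤ D := by
    have : K * (K ^ 3 * (U + 1)) ≤ K * D := by omega
    exact Nat.le_of_mul_le_mul_left this hK
  have hD1 : 1 ≤ D := le_trans (Nat.mul_pos (pow_pos hK 3) (Nat.succ_pos U)) hDU
  obtain ⟨s, u, h1, h2, h3⟩ := hS D hD1
  have huU : U ≤ u := by
    have h4 : K ^ 3 * (U + 1) ≤ K ^ 3 * (u + 1) := hDU.trans h1
    have h5 := Nat.le_of_mul_le_mul_left h4 (pow_pos hK 3)
    omega
  refine ⟨s, h2, good_of_reach (by omega) ((le_max_right U0 2).trans huU) h3 ?_⟩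
  have h6 := hU0 u ((le_max_left U0 2).trans huU)
  have h7 : (D : ℝ) ≤ K ^ 3 * (u + 1) := by exact_mod_cast h1
  have hg0 : (0 : ℝ) ≤ g := Nat.cast_nonneg _
  have hK0 : (0 : ℝ) ≤ K := Nat.cast_nonneg _
  have h8 : (16 : ℝ) * 64 ^ g * s ≤ C * (u + 1) := by
    have h9 : (s : ℝ) ≤ (1 / 2 + d) * g * (K * (K ^ 3 * (u + 1))) := by
      refine h2.trans ?_
      push_cast
      have : (K : ℝ) * D ≤ K * (K ^ 3 * (u + 1)) := mul_le_mul_of_nonneg_left h7 hK0
      exact mul_le_mul_of_nonneg_left this (by positivity)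
    rw [hC]
    calc (16 : ℝ) * 64 ^ g * s ≤ 16 * 64 ^ g * ((1 / 2 + d) * g * (K * (K ^ 3 * (u + 1)))) :=
          mul_le_mul_of_nonneg_left h9 (by positivity)
      _ = 16 * 64 ^ g * ((1 / 2 + d) * g * (K * K ^ 3)) * (u + 1) := by ring
  have h10 : C * (u + 1) ≤ 2 ^ u := by
    rw [pow_one, div_lt_div_iff₀ (by positivity) (by positivity)] at h6
    push_cast at h6
    rw [pow_succ] at h6
    linarith
  have h11 : ((16 * 64 ^ g * s : ℕ) : ℝ) ≤ ((2 ^ u : ℕ) : ℝ) := by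
    push_cast
    exact h8.trans h10
  exact_mod_cast h11

theorem worstThm : WorstThm := fun d hd =>
  RMQ.worst_of density (fun B hB => RMQ.rep_all B hB) d hd

end CRQ
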